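import Pool.Agent.Lib.P23Z.Chain

/-! The operators `th g k` and sequences.
PROOFS. `D_th`, `map_th`: F commutes with `push g`, hence with its powers (inside `Sup P`, which
is stable under `push g`), hence with `Nm g` and `push g - id`. `th_th`: with G = `push g`,
G ^ p = push (g^[p]) = id (`push_push`, `push_id`); (G - 1) * sum_{j<p} G^j = G^p - 1 = 0
(`mul_geom_sum`, `geom_sum_mul`) in the ring `Module.End`; k+1 and k have different parity.
`ev_th`: ev u (G c) = ev u c on `Sup P` (`lin_congr`), so ev u ((G-1) c) = 0 and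
ev u (N c) = p * ev u c = 0 in `ZMod p`. `th_nil`: G [] = [], sum of p copies is 0.
`IsSeq.comb`, `mono`: clear. `IsSeq.map`: `map_th` (note that (fun l => length ∧ P) implies P,
`Sup_mono`). `IsSeq.fill`: put q 0 = cone (v 0) (z 0), q (k+1) = cone (v (k+1))
(z (k+1) - th g (k+1) (q k)). Claim for k <= m: q k in Sup (length k+2 ∧ P (k+1)) and
D (q 0) = z 0 (as D (z 0) = single [] 0 = 0), D (q (k+1)) = z (k+1) - th g (k+1) (q k): by
`D_cone` it remains D (z (k+1) - th g (k+1) (q k)) = th g (k+1) (z k) - th g (k+1) (D (q k)) = 0,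
where D (q k) = z k - th g k (q (k-1)) and `th_th` kills the second term (k = 0: D (q 0) = z 0).
So a = q m, b = q (m-1) (b = 0 for m = 0; th of 0 is 0). `IsSeq.ev_zero`: `fill` with P k = P,
v constant; ev u (D a) = 0 by `lin_mem`/`lin_congr` and hD, ev u (th ..) = 0 by `ev_th`. -/

namespace Pool.Agent.Lib.P23Z

open Finsupp

variable {p : ℕ} {V V' : Type*}

theorem mem_top (c : Ch p V) : c ∈ Sup p (fun _ : List V => True) := by
  rw [Sup, Finsupp.mem_supported]
  intro l _
  trivial

theorem pow_mem {g : V → V} {P : List V → Prop} (hP : ∀ l, P l → P (l.map g)) (j : ℕ)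
    {c : Ch p V} (hc : c ∈ Sup p P) : (push (p := p) g ^ j) c ∈ Sup p P := by
  induction j with
  | zero => simpa using hc
  | succ j ih =>
    rw [pow_succ', Module.End.mul_apply]
    exact push_mem g hP ih

theorem map_pow' {g : V → V} {g' : V' → V'} {P : List V → Prop} (hPg : ∀ l, P l → P (l.map g))
    (F : Ch p V →ₗ[ZMod p] Ch p V') (hF : ∀ c ∈ Sup p P, F (push g c) = push g' (F c)) (j : ℕ)
    {c : Ch p V} (hc : c ∈ Sup p P) :
    F ((push (p := p) g ^ j) c) = (push (p := p) g' ^ j) (F c) := by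
  induction j with
  | zero => simp
  | succ j ih =>
    rw [pow_succ', Module.End.mul_apply, hF _ (pow_mem hPg j hc), ih, pow_succ',
      Module.End.mul_apply]

theorem Nm_apply (g : V → V) (c : Ch p V) :
    Nm g c = ∑ j ∈ Finset.range p, (push (p := p) g ^ j) c := by
  rw [Nm, LinearMap.sum_apply]

/-- A map which commutes with `push g` commutes with `th g k`. -/
theorem map_th' {g : V → V} {g' : V' → V'} {P : List V → Prop} (hPg : ∀ l, P l → P (l.map g))
    (F : Ch p V →ₗ[ZMod p] Ch p V') (hF : ∀ c ∈ Sup p P, F (push g c) = push g' (F c)) (k : ℕ)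
    {c : Ch p V} (hc : c ∈ Sup p P) : F (th g k c) = th g' k (F c) := by
  unfold th
  split_ifs with h
  · rw [Nm_apply, Nm_apply, map_sum]
    exact Finset.sum_congr rfl fun j _ => map_pow' hPg F hF j hc
  · rw [LinearMap.sub_apply, LinearMap.sub_apply, map_sub, hF c hc, LinearMap.id_apply,
      LinearMap.id_apply]

theorem pow_push (g : V → V) (j : ℕ) (c : Ch p V) :
    (push (p := p) g ^ j) c = push (g^[j]) c := by
  induction j generalizing c with
  | zero =>
    rw [pow_zero, Function.iterate_zero, push_id]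
    rfl
  | succ j ih =>
    rw [pow_succ, Module.End.mul_apply, ih, push_push, Function.iterate_succ]

theorem D_th (g : V → V) (k : ℕ) (c : Ch p V) : D (th g k c) = th g k (D c) :=
  map_th' (P := fun _ => True) (fun _ _ => trivial) D (fun c _ => D_push g c) k (mem_top c)

/-- `N (g - 1) = 0 = (g - 1) N` when `g` has order `p`. -/
theorem th_th {g : V → V} (hg : g^[p] = id) (k : ℕ) (c : Ch p V) :
    th g (k + 1) (th g k c) = 0 := by
  have hp : push (p := p) g ^ p = 1 := by
    apply LinearMap.ext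
    intro c
    rw [pow_push, hg, push_id]
    rfl
  have h1 : (push (p := p) g - LinearMap.id) * Nm g = 0 := by
    have := mul_geom_sum (push (p := p) g) p
    rw [hp, sub_self] at this
    exact this
  have h2 : Nm (p := p) g * (push (p := p) g - LinearMap.id) = 0 := by
    have := geom_sum_mul (push (p := p) g) p
    rw [hp, sub_self] at this
    exact this
  unfold th
  rcases Nat.even_or_odd k with h | h
  · have h' : ¬ Even (k + 1) := by
      rw [Nat.even_add_one]
      exact fun hh => hh h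
    rw [if_pos h, if_neg h', ← Module.End.mul_apply, h1]
    rfl
  · have h0 : ¬ Even k := Nat.not_even_iff_odd.2 h
    have h' : Even (k + 1) := by
      rw [Nat.even_add_one]
      exact h0
    rw [if_neg h0, if_pos h', ← Module.End.mul_apply, h2]
    rfl

theorem th_mem {g : V → V} {P : List V → Prop} (hP : ∀ l, P l → P (l.map g)) (k j : ℕ)
    {c : Ch p V} (hc : c ∈ Sup p (fun l => l.length = j ∧ P l)) :
    th g k c ∈ Sup p (fun l => l.length = j ∧ P l) := by
  have hP' : ∀ l : List V, (l.length = j ∧ P l) →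
      ((l.map g).length = j ∧ P (l.map g)) := fun l hl => ⟨by rw [List.length_map]; exact hl.1,
    hP l hl.2⟩
  unfold th
  split_ifs with h
  · rw [Nm_apply]
    exact Submodule.sum_mem _ fun i _ =>
      pow_mem (P := fun l => l.length = j ∧ P l) hP' i hc
  · rw [LinearMap.sub_apply, LinearMap.id_apply]
    exact Submodule.sub_mem _ (push_mem (P := fun l => l.length = j ∧ P l)
      (Q := fun l => l.length = j ∧ P l) g hP' hc) hc

/-- A map which commutes with `push g` commutes with `th g k`. -/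
theorem map_th {g : V → V} {g' : V' → V'} {P : List V → Prop} (hPg : ∀ l, P l → P (l.map g))
    (F : Ch p V →ₗ[ZMod p] Ch p V') (hF : ∀ c ∈ Sup p P, F (push g c) = push g' (F c)) (k : ℕ)
    {c : Ch p V} (hc : c ∈ Sup p P) : F (th g k c) = th g' k (F c) := by
  exact map_th' hPg F hF k hc

/-- Invariant cochains vanish on the image of `th g k`. -/
theorem ev_th {g : V → V} {P : List V → Prop} (hP : ∀ l, P l → P (l.map g))
    {u : List V → ZMod p} (hu : ∀ l, P l → u (l.map g) = u l) (k : ℕ) {c : Ch p V}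
    (hc : c ∈ Sup p P) : ev u (th g k c) = 0 := by
  have h1 : ∀ c ∈ Sup p P, ev u (push g c) = ev u c := by
    intro c hc
    refine lin_congr (F := (ev u).comp (push g)) (F' := ev u) (P := P) ?_ hc
    intro l hl
    rw [LinearMap.comp_apply, push_single, ev_single, ev_single, hu l hl]
  have h2 : ∀ j : ℕ, ev u ((push (p := p) g ^ j) c) = ev u c := by
    intro j
    induction j with
    | zero => simp
    | succ j ih =>
      rw [pow_succ', Module.End.mul_apply, h1 _ (pow_mem hP j hc), ih]
  unfold th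
  split_ifs with h
  · rw [Nm_apply, map_sum, Finset.sum_congr rfl fun j _ => h2 j, Finset.sum_const,
      Finset.card_range, nsmul_eq_mul, ZMod.natCast_self, zero_mul]
  · rw [LinearMap.sub_apply, LinearMap.id_apply, map_sub, h1 c hc, sub_self]

/-- The augmentation of `(g - 1) c` and `N c` is zero: on multiples of the empty list. -/
theorem th_nil (g : V → V) (k : ℕ) (a : ZMod p) : th g k (single [] a : Ch p V) = 0 := by
  have h1 : push (p := p) g (single [] a) = single [] a := by
    rw [push_single, List.map_nil]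
  have h2 : ∀ j : ℕ, (push (p := p) g ^ j) (single [] a : Ch p V) = single [] a := by
    intro j
    induction j with
    | zero => simp
    | succ j ih => rw [pow_succ', Module.End.mul_apply, ih, h1]
  unfold th
  split_ifs with h
  · rw [Nm_apply, Finset.sum_congr rfl fun j _ => h2 j, Finset.sum_const,
      Finset.card_range, ← Nat.cast_smul_eq_nsmul (ZMod p), ZMod.natCast_self, zero_smul]
  · rw [LinearMap.sub_apply, LinearMap.id_apply, h1, sub_self]

theorem IsSeq.comb {g : V → V} {P : List V → Prop} {m : ℕ} {b b' : ZMod p} {x x' : ℕ → Ch p V}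
    (h : IsSeq g P m b x) (h' : IsSeq g P m b' x') (a a' : ZMod p) :
    IsSeq g P m (a * b - a' * b') (fun k => a • x k - a' • x' k) := by
  obtain ⟨h1, h2, h3⟩ := h
  obtain ⟨h1', h2', h3'⟩ := h'
  refine ⟨fun k hk => Submodule.sub_mem _ (Submodule.smul_mem _ a (h1 k hk))
    (Submodule.smul_mem _ a' (h1' k hk)), ?_, fun k hk => ?_⟩
  · show D (a • x 0 - a' • x' 0) = _
    rw [map_sub, map_smul, map_smul, h2, h2', Finsupp.smul_single, Finsupp.smul_single,
      ← Finsupp.single_sub, smul_eq_mul, smul_eq_mul]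
  · show D (a • x (k + 1) - a' • x' (k + 1)) = th g (k + 1) (a • x k - a' • x' k)
    rw [map_sub, map_smul, map_smul, h3 k hk, h3' k hk, map_sub, map_smul, map_smul]

theorem IsSeq.mono {g : V → V} {P Q : List V → Prop} {m m' : ℕ} {b : ZMod p} {x : ℕ → Ch p V}
    (h : IsSeq g P m b x) (hm : m' ≤ m) (hPQ : ∀ l, P l → Q l) : IsSeq g Q m' b x := by
  obtain ⟨h1, h2, h3⟩ := h
  refine ⟨fun k hk => ?_, h2, fun k hk => h3 k (lt_of_lt_of_le hk hm)⟩
  exact Sup_mono (fun l hl => ⟨hl.1, hPQ l hl.2⟩) (h1 k (hk.trans hm))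

/-- Images of sequences under degree preserving chain maps. -/
theorem IsSeq.map {g : V → V} {g' : V' → V'} {P : List V → Prop} {Q : List V' → Prop} {m : ℕ}
    {b : ZMod p} {x : ℕ → Ch p V} (h : IsSeq g P m b x) (hPg : ∀ l, P l → P (l.map g))
    (F : Ch p V →ₗ[ZMod p] Ch p V')
    (hFg : ∀ c ∈ Sup p P, F (push g c) = push g' (F c)) (hFD : ∀ c, D (F c) = F (D c))
    (hF0 : ∀ a, F (single [] a) = single [] a)
    (hFP : ∀ k, ∀ c ∈ Sup p (fun l => l.length = k + 1 ∧ P l),
      F c ∈ Sup p (fun l => l.length = k + 1 ∧ Q l)) :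
    IsSeq g' Q m b (fun k => F (x k)) := by
  obtain ⟨h1, h2, h3⟩ := h
  refine ⟨fun k hk => hFP k _ (h1 k hk), ?_, fun k hk => ?_⟩
  · show D (F (x 0)) = _
    rw [hFD, h2, hF0]
  · show D (F (x (k + 1))) = th g' (k + 1) (F (x k))
    rw [hFD, h3 k hk]
    exact map_th hPg F hFg (k + 1) (Sup_mono (fun l hl => hl.2) (h1 k hk.le))

/-- If the augmentation is zero, the top member of a sequence is a boundary plus an element
of the image of `th` (cones `v k`; `P k` is the support condition of the `k`-th cone). -/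
theorem IsSeq.fill {g : V → V} (hg : g^[p] = id) {m : ℕ} {z : ℕ → Ch p V}
    {P : ℕ → List V → Prop} (v : ℕ → V)
    (hP0 : ∀ k, ∀ l, P k l → P (k + 1) l) (hPg : ∀ k, ∀ l, P k l → P k (l.map g))
    (hPv : ∀ k ≤ m, ∀ l, P k l → P (k + 1) (v k :: l))
    (h : IsSeq g (P 0) m 0 z) :
    ∃ a b : Ch p V, a ∈ Sup p (fun l => l.length = m + 2 ∧ P (m + 1) l) ∧
      b ∈ Sup p (fun l => l.length = m + 1 ∧ P m l) ∧ z m = D a + th g m b := by
  obtain ⟨h1, h2, h3⟩ := h
  have hPk : ∀ k, ∀ l, P 0 l → P k l := by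
    intro k
    induction k with
    | zero => exact fun l hl => hl
    | succ k ih => exact fun l hl => hP0 k l (ih l hl)
  have hcone : ∀ k ≤ m, ∀ c ∈ Sup p (fun l : List V => l.length = k + 1 ∧ P k l),
      cone (v k) c ∈ Sup p (fun l : List V => l.length = k + 2 ∧ P (k + 1) l) := by
    intro k hk c hc
    refine cone_mem (v k) (fun l hl => ?_) hc
    exact ⟨by rw [List.length_cons, hl.1], hPv k hk l hl.2⟩
  obtain ⟨q, hq0, hq1⟩ : ∃ q : ℕ → Ch p V, q 0 = cone (v 0) (z 0) ∧
      ∀ k, q (k + 1) = cone (v (k + 1)) (z (k + 1) - th g (k + 1) (q k)) :=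
    ⟨fun k => Nat.rec (cone (v 0) (z 0))
      (fun k y => cone (v (k + 1)) (z (k + 1) - th g (k + 1) y)) k, rfl, fun k => rfl⟩
  have hD0 : D (q 0) = z 0 := by
    rw [hq0, D_cone, h2, cone_single, sub_eq_self]
    simp
  have hmain : ∀ k ≤ m, q k ∈ Sup p (fun l : List V => l.length = k + 2 ∧ P (k + 1) l) ∧
      th g (k + 1) (D (q k)) = th g (k + 1) (z k) := by
    intro k
    induction k with
    | zero =>
      intro hk
      refine ⟨?_, by rw [hD0]⟩
      rw [hq0]
      exact hcone 0 hk _ (h1 0 hk)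
    | succ k ih =>
      intro hk
      obtain ⟨hm1, hd1⟩ := ih (by omega)
      have hin : z (k + 1) - th g (k + 1) (q k) ∈
          Sup p (fun l : List V => l.length = k + 1 + 1 ∧ P (k + 1) l) :=
        Submodule.sub_mem _ (Sup_mono (fun l hl => ⟨hl.1, hPk (k + 1) l hl.2⟩) (h1 (k + 1) hk))
          (th_mem (hPg (k + 1)) (k + 1) (k + 2) hm1)
      have hDq : D (q (k + 1)) = z (k + 1) - th g (k + 1) (q k) := by
        rw [hq1, D_cone, map_sub, h3 k (by omega), D_th, hd1, sub_self, map_zero, sub_zero]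
      refine ⟨?_, ?_⟩
      · rw [hq1]
        exact hcone (k + 1) hk _ hin
      · rw [hDq, map_sub, th_th hg, sub_zero]
  rcases m with _ | m
  · refine ⟨q 0, 0, (hmain 0 le_rfl).1, Submodule.zero_mem _, ?_⟩
    rw [hD0, map_zero, add_zero]
  · refine ⟨q (m + 1), q m, (hmain (m + 1) le_rfl).1, (hmain m (by omega)).1, ?_⟩
    obtain ⟨hm1, hd1⟩ := hmain m (by omega)
    rw [hq1, D_cone, map_sub, h3 m (by omega), D_th, hd1, sub_self, map_zero, sub_zero,
      sub_add_cancel]

/-- Closed invariant cochains vanish on sequences of augmentation zero (no smallness). -/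
theorem IsSeq.ev_zero {g : V → V} (hg : g^[p] = id) {m : ℕ} {z : ℕ → Ch p V}
    {P : List V → Prop} (v : V) (hPg : ∀ l, P l → P (l.map g)) (hPv : ∀ l, P l → P (v :: l))
    {u : List V → ZMod p} (hu : ∀ l, P l → u (l.map g) = u l)
    (hD : ∀ l, P l → ev u (bd p l) = 0) (h : IsSeq g P m 0 z) : ev u (z m) = 0 := by
  obtain ⟨a, b, ha, hb, hz⟩ := IsSeq.fill hg (P := fun _ => P) (fun _ => v)
    (fun _ l hl => hl) (fun _ l hl => hPg l hl) (fun _ _ l hl => hPv l hl) h
  rw [hz, map_add, ev_th hPg hu m (Sup_mono (fun l hl => hl.2) hb), add_zero]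
  have := lin_congr (F := (ev u).comp D) (F' := 0) (P := P) (c := a) (fun l hl => by
    rw [LinearMap.comp_apply, D_single, one_smul, hD l hl, LinearMap.zero_apply])
    (Sup_mono (fun l hl => hl.2) ha)
  exact this

end Pool.Agent.Lib.P23Z
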