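import Pool.Agent.Lib.P23Z.Mesh

/-! Admissible lists in `ℂ^n`, the coarse and the fine sequence.
PROOFS. `her_adm`: same c; for the barycenter average the t. `adm_cone`: change c at the index
s to 1 (all old t vanish there; for the old points t i * c i is unchanged: t s = 0), t of
vec n s is the indicator of s (needs s < n). `adm_mul`: c i replaced by z * c i. `adm_K`:
‖w i‖ = t i. `adm_close`: ‖w i - w' i‖ ≤ t i + t' i ≤ 2 (max norm). `close_mul`: norm of z is 1.
`mul_iter`: iterate = multiplication by z^p = 1. `exists_coarse`: x 0 = single [vec n 0] 1,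
x (k+1) = cone (vec n (k+1)) (th (mul n z) (k+1) (x k)); support Adm n (k+1) by `adm_cone`,
`th_mem`, `adm_mul`, mono at the end; D (x (k+1)) = th (x k) - cone (D (th (x k))) and
D (th (k+1) (x k)) = th (k+1) (D (x k)) = th (k+1) (th k (x (k-1))) = 0 (`th_th`), for k = 0 it
is th 1 (single [] 1) = 0 (`th_nil`). `exists_fine`: apply Sd^[M] to the coarse sequence:
`IsSeq.sd` iterated (mul n z is the coercion of a linear map) keeps Adm (`her_adm`), and
`iter_close` with R = 2 (`adm_close`), k = N gives Close δ for all members at once.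
`ev_zero_small`: let P k = Adm n (s + k). `IsSeq.fill` with v k = vec n (s + k) (m + 1 new
coordinates) gives y m = D a + th (mul n z) m b, a, b supported in Adm n (s+m+1) resp.
Adm n (s+m), lengths m+2, m+1. Take M from `iter_close` for k = m + 1, R = 2: then
ev u (Sd^[M] (y m)) = ev u (D (Sd^[M] a)) + ev u (th .. (Sd^[M] b)) = 0 (`D_Sd`, `map_th` with
`Sd_push`, huD on the small lists via `lin_congr`, `ev_th`). Finally
ev u (Sd^[j+1] (y m)) = ev u (Sd^[j] (y m)) for all j: with c = Sd^[j] (y m), `D_Th`: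
c - Sd c = D (Th c) + Th (D c); Th c is supported in small admissible lists (`Th_mem` with
Her.and her_adm her_close), so ev u (D (Th c)) = 0; D c = 0 if m = 0 (augmentation zero) and
D c = th .. (Sd^[j] (y (m-1))) otherwise (`D_Sd`, `map_th`), Th (th .. c') = th .. (Th c')
(`map_th`, `Th_push`), so `ev_th` gives 0. -/

namespace Pool.Agent.Lib.P23Z

open Finsupp

variable {p : ℕ}

/-- The sum of points of an admissible list. -/
theorem AdmLAux.sum_rep {n s : ℕ} (c : Fin n → ℂ) (l : List (W n))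
    (h : ∀ w ∈ l, ∃ t : Fin n → ℝ, (∀ i, 0 ≤ t i) ∧ (∀ i, s ≤ i.val → t i = 0) ∧ ∑ i, t i = 1 ∧
      ∀ i, w i = t i * c i) :
    ∃ t : Fin n → ℝ, (∀ i, 0 ≤ t i) ∧ (∀ i, s ≤ i.val → t i = 0) ∧ ∑ i, t i = l.length ∧
      ∀ i, l.sum i = t i * c i := by
  induction l with
  | nil =>
    refine ⟨fun _ => 0, fun _ => le_rfl, fun _ _ => rfl, ?_, fun i => ?_⟩
    · simp
    · simp
  | cons w l ih =>
    obtain ⟨t, h1, h2, h3, h4⟩ := ih (fun x hx => h x (List.mem_cons_of_mem _ hx))
    obtain ⟨t', h1', h2', h3', h4'⟩ := h w List.mem_cons_self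
    refine ⟨fun i => t' i + t i, fun i => add_nonneg (h1' i) (h1 i), fun i hi => ?_, ?_,
      fun i => ?_⟩
    · show t' i + t i = 0
      rw [h2 i hi, h2' i hi, add_zero]
    · rw [Finset.sum_add_distrib, h3, h3', List.length_cons]
      push_cast
      ring
    · rw [List.sum_cons, Pi.add_apply, h4, h4']
      push_cast
      ring

theorem her_adm (n s : ℕ) : Her (Adm n s) := by
  refine ⟨?_, ?_⟩
  · rintro l l' ⟨c, hc, h⟩ hs
    exact ⟨c, hc, fun w hw => h w (hs w hw)⟩
  · rintro l l' ⟨c, hc, h⟩ hne hs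
    refine ⟨c, hc, fun w hw => ?_⟩
    rcases List.mem_cons.1 hw with hw | hw
    · obtain ⟨t, h1, h2, h3, h4⟩ := AdmLAux.sum_rep (s := s) c l' (fun w hw => h w (hs w hw))
      have hlen : (0 : ℝ) < l'.length := by
        exact_mod_cast List.length_pos_of_ne_nil hne
      refine ⟨fun i => (l'.length : ℝ)⁻¹ * t i, fun i => mul_nonneg (inv_nonneg.2 hlen.le) (h1 i),
        fun i hi => ?_, ?_, fun i => ?_⟩
      · show (l'.length : ℝ)⁻¹ * t i = 0
        rw [h2 i hi, mul_zero]
      · rw [← Finset.mul_sum, h3, inv_mul_cancel₀ hlen.ne']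
      · rw [hw, bary, Pi.smul_apply, h4, Complex.real_smul]
        push_cast
        ring
    · exact h w hw

theorem adm_mono {n s s' : ℕ} (h : s ≤ s') {l : List (W n)} (hl : Adm n s l) : Adm n s' l := by
  obtain ⟨c, hc, h'⟩ := hl
  refine ⟨c, hc, fun w hw => ?_⟩
  obtain ⟨t, h1, h2, h3, h4⟩ := h' w hw
  exact ⟨t, h1, fun i hi => h2 i (h.trans hi), h3, h4⟩

theorem adm_cone {n s : ℕ} (hs : s < n) {l : List (W n)} (hl : Adm n s l) :
    Adm n (s + 1) (vec n s :: l) := by
  obtain ⟨c, hc, h'⟩ := hl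
  refine ⟨fun i => if i.val = s then 1 else c i, fun i => ?_, fun w hw => ?_⟩
  · show ‖(if i.val = s then (1 : ℂ) else c i)‖ = 1
    by_cases hi : i.val = s
    · rw [if_pos hi, norm_one]
    · rw [if_neg hi, hc]
  · rcases List.mem_cons.1 hw with hw | hw
    · refine ⟨fun i => if i.val = s then 1 else 0, fun i => ?_, fun i hi => ?_, ?_, fun i => ?_⟩
      · show (0 : ℝ) ≤ if i.val = s then 1 else 0
        split_ifs <;> norm_num
      · exact if_neg (by omega)
      · rw [Finset.sum_eq_single (⟨s, hs⟩ : Fin n)]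
        · exact if_pos rfl
        · intro i _ hi
          refine if_neg fun h => hi (Fin.ext h)
        · intro h
          exact absurd (Finset.mem_univ _) h
      · rw [hw, vec]
        by_cases hi : i.val = s
        · simp [hi]
        · simp [hi]
    · obtain ⟨t, h1, h2, h3, h4⟩ := h' w hw
      refine ⟨t, h1, fun i hi => h2 i (by omega), h3, fun i => ?_⟩
      show w i = t i * (if i.val = s then (1 : ℂ) else c i)
      by_cases hi : i.val = s
      · rw [h4, h2 i hi.ge]
        simp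
      · rw [if_neg hi, h4]

theorem adm_mul {n s : ℕ} {z : ℂ} (hz : ‖z‖ = 1) {l : List (W n)} (hl : Adm n s l) :
    Adm n s (l.map (mul n z)) := by
  obtain ⟨c, hc, h'⟩ := hl
  refine ⟨fun i => z * c i, fun i => ?_, fun w hw => ?_⟩
  · rw [norm_mul, hz, hc, one_mul]
  · obtain ⟨w', hw', rfl⟩ := List.mem_map.1 hw
    obtain ⟨t, h1, h2, h3, h4⟩ := h' w' hw'
    refine ⟨t, h1, h2, h3, fun i => ?_⟩
    show z * w' i = t i * (z * c i)
    rw [h4]
    ring

theorem close_mul {n : ℕ} {δ : ℝ} {z : ℂ} (hz : ‖z‖ = 1) {l : List (W n)}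
    (hl : Close n δ l) : Close n δ (l.map (mul n z)) := by
  intro x hx y hy
  obtain ⟨x', hx', rfl⟩ := List.mem_map.1 hx
  obtain ⟨y', hy', rfl⟩ := List.mem_map.1 hy
  show dist (z • x') (z • y') ≤ δ
  rw [dist_smul₀, hz, one_mul]
  exact hl x' hx' y' hy'

theorem AdmLAux.norm_rep {n : ℕ} {c : Fin n → ℂ} (hc : ∀ i, ‖c i‖ = 1) {w : W n} {t : Fin n → ℝ}
    (h1 : ∀ i, 0 ≤ t i) (h4 : ∀ i, w i = t i * c i) (i : Fin n) : ‖w i‖ = t i := by
  rw [h4, norm_mul, hc, mul_one, Complex.norm_real, Real.norm_eq_abs, abs_of_nonneg (h1 i)]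

theorem adm_K {n s : ℕ} {l : List (W n)} (hl : Adm n s l) : ∀ w ∈ l, w ∈ K n := by
  obtain ⟨c, hc, h'⟩ := hl
  intro w hw
  obtain ⟨t, h1, h2, h3, h4⟩ := h' w hw
  show ∑ i, ‖w i‖ = 1
  rw [← h3]
  exact Finset.sum_congr rfl fun i _ => AdmLAux.norm_rep hc h1 h4 i

theorem adm_close {n s : ℕ} {l : List (W n)} (hl : Adm n s l) : Close n 2 l := by
  have key : ∀ w ∈ l, ∀ i, ‖w i‖ ≤ 1 := by
    intro w hw i
    have h1 : ∑ i, ‖w i‖ = 1 := adm_K hl w hw
    rw [← h1]
    exact Finset.single_le_sum (f := fun i => ‖w i‖) (fun j _ => norm_nonneg _) (Finset.mem_univ i)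
  intro x hx y hy
  rw [dist_pi_le_iff (by norm_num)]
  intro i
  rw [dist_eq_norm]
  have h1 := norm_sub_le (x i) (y i)
  have h2 := key x hx i
  have h3 := key y hy i
  linarith

theorem mul_iter {n : ℕ} {z : ℂ} (hz : z ^ p = 1) : (mul n z)^[p] = id := by
  have key : ∀ k : ℕ, ∀ w : W n, (mul n z)^[k] w = z ^ k • w := by
    intro k
    induction k with
    | zero => intro w; rw [Function.iterate_zero, id, pow_zero, one_smul]
    | succ k ih =>
      intro w
      rw [Function.iterate_succ_apply', ih]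
      show z • z ^ k • w = z ^ (k + 1) • w
      rw [smul_smul, pow_succ']
  funext w
  rw [key, hz, one_smul, id]

/-- The coarse sequence: cones with the standard vectors. -/
theorem exists_coarse {n N : ℕ} (hN : N < n) {z : ℂ} (hz : ‖z‖ = 1) (hzp : z ^ p = 1) :
    ∃ x : ℕ → Ch p (W n), IsSeq (mul n z) (Adm n (N + 1)) N 1 x := by
  let x : ℕ → Ch p (W n) := fun k => Nat.rec (single [vec n 0] 1)
    (fun k xk => cone (vec n (k + 1)) (th (mul n z) (k + 1) xk)) k
  have hx0 : x 0 = single [vec n 0] 1 := rfl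
  have hxs : ∀ k, x (k + 1) = cone (vec n (k + 1)) (th (mul n z) (k + 1) (x k)) := fun _ => rfl
  have hD0 : D (x 0) = single [] 1 := by
    rw [hx0, D_single, one_smul, bd, bd, map_zero, sub_zero]
  have hD : ∀ k, D (x (k + 1)) = th (mul n z) (k + 1) (x k) := by
    intro k
    induction k with
    | zero => rw [hxs, D_cone, D_th, hD0, th_nil, map_zero, sub_zero]
    | succ k ih => rw [hxs, D_cone, D_th, ih, th_th (mul_iter hzp), map_zero, sub_zero]
  have hsup : ∀ k ≤ N, x k ∈ Sup p (fun l => l.length = k + 1 ∧ Adm n (k + 1) l) := by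
    intro k
    induction k with
    | zero =>
      intro _
      refine single_mem ⟨rfl, ?_⟩ 1
      exact adm_cone (by omega) ⟨fun _ => 1, fun _ => norm_one, fun w hw => by simp at hw⟩
    | succ k ih =>
      intro hk
      refine cone_mem _ (fun l hl => ?_) (th_mem (fun l hl => adm_mul hz hl) (k + 1) (k + 1)
        (ih (by omega)))
      exact ⟨by rw [List.length_cons, hl.1], adm_cone (by omega) hl.2⟩
  exact ⟨x, fun k hk => Sup_mono (fun l hl => ⟨hl.1, adm_mono (by omega) hl.2⟩) (hsup k hk), hD0,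
    fun k _ => hD k⟩

/-- Multiplication as a real linear map. -/
noncomputable def AdmLAux.mulL (n : ℕ) (z : ℂ) : W n →ₗ[ℝ] W n where
  toFun := mul n z
  map_add' := fun x y => smul_add z x y
  map_smul' := fun r x => smul_comm z r x

theorem AdmLAux.iter_seq {n N : ℕ} {z : ℂ} (hz : ‖z‖ = 1) {s : ℕ} {b : ZMod p}
    {x : ℕ → Ch p (W n)} (h : IsSeq (mul n z) (Adm n s) N b x) (M : ℕ) :
    IsSeq (mul n z) (Adm n s) N b (fun k => Sd^[M] (x k)) := by
  induction M with
  | zero => exact h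
  | succ M ih =>
    have h1 := IsSeq.sd (g := AdmLAux.mulL n z) (her_adm n s) (fun l hl => adm_mul hz hl) ih
    have h2 : (fun k => Sd^[M + 1] (x k)) = fun k => Sd (Sd^[M] (x k)) := by
      funext k
      rw [Function.iterate_succ_apply']
    rw [h2]
    exact h1

/-- The fine sequence. -/
theorem exists_fine {n N : ℕ} (hN : N < n) {z : ℂ} (hz : ‖z‖ = 1) (hzp : z ^ p = 1)
    {δ : ℝ} (hδ : 0 < δ) :
    ∃ x : ℕ → Ch p (W n), IsSeq (mul n z) (fun l => Adm n (N + 1) l ∧ Close n δ l) N 1 x := by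
  obtain ⟨x, hx⟩ := exists_coarse (p := p) hN hz hzp
  obtain ⟨M, hM⟩ := iter_close (p := p) (k := N) (her_adm n (N + 1)) 2 δ hδ
  obtain ⟨h1, h2, h3⟩ := AdmLAux.iter_seq hz hx M
  refine ⟨fun k => Sd^[M] (x k), fun k hk => ?_, h2, h3⟩
  exact hM M le_rfl k hk (x k) (Sup_mono (fun l hl => ⟨hl.1, hl.2, adm_close hl.2⟩) (hx.1 k hk))

namespace AdmLAux

theorem iter_add {n : ℕ} (M : ℕ) (a b : Ch p (W n)) : Sd^[M] (a + b) = Sd^[M] a + Sd^[M] b := by
  induction M with
  | zero => rfl
  | succ M ih => rw [Function.iterate_succ_apply', Function.iterate_succ_apply',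
      Function.iterate_succ_apply', ih, map_add]

theorem iter_D {n : ℕ} (M : ℕ) (a : Ch p (W n)) : D (Sd^[M] a) = Sd^[M] (D a) := by
  induction M with
  | zero => rfl
  | succ M ih => rw [Function.iterate_succ_apply', Function.iterate_succ_apply', D_Sd, ih]

theorem iter_zero {n : ℕ} (M : ℕ) : Sd^[M] (0 : Ch p (W n)) = 0 := by
  induction M with
  | zero => rfl
  | succ M ih => rw [Function.iterate_succ_apply', ih, map_zero]

theorem all_mem {n : ℕ} (c : Ch p (W n)) : c ∈ Sup p (fun _ : List (W n) => True) := by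
  rw [Sup, Finsupp.mem_supported]
  intro l _
  trivial

theorem iter_th {n : ℕ} (z : ℂ) (k M : ℕ) (c : Ch p (W n)) :
    Sd^[M] (th (mul n z) k c) = th (mul n z) k (Sd^[M] c) := by
  induction M with
  | zero => rfl
  | succ M ih =>
    rw [Function.iterate_succ_apply', Function.iterate_succ_apply', ih]
    exact map_th (P := fun _ => True) (fun _ _ => trivial) Sd
      (fun c _ => Sd_push (AdmLAux.mulL n z) c) k (all_mem _)

theorem Th_th {n : ℕ} (z : ℂ) (k : ℕ) (c : Ch p (W n)) :
    Th (th (mul n z) k c) = th (mul n z) k (Th c) :=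
  map_th (P := fun _ => True) (fun _ _ => trivial) Th
    (fun c _ => Th_push (AdmLAux.mulL n z) c) k (all_mem _)

theorem iter_mem {n : ℕ} {P : List (W n) → Prop} (hP : Her P) {k : ℕ} {c : Ch p (W n)}
    (hc : c ∈ Sup p (fun l => l.length = k ∧ P l)) (M : ℕ) :
    (Sd^[M] c : Ch p (W n)) ∈ Sup p (fun l => l.length = k ∧ P l) := by
  induction M with
  | zero => exact hc
  | succ M ih => rw [Function.iterate_succ_apply']; exact Sd_mem hP ih

theorem ev_D {n : ℕ} {u : List (W n) → ZMod p} {P : List (W n) → Prop}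
    (huD : ∀ l, P l → ev u (bd p l) = 0) {c : Ch p (W n)} (hc : c ∈ Sup p P) :
    ev u (D c) = 0 := by
  have h1 := lin_mem ((ev u).comp D) ⊥ P (fun l hl => by
    rw [LinearMap.comp_apply, D_single, one_smul, huD l hl]
    exact Submodule.zero_mem _) hc
  rwa [Submodule.mem_bot] at h1

end AdmLAux

open AdmLAux

/-- Closed invariant cochains on small admissible lists vanish on small sequences of
augmentation zero, provided there are enough free coordinates. -/
theorem ev_zero_small {n s m : ℕ} (hn : s + m + 1 ≤ n) {z : ℂ} (hz : ‖z‖ = 1)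
    (hzp : z ^ p = 1) {δ : ℝ} (hδ : 0 < δ) {u : List (W n) → ZMod p}
    (hu : ∀ l, Adm n n l → u (l.map (mul n z)) = u l)
    (huD : ∀ l, Adm n n l → Close n δ l → ev u (bd p l) = 0)
    {y : ℕ → Ch p (W n)}
    (hy : IsSeq (mul n z) (fun l => Adm n s l ∧ Close n δ l) m 0 y) : ev u (y m) = 0 := by
  obtain ⟨a, b, ha, hb, hab⟩ := IsSeq.fill (mul_iter hzp) (P := fun k l => Adm n (s + k) l)
    (fun k => vec n (s + k)) (fun k l hl => adm_mono (Nat.le_succ (s + k)) hl) (fun k l hl => adm_mul hz hl)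
    (fun k hk l hl => adm_cone (show s + k < n by omega) hl) (hy.mono le_rfl (fun l hl => hl.1))
  obtain ⟨M, hM⟩ := iter_close (p := p) (k := m + 1) (her_adm n n) 2 δ hδ
  have hA := hM M le_rfl (m + 1) le_rfl a (Sup_mono (fun l hl =>
    ⟨hl.1, adm_mono (by omega) hl.2, adm_close hl.2⟩) ha)
  have hB := hM M le_rfl m (by omega) b (Sup_mono (fun l hl =>
    ⟨hl.1, adm_mono (by omega) hl.2, adm_close hl.2⟩) hb)
  have hMz : ev u (Sd^[M] (y m)) = 0 := by
    rw [hab, iter_add, map_add, ← iter_D, iter_th,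
      ev_D (P := fun l => l.length = m + 1 + 1 ∧ Adm n n l ∧ Close n δ l)
        (fun l hl => huD l hl.2.1 hl.2.2) hA,
      ev_th (P := Adm n n) (fun l hl => adm_mul hz hl) hu m (Sup_mono (fun l hl => hl.2.1) hB),
      add_zero]
  have hher : Her (fun l : List (W n) => Adm n s l ∧ Close n δ l) :=
    (her_adm n s).and (her_close n δ)
  have hstep : ∀ j, ev u (Sd^[j + 1] (y m)) = ev u (Sd^[j] (y m)) := by
    intro j
    rw [Function.iterate_succ_apply']
    have hc := iter_mem hher (hy.1 m le_rfl) j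
    have h1 := D_Th (Sd^[j] (y m))
    have h2 : ev u (D (Th (Sd^[j] (y m)))) = 0 :=
      ev_D (P := fun l => l.length = m + 1 + 1 ∧ Adm n s l ∧ Close n δ l)
        (fun l hl => huD l (adm_mono (by omega) hl.2.1) hl.2.2) (Th_mem hher hc)
    have h3 : ev u (Th (D (Sd^[j] (y m)))) = 0 := by
      rw [iter_D]
      cases m with
      | zero => rw [hy.2.1, single_zero, iter_zero, map_zero, map_zero]
      | succ m =>
        rw [hy.2.2 m (by omega), iter_th, Th_th]
        refine ev_th (P := Adm n n) (fun l hl => adm_mul hz hl) hu (m + 1) (Sup_mono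
          (fun l hl => adm_mono (by omega) hl.2.1) (Th_mem hher (iter_mem hher
            (hy.1 m (by omega)) j)))
    have h4 : ev u (Sd^[j] (y m)) - ev u (Sd (Sd^[j] (y m))) = 0 := by
      rw [← map_sub, ← h1, map_add, h2, h3, add_zero]
    exact (sub_eq_zero.1 h4).symm
  have hall : ∀ j, ev u (Sd^[j] (y m)) = ev u (y m) := by
    intro j
    induction j with
    | zero => rfl
    | succ j ih => rw [hstep, ih]
  rw [← hall M, hMz]

end Pool.Agent.Lib.P23Z
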