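import Pool.Agent.Lib.P23Z.Action

/-! The cap product with a cocycle of degree `n` on the lists with `P`.
PROOFS. `capl_eq`: induction on k / l (for `l = v :: l'`: l'.length = n + k; k = 0: first branch,
take 1 = [v], drop 0; k = k'+1: third branch, `cone_single`). `cap_mem`: `lin_mem` + `capl_eq`
(`take` is a sublist). `D_cap`: `lin_congr` reduces to one list l of length n+k+2; induction on
l = v :: l' (l'.length = n+k+1): cap l = v * cap l'. D (cap l) = cap l' - v * D (cap l'), and
cap (bd l) = cap l' - cap (v * bd l'). If k > 0 all lists in bd l' have length n+k >= n+1, so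
cap (v * bd l') = v * cap (bd l') = v * D (cap l') by induction. If k = 0: l'.length = n+1,
cap l' = single [head] (u l'), D of it is u l' * [], so v * D (cap l') = single [v] (u l'), and
cap (v * bd l') = single [v] (ev u (v * bd l')) (first branch for every list of bd l', of length
n); now 0 = ev u (bd (v :: l')) = u l' - ev u (v * bd l'). (P passes to l' as a sublist; only
the suffix of length n+2 is used, so induct with the hypothesis on sublists.)
`D_cap_zero`: lists of length n+1: cap = single [head] (u l), bd [v] = single [] 1.
`cap_push`: on one list, induction on the list or `capl_eq`-like cases (lists shorter than n+1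
give 0); u (l.map g) = u l is used for suffixes (sublists) only. `cap_th`: `map_th` with
F = cap n u (Sup P is stable under push g). `ev_cap`: `lin_congr` + `capl_eq`.
`IsSeq.capp`: supports from `cap_mem`; augmentation: `D_cap_zero` at degree n; relation: for
k < m, D (cap (x (n+k+1))) = cap (D (x (n+k+1))) = cap (th g (n+k+1) (x (n+k))) =
th g (n+k+1) (cap ...), and th g (n+k+1) = th g (k+1) since n is even. -/

namespace Pool.Agent.Lib.P23Z

open Finsupp

variable {p : ℕ} {V : Type*}

namespace CapAux

theorem cap_single (n : ℕ) (u : List V → ZMod p) (l : List V) :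
    cap n u (single l 1 : Ch p V) = capl n u l := by
  simp [cap]

theorem capl_nil (n : ℕ) (u : List V → ZMod p) : capl n u ([] : List V) = 0 := rfl

theorem capl_eq_len {n : ℕ} (u : List V → ZMod p) (v : V) {l : List V} (h : l.length = n) :
    capl n u (v :: l) = single [v] (u (v :: l)) := by
  rw [capl, if_pos h]

theorem capl_lt_len {n : ℕ} (u : List V → ZMod p) (v : V) {l : List V} (h : l.length < n) :
    capl n u (v :: l) = 0 := by
  rw [capl, if_neg h.ne, if_pos h]

theorem capl_gt_len {n : ℕ} (u : List V → ZMod p) (v : V) {l : List V} (h : n < l.length) :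
    capl n u (v :: l) = cone v (capl n u l) := by
  rw [capl, if_neg h.ne', if_neg (by omega)]

theorem cap_cone {n : ℕ} (u : List V → ZMod p) (v : V) {c : Ch p V}
    (hc : c ∈ Sup p (fun l => n < l.length)) : cap n u (cone v c) = cone v (cap n u c) := by
  have h := lin_congr (F := (cap n u).comp (cone v)) (F' := (cone v).comp (cap n u))
    (P := fun l => n < l.length) ?_ hc
  · exact h
  · intro l hl
    rw [LinearMap.comp_apply, LinearMap.comp_apply, cone_single, cap_single, cap_single,
      capl_gt_len u v hl]

theorem cap_cone_eq {n : ℕ} (u : List V → ZMod p) (v : V) {c : Ch p V}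
    (hc : c ∈ Sup p (fun l => l.length = n)) :
    cap n u (cone v c) = single [v] (ev u (cone v c)) := by
  have h := lin_congr (F := (cap n u).comp (cone v))
    (F' := (Finsupp.lsingle [v]).comp ((ev u).comp (cone v)))
    (P := fun l => l.length = n) ?_ hc
  · exact h
  · intro l hl
    rw [LinearMap.comp_apply, LinearMap.comp_apply, LinearMap.comp_apply, cone_single, cap_single,
      capl_eq_len u v hl, ev_single, one_mul, Finsupp.lsingle_apply]

theorem bd_one (v : V) : bd p [v] = single [] 1 := by
  rw [bd, bd, map_zero, sub_zero]

theorem D_capl {P : List V → Prop} (hP : ∀ l l' : List V, P l → l'.Sublist l → P l') (n : ℕ)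
    {u : List V → ZMod p} (hu : ∀ l, P l → l.length = n + 2 → ev u (bd p l) = 0) (k : ℕ) :
    ∀ l : List V, l.length = n + k + 2 → P l → D (capl n u l) = cap n u (bd p l) := by
  induction k with
  | zero =>
    intro l hl hPl
    cases l with
    | nil => simp at hl
    | cons v l' =>
      have hl' : l'.length = n + 1 := by simpa using hl
      have h0 := hu _ hPl hl
      rw [capl_gt_len u v (by omega), D_cone, bd, map_sub, cap_single]
      congr 1
      have hbd : bd p l' ∈ Sup p (fun l => l.length = n) :=
        Sup_mono (fun l h => by have := h.1; omega) (bd_mem l')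
      rw [cap_cone_eq u v hbd]
      rw [bd, map_sub, ev_single, one_mul, sub_eq_zero] at h0
      rw [← h0]
      cases l' with
      | nil => simp at hl'
      | cons w l'' =>
        have hl'' : l''.length = n := by simpa using hl'
        rw [capl_eq_len u w hl'', D_single, bd_one, map_smul, cone_single, smul_single, smul_eq_mul,
          mul_one]
  | succ k ih =>
    intro l hl hPl
    cases l with
    | nil => simp at hl
    | cons v l' =>
      have hl' : l'.length = n + k + 2 := by
        rw [List.length_cons] at hl
        omega
      have hbd : bd p l' ∈ Sup p (fun l => n < l.length) :=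
        Sup_mono (fun l h => by have := h.1; omega) (bd_mem l')
      rw [capl_gt_len u v (by omega), D_cone, bd, map_sub, cap_single, cap_cone u v hbd,
        ih l' hl' (hP _ _ hPl (List.sublist_cons_self v l'))]

theorem capl_map {g : V → V} {P : List V → Prop}
    (hP : ∀ l l' : List V, P l → l'.Sublist l → P l')
    (n : ℕ) {u : List V → ZMod p} (hu : ∀ l, P l → u (l.map g) = u l) :
    ∀ l, P l → capl n u (l.map g) = push g (capl n u l) := by
  intro l
  induction l with
  | nil =>
    intro _
    rw [List.map_nil, capl_nil, map_zero]
  | cons v l ih =>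
    intro hPl
    rcases lt_trichotomy l.length n with h | h | h
    · rw [List.map_cons, capl_lt_len u _ (by rw [List.length_map]; exact h), capl_lt_len u v h,
        map_zero]
    · have h1 := hu _ hPl
      rw [List.map_cons] at h1 ⊢
      rw [capl_eq_len u _ (by rw [List.length_map]; exact h), capl_eq_len u v h, push_single, h1,
        List.map_cons, List.map_nil]
    · rw [List.map_cons, capl_gt_len u _ (by rw [List.length_map]; exact h), capl_gt_len u v h,
        push_cone, ih (hP _ _ hPl (List.sublist_cons_self v l))]

theorem th_even {n : ℕ} (hn : Even n) (g : V → V) (k : ℕ) :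
    (th g (n + k) : Ch p V →ₗ[ZMod p] Ch p V) = th g k := by
  unfold th
  have h : Even (n + k) ↔ Even k := by
    rw [Nat.even_add]
    simp [hn]
  by_cases hk : Even k
  · rw [if_pos hk, if_pos (h.2 hk)]
  · rw [if_neg hk, if_neg (fun h' => hk (h.1 h'))]

end CapAux

open CapAux

/-- Closed formula: front face kept, cochain evaluated on the back face. -/
theorem capl_eq (n k : ℕ) (u : List V → ZMod p) (l : List V) (hl : l.length = n + k + 1) :
    capl n u l = single (l.take (k + 1)) (u (l.drop k)) := by
  induction k generalizing l with
  | zero =>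
    cases l with
    | nil => simp at hl
    | cons v l =>
      rw [capl_eq_len u v (by simpa using hl)]
      simp
  | succ k ih =>
    cases l with
    | nil => simp at hl
    | cons v l =>
      have hl' : l.length = n + k + 1 := by
        rw [List.length_cons] at hl
        omega
      rw [capl_gt_len u v (by omega), ih l hl', cone_single]
      simp

theorem cap_mem {P : List V → Prop} (hP : ∀ l l' : List V, P l → l'.Sublist l → P l') (n k : ℕ)
    (u : List V → ZMod p) {c : Ch p V} (hc : c ∈ Sup p (fun l => l.length = n + k + 1 ∧ P l)) :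
    cap n u c ∈ Sup p (fun l => l.length = k + 1 ∧ P l) := by
  refine lin_mem _ _ _ ?_ hc
  rintro l ⟨hl, hPl⟩
  rw [cap_single, capl_eq n k u l hl]
  refine single_mem ⟨?_, hP _ _ hPl (List.take_sublist _ _)⟩ _
  rw [List.length_take]
  omega

/-- The cap product with a closed cochain is a chain map (in positive degrees). -/
theorem D_cap {P : List V → Prop} (hP : ∀ l l' : List V, P l → l'.Sublist l → P l') (n k : ℕ)
    {u : List V → ZMod p} (hu : ∀ l, P l → l.length = n + 2 → ev u (bd p l) = 0)
    {c : Ch p V} (hc : c ∈ Sup p (fun l => l.length = n + k + 2 ∧ P l)) :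
    D (cap n u c) = cap n u (D c) := by
  have h := lin_congr (F := D.comp (cap n u)) (F' := (cap n u).comp D)
    (P := fun l => l.length = n + k + 2 ∧ P l) ?_ hc
  · exact h
  · rintro l ⟨hl, hPl⟩
    rw [LinearMap.comp_apply, LinearMap.comp_apply, cap_single, D_single, one_smul]
    exact D_capl hP n hu k l hl hPl

theorem D_cap_zero {P : List V → Prop} (n : ℕ) (u : List V → ZMod p)
    {c : Ch p V} (hc : c ∈ Sup p (fun l => l.length = n + 1 ∧ P l)) :
    D (cap n u c) = single [] (ev u c) := by
  have h := lin_congr (F := D.comp (cap n u))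
    (F' := (Finsupp.lsingle ([] : List V)).comp (ev u))
    (P := fun l => l.length = n + 1 ∧ P l) ?_ hc
  · exact h
  · rintro l ⟨hl, -⟩
    rw [LinearMap.comp_apply, LinearMap.comp_apply, cap_single, ev_single, one_mul,
      Finsupp.lsingle_apply]
    cases l with
    | nil => simp at hl
    | cons v l =>
      rw [capl_eq_len u v (by simpa using hl), D_single, bd_one, smul_single, smul_eq_mul, mul_one]

theorem cap_push {g : V → V} {P : List V → Prop}
    (hP : ∀ l l' : List V, P l → l'.Sublist l → P l')
    (n : ℕ) {u : List V → ZMod p} (hu : ∀ l, P l → u (l.map g) = u l)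
    {c : Ch p V} (hc : c ∈ Sup p P) : cap n u (push g c) = push g (cap n u c) := by
  have h := lin_congr (F := (cap n u).comp (push g)) (F' := (push g).comp (cap n u))
    (P := P) ?_ hc
  · exact h
  · intro l hPl
    rw [LinearMap.comp_apply, LinearMap.comp_apply, push_single, cap_single, cap_single]
    exact capl_map hP n hu l hPl

theorem cap_th {g : V → V} {P : List V → Prop}
    (hP : ∀ l l' : List V, P l → l'.Sublist l → P l') (hPg : ∀ l, P l → P (l.map g))
    (n k : ℕ) {u : List V → ZMod p} (hu : ∀ l, P l → u (l.map g) = u l)
    {c : Ch p V} (hc : c ∈ Sup p P) : cap n u (th g k c) = th g k (cap n u c) :=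
  map_th hPg (cap n u) (fun _ hc' => cap_push hP n hu hc') k hc

theorem ev_cap (n k : ℕ) (u v : List V → ZMod p) {P : List V → Prop}
    {c : Ch p V} (hc : c ∈ Sup p (fun l => l.length = n + k + 1 ∧ P l)) :
    ev v (cap n u c) = ev (fun l => u (l.drop k) * v (l.take (k + 1))) c := by
  have h := lin_congr (F := (ev v).comp (cap n u))
    (F' := ev (fun l => u (l.drop k) * v (l.take (k + 1))))
    (P := fun l => l.length = n + k + 1 ∧ P l) ?_ hc
  · exact h
  · rintro l ⟨hl, -⟩
    rw [LinearMap.comp_apply, cap_single, capl_eq n k u l hl, ev_single, ev_single, one_mul]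

/-- Capping a sequence with a closed invariant cochain of even degree. -/
theorem IsSeq.capp {g : V → V} {P : List V → Prop}
    (hP : ∀ l l' : List V, P l → l'.Sublist l → P l') (hPg : ∀ l, P l → P (l.map g))
    {n m : ℕ} (hn : Even n) {b : ZMod p} {x : ℕ → Ch p V} (h : IsSeq g P (n + m) b x)
    {u : List V → ZMod p} (hu : ∀ l, P l → u (l.map g) = u l)
    (huD : ∀ l, P l → l.length = n + 2 → ev u (bd p l) = 0) :
    IsSeq g P m (ev u (x n)) (fun k => cap n u (x (n + k))) := by
  obtain ⟨h1, -, h3⟩ := h
  refine ⟨fun k hk => cap_mem hP n k u (h1 (n + k) (by omega)), ?_, fun k hk => ?_⟩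
  · exact D_cap_zero n u (h1 n (by omega))
  · have h4 := h1 (n + (k + 1)) (by omega)
    have h5 := h3 (n + k) (by omega)
    show D (cap n u (x (n + (k + 1)))) = th g (k + 1) (cap n u (x (n + k)))
    rw [D_cap hP n k huD h4]
    have h6 : n + (k + 1) = n + k + 1 := rfl
    rw [h6, h5, cap_th hP hPg n (n + k + 1) hu (Sup_mono (fun l hl => hl.2) (h1 (n + k) (by omega))),
      ← h6, th_even hn]

end Pool.Agent.Lib.P23Z
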