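import Pool.Agent.Lib.P23Z.Defs

/-! Basic facts on chains of lists.
PROOFS. Everything is linear: use `Finsupp.induction_linear` / `Finsupp.lhom_ext'` or `LinearMap`
extensionality to reduce to `single l 1`. `D_cone` is the definition of `bd` (`D_single`,
`cone_single`). `D_D`: on `single l 1` by induction on `l` with `D_cone`: D (l - v * bd l) =
bd l - (bd l - v * D (bd l)) = v * D(bd l) = 0. `D_nil`: bd [] = 0. `D_push` on `single l 1` by
induction on `l`. `lin_mem`: `Finsupp.supported` is the span of the singles
(`Finsupp.supported_eq_span_single`), or c = sum over the support. `bd_mem`: induction on the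
list. `ev_*`, `lin_congr`: from `lin_mem` with S = bot (apply to F - F') or directly. -/

namespace Pool.Agent.Lib.P23Z

open Finsupp

variable {p : ℕ} {V V' : Type*}

theorem cone_single (v : V) (l : List V) (a : ZMod p) :
    cone v (single l a : Ch p V) = single (v :: l) a := by
  simp [cone]

theorem push_single (φ : V → V') (l : List V) (a : ZMod p) :
    push φ (single l a : Ch p V) = single (l.map φ) a := by
  simp [push]

theorem ev_single (u : List V → ZMod p) (l : List V) (a : ZMod p) :
    ev u (single l a) = a * u l := by
  simp [ev]

theorem D_single (l : List V) (a : ZMod p) : D (single l a : Ch p V) = a • bd p l := by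
  simp [D]

theorem D_cone (v : V) (c : Ch p V) : D (cone v c) = c - cone v (D c) := by
  induction c using Finsupp.induction_linear with
  | zero => simp
  | add f g hf hg =>
    rw [map_add, map_add, map_add, hf, hg, map_add]
    abel
  | single l a =>
    rw [cone_single, D_single, D_single, bd, smul_sub, map_smul, smul_single, smul_eq_mul, mul_one]

theorem ChainAux.D_bd (l : List V) : D (bd p l) = 0 := by
  induction l with
  | nil => rw [bd, map_zero]
  | cons v l ih =>
    rw [bd, map_sub, D_single, one_smul, D_cone, ih, map_zero, sub_zero, sub_self]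

theorem D_D (c : Ch p V) : D (D c) = 0 := by
  induction c using Finsupp.induction_linear with
  | zero => simp
  | add f g hf hg => rw [map_add, map_add, hf, hg, add_zero]
  | single l a => rw [D_single, map_smul, ChainAux.D_bd, smul_zero]

theorem D_nil (a : ZMod p) : D (single [] a : Ch p V) = 0 := by
  rw [D_single, bd, smul_zero]

theorem push_cone (φ : V → V') (v : V) (c : Ch p V) :
    push φ (cone v c) = cone (φ v) (push φ c) := by
  induction c using Finsupp.induction_linear with
  | zero => simp
  | add f g hf hg => rw [map_add, map_add, map_add, hf, hg, map_add]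
  | single l a => rw [cone_single, push_single, push_single, cone_single, List.map_cons]

theorem ChainAux.bd_map (φ : V → V') (l : List V) : bd p (l.map φ) = push φ (bd p l) := by
  induction l with
  | nil => rw [List.map_nil, bd, bd, map_zero]
  | cons v l ih =>
    rw [List.map_cons, bd, bd, map_sub, push_single, push_cone, ih]

theorem D_push (φ : V → V') (c : Ch p V) : D (push φ c) = push φ (D c) := by
  induction c using Finsupp.induction_linear with
  | zero => simp
  | add f g hf hg => rw [map_add, map_add, map_add, hf, hg, map_add]
  | single l a => rw [push_single, D_single, D_single, map_smul, ChainAux.bd_map]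

theorem push_push {V'' : Type*} (φ : V → V') (ψ : V' → V'') (c : Ch p V) :
    push ψ (push φ c) = push (ψ ∘ φ) c := by
  induction c using Finsupp.induction_linear with
  | zero => simp
  | add f g hf hg => rw [map_add, map_add, map_add, hf, hg]
  | single l a => rw [push_single, push_single, push_single, List.map_map]

theorem push_id (c : Ch p V) : push id c = c := by
  induction c using Finsupp.induction_linear with
  | zero => simp
  | add f g hf hg => rw [map_add, hf, hg]
  | single l a => rw [push_single, List.map_id]

/-- Membership can be checked on single lists. -/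
theorem lin_mem {M : Type*} [AddCommGroup M] [Module (ZMod p) M] (F : Ch p V →ₗ[ZMod p] M)
    (S : Submodule (ZMod p) M) (P : List V → Prop) (h : ∀ l, P l → F (single l 1) ∈ S)
    {c : Ch p V} (hc : c ∈ Sup p P) : F c ∈ S := by
  have h1 : F c = ∑ l ∈ c.support, c l • F (single l 1) := by
    conv_lhs => rw [← Finsupp.sum_single c]
    rw [Finsupp.sum, map_sum]
    refine Finset.sum_congr rfl fun l _ => ?_
    rw [← map_smul, smul_single, smul_eq_mul, mul_one]
  rw [h1]
  exact S.sum_mem fun l hl => S.smul_mem _ (h l ((Finsupp.mem_supported _ _).1 hc hl))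

theorem single_mem {P : List V → Prop} {l : List V} (h : P l) (a : ZMod p) :
    (single l a : Ch p V) ∈ Sup p P :=
  Finsupp.single_mem_supported (ZMod p) a h

theorem Sup_mono {P Q : List V → Prop} (h : ∀ l, P l → Q l) {c : Ch p V} (hc : c ∈ Sup p P) :
    c ∈ Sup p Q :=
  Finsupp.supported_mono (fun l hl => h l hl) hc

theorem cone_mem {P Q : List V → Prop} (v : V) (h : ∀ l, P l → Q (v :: l)) {c : Ch p V}
    (hc : c ∈ Sup p P) : cone v c ∈ Sup p Q := by
  refine lin_mem (cone v) (Sup p Q) P (fun l hl => ?_) hc
  rw [cone_single]
  exact single_mem (h l hl) 1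

theorem push_mem {P : List V → Prop} {Q : List V' → Prop} (φ : V → V')
    (h : ∀ l, P l → Q (l.map φ)) {c : Ch p V} (hc : c ∈ Sup p P) : push φ c ∈ Sup p Q := by
  refine lin_mem (push φ) (Sup p Q) P (fun l hl => ?_) hc
  rw [push_single]
  exact single_mem (h l hl) 1

/-- All lists in the boundary of `l` are sublists of `l` of length one less. -/
theorem bd_mem (l : List V) :
    bd p l ∈ Sup p (fun l' => l'.length + 1 = l.length ∧ l'.Sublist l) := by
  induction l with
  | nil => rw [bd]; exact Submodule.zero_mem _
  | cons v l ih =>
    rw [bd]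
    refine Submodule.sub_mem _ ?_ ?_
    · exact single_mem ⟨rfl, List.sublist_cons_self v l⟩ 1
    · refine cone_mem v (fun l' hl' => ?_) ih
      refine ⟨?_, hl'.2.cons_cons v⟩
      rw [List.length_cons, List.length_cons, hl'.1]

theorem D_mem {P : List V → Prop} (hP : ∀ l l' : List V, P l → l'.Sublist l → P l') {k : ℕ}
    {c : Ch p V} (hc : c ∈ Sup p (fun l => l.length = k + 1 ∧ P l)) :
    D c ∈ Sup p (fun l => l.length = k ∧ P l) := by
  refine lin_mem D _ _ (fun l hl => ?_) hc
  rw [D_single, one_smul]
  refine Sup_mono (fun l' hl' => ⟨?_, hP l l' hl.2 hl'.2⟩) (bd_mem l)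
  have h1 := hl'.1
  rw [hl.1] at h1
  omega

/-- A linear map which agrees with another one on the lists with `P` agrees on `Sup P`. -/
theorem lin_congr {M : Type*} [AddCommGroup M] [Module (ZMod p) M] {F F' : Ch p V →ₗ[ZMod p] M}
    {P : List V → Prop} (h : ∀ l, P l → F (single l 1) = F' (single l 1))
    {c : Ch p V} (hc : c ∈ Sup p P) : F c = F' c := by
  have h1 := lin_mem (F - F') ⊥ P (fun l hl => by
    rw [LinearMap.sub_apply, h l hl, sub_self]
    exact Submodule.zero_mem _) hc
  rw [Submodule.mem_bot, LinearMap.sub_apply, sub_eq_zero] at h1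
  exact h1

theorem ev_congr {P : List V → Prop} {u u' : List V → ZMod p} (h : ∀ l, P l → u l = u' l)
    {c : Ch p V} (hc : c ∈ Sup p P) : ev u c = ev u' c := by
  refine lin_congr (fun l hl => ?_) hc
  rw [ev_single, ev_single, h l hl]

theorem ev_eq_zero {P : List V → Prop} {u : List V → ZMod p} (h : ∀ l, P l → u l = 0)
    {c : Ch p V} (hc : c ∈ Sup p P) : ev u c = 0 := by
  have h1 := lin_mem (ev u) ⊥ P (fun l hl => by
    rw [ev_single, h l hl, mul_zero]
    exact Submodule.zero_mem _) hc
  rwa [Submodule.mem_bot] at h1

theorem ev_push (φ : V → V') (u : List V' → ZMod p) (c : Ch p V) :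
    ev u (push φ c) = ev (fun l => u (l.map φ)) c := by
  induction c using Finsupp.induction_linear with
  | zero => simp
  | add f g hf hg => rw [map_add, map_add, hf, hg, map_add]
  | single l a => rw [push_single, ev_single, ev_single]

theorem ev_add (u u' : List V → ZMod p) (c : Ch p V) :
    ev (fun l => u l + u' l) c = ev u c + ev u' c := by
  induction c using Finsupp.induction_linear with
  | zero => simp
  | add f g hf hg =>
    rw [map_add, hf, hg, map_add, map_add]
    abel
  | single l a => rw [ev_single, ev_single, ev_single, mul_add]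

end Pool.Agent.Lib.P23Z
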