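import Pool.Agent.Lib.P23Z.Defs

/-! Compactness of the sphere `K n`.
PROOFS. K is closed (continuous function) and bounded (‖w i‖ ≤ 1, max norm) in a proper space.
`exists_gap`: F w = sum over a < 2, j < p of |f(I^a ζ^j w) - f w| is continuous and positive on
the compact K; if K is empty take η = 1; otherwise F ≥ m > 0 and some term is ≥ m / (2p) =: η;
choose the order of the two indices (0,0) and (a,j) according to the sign. `exists_unif`:
f is uniformly continuous on K (`IsCompact.uniformContinuousOn_of_continuous`), z w, z w' are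
in K and dist (z w) (z w') = dist w w'. -/

namespace Pool.Agent.Lib.P23Z

theorem isCompact_K (n : ℕ) : IsCompact (K n) := by
  apply Metric.isCompact_of_isClosed_isBounded
  · exact isClosed_eq (by fun_prop) continuous_const
  · refine (Metric.isBounded_closedBall (x := (0 : W n)) (r := 1)).subset ?_
    intro w hw
    have hw' : ∑ i, ‖w i‖ = 1 := hw
    rw [Metric.mem_closedBall, dist_zero_right, pi_norm_le_iff_of_nonneg zero_le_one]
    intro i
    rw [← hw']
    exact Finset.single_le_sum (f := fun i => ‖w i‖) (fun i _ => norm_nonneg _)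
      (Finset.mem_univ i)

theorem K_ne_zero {n : ℕ} {w : W n} (hw : w ∈ K n) : w ≠ 0 := by
  rintro rfl
  have h : ∑ i : Fin n, ‖(0 : W n) i‖ = 1 := hw
  simp at h

theorem mul_mem_K {n : ℕ} {z : ℂ} (hz : ‖z‖ = 1) {w : W n} (hw : w ∈ K n) :
    mul n z w ∈ K n := by
  have hw' : ∑ i, ‖w i‖ = 1 := hw
  change ∑ i, ‖(z • w) i‖ = 1
  simpa [norm_mul, hz] using hw'

/-- A quantitative form of: no point of `K` is constant on its orbit. -/
theorem exists_gap {p n : ℕ} (hp : 0 < p) {ζ : ℂ} (hζ : ‖ζ‖ = 1) {f : W n → ℝ}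
    (hf : Continuous f)
    (hno : ∀ w ∈ K n, ∃ a : ℕ, a < 2 ∧ ∃ j : ℕ, j < p ∧
      f (mul n (Complex.I ^ a * ζ ^ j) w) ≠ f w) :
    ∃ η : ℝ, 0 < η ∧ ∀ w ∈ K n, ∃ a a' j j' : ℕ, a < 2 ∧ a' < 2 ∧ j < p ∧ j' < p ∧
      η ≤ f (mul n (Complex.I ^ a * ζ ^ j) w) - f (mul n (Complex.I ^ a' * ζ ^ j') w) := by
  have hI : ∀ a j : ℕ, ‖(Complex.I ^ a * ζ ^ j : ℂ)‖ = 1 := by
    intro a j
    simp [norm_mul, norm_pow, hζ]
  rcases (K n).eq_empty_or_nonempty with hK | hK
  · refine ⟨1, one_pos, fun w hw => ?_⟩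
    rw [hK] at hw
    exact absurd hw (Set.notMem_empty _)
  · set F : W n → ℝ := fun w => ∑ q ∈ Finset.range 2 ×ˢ Finset.range p,
      |f (mul n (Complex.I ^ q.1 * ζ ^ q.2) w) - f w| with hF
    have hFc : Continuous F := by
      rw [hF]
      refine continuous_finset_sum _ (fun q _ => ?_)
      refine ((hf.comp ?_).sub hf).abs
      exact continuous_const_smul _
    obtain ⟨w₀, hw₀, hmin⟩ := (isCompact_K n).exists_isMinOn hK hFc.continuousOn
    have hpos : 0 < F w₀ := by
      obtain ⟨a, ha, j, hj, hne⟩ := hno w₀ hw₀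
      have h1 : 0 < |f (mul n (Complex.I ^ a * ζ ^ j) w₀) - f w₀| :=
        abs_pos.2 (sub_ne_zero.2 hne)
      refine lt_of_lt_of_le h1 ?_
      exact Finset.single_le_sum
        (f := fun q : ℕ × ℕ => |f (mul n (Complex.I ^ q.1 * ζ ^ q.2) w₀) - f w₀|)
        (fun q _ => abs_nonneg _)
        (Finset.mem_product.2 ⟨Finset.mem_range.2 ha, Finset.mem_range.2 hj⟩ :
          ((a, j) : ℕ × ℕ) ∈ Finset.range 2 ×ˢ Finset.range p)
    have hp' : (0 : ℝ) < 2 * p := by
      have : (0 : ℝ) < p := by exact_mod_cast hp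
      linarith
    refine ⟨F w₀ / (2 * p), div_pos hpos hp', fun w hw => ?_⟩
    have hle : F w₀ ≤ F w := hmin hw
    have hex : ∃ q ∈ Finset.range 2 ×ˢ Finset.range p,
        F w₀ / (2 * p) ≤ |f (mul n (Complex.I ^ q.1 * ζ ^ q.2) w) - f w| := by
      by_contra hcon
      push Not at hcon
      have h2 : F w < ∑ _q ∈ Finset.range 2 ×ˢ Finset.range p, F w₀ / (2 * p) :=
        Finset.sum_lt_sum_of_nonempty
          (Finset.Nonempty.product (by simp) (by simpa using hp.ne')) hcon
      rw [Finset.sum_const, Finset.card_product, Finset.card_range, Finset.card_range,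
        nsmul_eq_mul] at h2
      have h3 : ((2 * p : ℕ) : ℝ) * (F w₀ / (2 * p)) = F w₀ := by
        push_cast
        field_simp
      rw [h3] at h2
      exact absurd hle (not_le.2 h2)
    obtain ⟨⟨a, j⟩, hq, hq'⟩ := hex
    rw [Finset.mem_product, Finset.mem_range, Finset.mem_range] at hq
    have h0 : mul n (Complex.I ^ 0 * ζ ^ 0) w = w := by
      simp [mul]
    rcases le_total 0 (f (mul n (Complex.I ^ a * ζ ^ j) w) - f w) with hs | hs
    · refine ⟨a, 0, j, 0, hq.1, by norm_num, hq.2, hp, ?_⟩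
      rw [h0]
      simpa [abs_of_nonneg hs] using hq'
    · refine ⟨0, a, 0, j, by norm_num, hq.1, hp, hq.2, ?_⟩
      rw [h0]
      have := hq'
      simp only [abs_of_nonpos hs] at this
      linarith

/-- Uniform continuity, uniformly in unimodular factors. -/
theorem exists_unif {n : ℕ} {f : W n → ℝ} (hf : Continuous f) {ε : ℝ} (hε : 0 < ε) :
    ∃ δ : ℝ, 0 < δ ∧ ∀ w ∈ K n, ∀ w' ∈ K n, dist w w' ≤ δ → ∀ z : ℂ, ‖z‖ = 1 →
      |f (mul n z w) - f (mul n z w')| ≤ ε := by
  have hu := (isCompact_K n).uniformContinuousOn_of_continuous hf.continuousOn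
  rw [Metric.uniformContinuousOn_iff_le] at hu
  obtain ⟨δ, hδ, h⟩ := hu ε hε
  refine ⟨δ, hδ, fun w hw w' hw' hd z hz => ?_⟩
  have h1 : dist (mul n z w) (mul n z w') = dist w w' := by
    change dist (z • w) (z • w') = dist w w'
    rw [dist_eq_norm, ← smul_sub, norm_smul, hz, one_mul, dist_eq_norm]
  have h2 := h _ (mul_mem_K hz hw) _ (mul_mem_K hz hw') (by rw [h1]; exact hd)
  rwa [Real.dist_eq] at h2

end Pool.Agent.Lib.P23Z
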