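import Mathlib

/-!
Chains of lists over `ZMod p` (augmented: the empty list sits in degree `-1`), the boundary,
cones, push-forward, the norm `N` and `g - 1`, the cap product with a cochain,
barycentric subdivision, the resolution-type sequences and admissible lists.
-/

namespace Pool.Agent.Lib.P23Z

open Finsupp

/-- Chains: formal combinations of lists of points. -/
abbrev Ch (p : ℕ) (V : Type*) := List V →₀ ZMod p

section generic

variable {p : ℕ} {V V' : Type*}

/-- Cone: put the vertex `v` in front. -/
noncomputable def cone (v : V) : Ch p V →ₗ[ZMod p] Ch p V :=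
  Finsupp.lmapDomain (ZMod p) (ZMod p) (List.cons v)

/-- Push-forward along a map of points. -/
noncomputable def push (φ : V → V') : Ch p V →ₗ[ZMod p] Ch p V' :=
  Finsupp.lmapDomain (ZMod p) (ZMod p) (List.map φ)

/-- Evaluation of a cochain. -/
noncomputable def ev (u : List V → ZMod p) : Ch p V →ₗ[ZMod p] ZMod p :=
  Finsupp.linearCombination (ZMod p) u

/-- The boundary of one list. -/
noncomputable def bd (p : ℕ) {V : Type*} : List V → Ch p V
  | [] => 0
  | (v :: l) => Finsupp.single l 1 - cone v (bd p l)

/-- The (augmented) boundary. -/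
noncomputable def D : Ch p V →ₗ[ZMod p] Ch p V :=
  Finsupp.linearCombination (ZMod p) (bd p)

/-- Chains all of whose lists satisfy `P`. -/
noncomputable def Sup (p : ℕ) (P : List V → Prop) : Submodule (ZMod p) (Ch p V) :=
  Finsupp.supported (ZMod p) (ZMod p) {l | P l}

/-- The norm of the action of the powers of `g`. -/
noncomputable def Nm (g : V → V) : Ch p V →ₗ[ZMod p] Ch p V :=
  ∑ j ∈ Finset.range p, (push g) ^ j

/-- The differential of the resolution: the norm in even degrees, `g - 1` in odd degrees. -/
noncomputable def th (g : V → V) (k : ℕ) : Ch p V →ₗ[ZMod p] Ch p V :=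
  if Even k then Nm g else push g - LinearMap.id

/-- `x 0, ..., x m` with `x k` in degree `k`, supported in `P`, augmentation `b` and
`D (x (k+1)) = (g - 1) (x k)` for `k` even, `= N (x k)` for `k` odd. -/
def IsSeq (g : V → V) (P : List V → Prop) (m : ℕ) (b : ZMod p) (x : ℕ → Ch p V) : Prop :=
  (∀ k ≤ m, x k ∈ Sup p (fun l => l.length = k + 1 ∧ P l)) ∧
  D (x 0) = Finsupp.single [] b ∧
  ∀ k < m, D (x (k + 1)) = th g (k + 1) (x k)

/-- Cap product of one list with the cochain `u` of degree `n` (front face kept). -/
noncomputable def capl (n : ℕ) (u : List V → ZMod p) : List V → Ch p V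
  | [] => 0
  | (v :: l) =>
      if l.length = n then Finsupp.single [v] (u (v :: l))
      else if l.length < n then 0 else cone v (capl n u l)

/-- Cap product with a cochain `u` of degree `n`. -/
noncomputable def cap (n : ℕ) (u : List V → ZMod p) : Ch p V →ₗ[ZMod p] Ch p V :=
  Finsupp.linearCombination (ZMod p) (capl n u)

end generic

section affine

variable {p : ℕ} {E : Type*} [AddCommGroup E] [Module ℝ E]

/-- Barycenter of a list. -/
noncomputable def bary (l : List E) : E := ((l.length : ℝ)⁻¹) • l.sum

/-- Barycentric subdivision of one list (first argument: fuel = length). -/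
noncomputable def sdl (p : ℕ) {E : Type*} [AddCommGroup E] [Module ℝ E] : ℕ → List E → Ch p E
  | 0, l => Finsupp.single l 1
  | (n + 1), l => cone (bary l) (Finsupp.linearCombination (ZMod p) (sdl p n) (bd p l))

/-- Barycentric subdivision. -/
noncomputable def Sd : Ch p E →ₗ[ZMod p] Ch p E :=
  Finsupp.linearCombination (ZMod p) (fun l => sdl p l.length l)

/-- The homotopy from the identity to the subdivision, for one list (fuel = length). -/
noncomputable def tl (p : ℕ) {E : Type*} [AddCommGroup E] [Module ℝ E] : ℕ → List E → Ch p E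
  | 0, _ => 0
  | (n + 1), l =>
      cone (bary l) (Finsupp.single l 1 - sdl p (n + 1) l -
        Finsupp.linearCombination (ZMod p) (tl p n) (bd p l))

/-- The homotopy from the identity to the subdivision. -/
noncomputable def Th : Ch p E →ₗ[ZMod p] Ch p E :=
  Finsupp.linearCombination (ZMod p) (fun l => tl p l.length l)

end affine

section space

/-- The space `ℂ^n` with the maximum norm. -/
abbrev W (n : ℕ) := Fin n → ℂ

/-- The sphere of the sum norm. -/
def K (n : ℕ) : Set (W n) := {w | ∑ i, ‖w i‖ = 1}

/-- Standard vectors, indexed by natural numbers. -/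
noncomputable def vec (n k : ℕ) : W n := fun i => if i.val = k then 1 else 0

/-- Admissible lists: all points lie in the convex hull of `c_i e_i`, `i < s`, for one choice
of unimodular `c`. -/
def Adm (n s : ℕ) (l : List (W n)) : Prop :=
  ∃ c : Fin n → ℂ, (∀ i, ‖c i‖ = 1) ∧ ∀ w ∈ l, ∃ t : Fin n → ℝ,
    (∀ i, 0 ≤ t i) ∧ (∀ i, s ≤ i.val → t i = 0) ∧ ∑ i, t i = 1 ∧ ∀ i, w i = t i * c i

/-- Lists of points at mutual distance at most `δ`. -/
def Close (n : ℕ) (δ : ℝ) (l : List (W n)) : Prop := ∀ x ∈ l, ∀ y ∈ l, dist x y ≤ δ

/-- Multiplication by a complex number. -/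
def mul (n : ℕ) (z : ℂ) : W n → W n := fun w => z • w

end space

end Pool.Agent.Lib.P23Z
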