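import Pool.Agent.Lib.P23Z.Defs

/-! Equivariant choice of a maximising power.
PROOF. For w let O w = the set of all y with y = ζ^j w or y = -(ζ^j w), j < p, and M w = the set
of y in O w with f y' ≤ f y for all y' in O w (finite, nonempty). O (ζ w) = O w = O (-w), so
M (ζ w) = M w = M (-w) as sets. Let c w := some element of M w chosen from the SET M w
(`Classical.choose` / `Set.Nonempty.some` of a function of the set only), so c (ζ w) = c w =
c (-w). For w ≠ 0 there is exactly one j in ZMod p with c w = ± ζ^(j.val) w (ζ^j = ± ζ^k with ζ of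
odd order p implies j = k: square it); α w := that j (0 if w = 0). Then c w = ± ζ^(α w) w =
± ζ^(α w - 1) (ζ w) gives α (ζ w) = α w - 1, and evenness of f gives the inequality (every
exponent j : ℕ may be reduced mod p). p odd prime. -/

namespace Pool.Agent.Lib.P23Z

namespace LabelAux

/-- The orbit of `w` under the powers of `ζ` and the sign. -/
def O (n : ℕ) (ζ : ℂ) (w : W n) : Set (W n) :=
  {y | ∃ j : ℕ, y = mul n (ζ ^ j) w ∨ y = -(mul n (ζ ^ j) w)}

/-- The maximal points of the orbit. -/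
def Mx (n : ℕ) (ζ : ℂ) (f : W n → ℝ) (w : W n) : Set (W n) :=
  {y | y ∈ O n ζ w ∧ ∀ y' ∈ O n ζ w, f y' ≤ f y}

open Classical in
/-- A choice from a set. -/
noncomputable def pick {n : ℕ} (S : Set (W n)) : W n := if h : S.Nonempty then h.some else 0

theorem pick_mem {n : ℕ} {S : Set (W n)} (h : S.Nonempty) : pick S ∈ S := by
  rw [pick, dif_pos h]
  exact h.some_mem

theorem mul_mul {n : ℕ} (a b : ℂ) (w : W n) : mul n a (mul n b w) = mul n (a * b) w := by
  simp only [mul, smul_smul]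

theorem mul_neg' {n : ℕ} (a : ℂ) (w : W n) : mul n a (-w) = -(mul n a w) := by
  simp only [mul, smul_neg]

theorem pow_red {p : ℕ} [Fact p.Prime] {ζ : ℂ} (hζ : IsPrimitiveRoot ζ p) (j : ℕ) :
    ζ ^ j = ζ ^ ((j : ZMod p)).val := by
  rw [ZMod.val_natCast, ← pow_mod_orderOf ζ j, ← hζ.eq_orderOf]

theorem O_fin {p : ℕ} [Fact p.Prime] {ζ : ℂ} (hζ : IsPrimitiveRoot ζ p) {n : ℕ} (w : W n) :
    (O n ζ w).Finite := by
  refine Set.Finite.subset ((Set.finite_range (fun k : ZMod p => mul n (ζ ^ k.val) w)).union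
    (Set.finite_range (fun k : ZMod p => -(mul n (ζ ^ k.val) w)))) ?_
  rintro y ⟨j, h | h⟩
  · exact Or.inl ⟨(j : ZMod p), by rw [h, pow_red hζ j]⟩
  · exact Or.inr ⟨(j : ZMod p), by rw [h, pow_red hζ j]⟩

theorem Mx_ne {p : ℕ} [Fact p.Prime] {ζ : ℂ} (hζ : IsPrimitiveRoot ζ p) {n : ℕ} (f : W n → ℝ)
    (w : W n) : (Mx n ζ f w).Nonempty := by
  obtain ⟨a, ha, h⟩ := Set.exists_max_image (O n ζ w) f (O_fin hζ w) ⟨_, 0, Or.inl rfl⟩
  exact ⟨a, ha, h⟩

theorem O_neg {n : ℕ} (ζ : ℂ) (w : W n) : O n ζ (-w) = O n ζ w := by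
  have h : ∀ w : W n, O n ζ w ⊆ O n ζ (-w) := by
    rintro w y ⟨j, h | h⟩
    · exact ⟨j, Or.inr (by rw [mul_neg', neg_neg, h])⟩
    · exact ⟨j, Or.inl (by rw [mul_neg', h])⟩
  refine le_antisymm ?_ (h w)
  have := h (-w)
  rwa [neg_neg] at this

theorem O_mul {p : ℕ} [Fact p.Prime] {ζ : ℂ} (hζ : IsPrimitiveRoot ζ p) {n : ℕ} (w : W n) :
    O n ζ (mul n ζ w) = O n ζ w := by
  have hp1 : 1 ≤ p := (Fact.out : p.Prime).one_lt.le
  apply le_antisymm
  · rintro y ⟨j, h | h⟩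
    · exact ⟨j + 1, Or.inl (by rw [h, mul_mul, pow_succ])⟩
    · exact ⟨j + 1, Or.inr (by rw [h, mul_mul, pow_succ])⟩
  · have h1 : ∀ j : ℕ, mul n (ζ ^ (j + (p - 1))) (mul n ζ w) = mul n (ζ ^ j) w := by
      intro j
      rw [mul_mul, ← pow_succ, show j + (p - 1) + 1 = j + p by omega, pow_add, hζ.pow_eq_one,
        mul_one]
    rintro y ⟨j, h | h⟩
    · exact ⟨j + (p - 1), Or.inl (by rw [h1, h])⟩
    · exact ⟨j + (p - 1), Or.inr (by rw [h1, h])⟩

theorem uniq {p : ℕ} [Fact p.Prime] (hp : p ≠ 2) {ζ : ℂ} (hζ : IsPrimitiveRoot ζ p) {n : ℕ}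
    {w : W n} (hw : w ≠ 0) {j k : ℕ}
    (h : mul n (ζ ^ j) w = mul n (ζ ^ k) w ∨ mul n (ζ ^ j) w = -(mul n (ζ ^ k) w)) :
    (j : ZMod p) = k := by
  obtain ⟨i, hi⟩ := Function.ne_iff.1 hw
  rw [Pi.zero_apply] at hi
  have h1 : (ζ ^ j) ^ 2 = (ζ ^ k) ^ 2 := by
    rcases h with h | h
    · have := congrFun h i
      simp only [mul, Pi.smul_apply, smul_eq_mul] at this
      rw [mul_right_cancel₀ hi this]
    · have := congrFun h i
      simp only [mul, Pi.smul_apply, Pi.neg_apply, smul_eq_mul] at this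
      rw [← neg_mul] at this
      rw [mul_right_cancel₀ hi this, neg_sq]
  rw [← pow_mul, ← pow_mul, pow_red hζ (j * 2), pow_red hζ (k * 2)] at h1
  have h3 := ZMod.val_injective p (hζ.pow_inj (ZMod.val_lt _) (ZMod.val_lt _) h1)
  rw [Nat.cast_mul, Nat.cast_mul] at h3
  refine mul_right_cancel₀ ?_ h3
  intro h2
  rw [ZMod.natCast_eq_zero_iff, Nat.prime_dvd_prime_iff_eq Fact.out Nat.prime_two] at h2
  exact hp h2

end LabelAux

open LabelAux

theorem exists_label {p : ℕ} [Fact p.Prime] (hp : p ≠ 2) {n : ℕ} {ζ : ℂ}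
    (hζ : IsPrimitiveRoot ζ p) (f : W n → ℝ) (hf : ∀ w, f (-w) = f w) :
    ∃ α : W n → ZMod p, (∀ w, w ≠ 0 → α (mul n ζ w) = α w - 1) ∧
      (∀ w, w ≠ 0 → α (-w) = α w) ∧
      ∀ w, w ≠ 0 → ∀ j : ℕ, f (mul n (ζ ^ j) w) ≤ f (mul n (ζ ^ (α w).val) w) := by
  set c : W n → W n := fun w => pick (Mx n ζ f w) with hc
  have hcm : ∀ w, c w ∈ Mx n ζ f w := fun w => pick_mem (Mx_ne hζ f w)
  have hc1 : ∀ w, c (mul n ζ w) = c w := by
    intro w
    simp only [hc, Mx, O_mul hζ w]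
  have hc2 : ∀ w, c (-w) = c w := by
    intro w
    simp only [hc, Mx, O_neg ζ w]
  have hex : ∀ w, ∃ k : ZMod p,
      c w = mul n (ζ ^ k.val) w ∨ c w = -(mul n (ζ ^ k.val) w) := by
    intro w
    obtain ⟨j, hj⟩ := (hcm w).1
    exact ⟨(j : ZMod p), by rwa [← pow_red hζ j]⟩
  choose α hα using hex
  have hu : ∀ w : W n, w ≠ 0 → ∀ j : ℕ,
      (c w = mul n (ζ ^ j) w ∨ c w = -(mul n (ζ ^ j) w)) → α w = j := by
    intro w hw j hj
    have h1 : ((α w).val : ZMod p) = (j : ZMod p) := by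
      refine uniq hp hζ hw ?_
      rcases hα w with h | h <;> rcases hj with h' | h'
      · exact Or.inl (h.symm.trans h')
      · exact Or.inr (h.symm.trans h')
      · refine Or.inr ?_
        rw [← h', h, neg_neg]
      · refine Or.inl ?_
        rw [h'] at h
        exact (neg_injective h).symm
    rwa [ZMod.natCast_zmod_val] at h1
  refine ⟨α, fun w hw => ?_, fun w hw => ?_, fun w hw j => ?_⟩
  · have h1 : α w = (((α (mul n ζ w)).val + 1 : ℕ) : ZMod p) := by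
      refine hu w hw _ ?_
      have := hα (mul n ζ w)
      rwa [hc1, mul_mul, ← pow_succ] at this
    rw [h1, Nat.cast_add, Nat.cast_one, ZMod.natCast_zmod_val, add_sub_cancel_right]
  · have h1 : α w = (((α (-w)).val : ℕ) : ZMod p) := by
      refine hu w hw _ ?_
      have := hα (-w)
      rw [hc2, mul_neg', neg_neg] at this
      exact this.symm
    rw [h1, ZMod.natCast_zmod_val]
  · have h1 : f (mul n (ζ ^ j) w) ≤ f (c w) := (hcm w).2 _ ⟨j, Or.inl rfl⟩
    rcases hα w with h | h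
    · rwa [h] at h1
    · rwa [h, hf] at h1

end Pool.Agent.Lib.P23Z
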