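import Pool.Agent.Lib.P23Z.Split
import Pool.Agent.Lib.P23Z.Cap

/-! Even functions on the sphere of `ℂ^n` are constant on an orbit of the 4p-th roots of unity. -/

namespace Pool.Agent.Lib.P23Z

open Finsupp

theorem exists_const {p : ℕ} [Fact p.Prime] (hp : p ≠ 2) {n : ℕ} (hn : 6 * p - 4 ≤ n) {ζ : ℂ}
    (hζ : IsPrimitiveRoot ζ p) {f : W n → ℝ} (hf : Continuous f) (hev : ∀ w, f (-w) = f w) :
    ∃ w ∈ K n, ∀ a : ℕ, a < 2 → ∀ j : ℕ, j < p → f (mul n (Complex.I ^ a * ζ ^ j) w) = f w := by
  classical
  by_contra hcon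
  have hno : ∀ w ∈ K n, ∃ a : ℕ, a < 2 ∧ ∃ j : ℕ, j < p ∧
      f (mul n (Complex.I ^ a * ζ ^ j) w) ≠ f w := by
    intro w hw
    by_contra h
    apply hcon
    refine ⟨w, hw, ?_⟩
    intro a ha j hj
    by_contra h'
    exact h ⟨a, ha, j, hj, h'⟩
  obtain ⟨δ, cc, ea, ep, em, hδ, hcc, haD, hai, hpi, hmi, hatop, hpD, hmD, hsum, hpp, hmm⟩ :=
    exists_split hp hζ hf hev hno
  have hpr : p.Prime := Fact.out
  have hp1 : 1 ≤ p := hpr.one_lt.le
  have hodd : Odd p := hpr.odd_of_ne_two hp
  have hζn : ‖ζ‖ = 1 := hζ.norm'_eq_one hpr.ne_zero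
  have hIn : ‖Complex.I‖ = 1 := by simp
  have hζp : ζ ^ p = 1 := hζ.pow_eq_one
  set q : ℕ := p - 1 with hq
  have hqe : Even q := by
    obtain ⟨r, hr⟩ := hodd
    exact ⟨r, by omega⟩
  -- conditions on lists
  set P : List (W n) → Prop := fun l => Adm n (4 * q + 1) l ∧ Close n δ l with hPdef
  have hsn : 4 * q + 1 ≤ n := by omega
  have hPsub : ∀ l l' : List (W n), P l → l'.Sublist l → P l' :=
    ((her_adm n (4 * q + 1)).and (her_close n δ)).sub
  have hPg : ∀ l, P l → P (l.map (mul n ζ)) := fun l hl => ⟨adm_mul hζn hl.1, close_mul hζn hl.2⟩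
  have hPI : ∀ l, P l → P (l.map (mul n Complex.I)) :=
    fun l hl => ⟨adm_mul hIn hl.1, close_mul hIn hl.2⟩
  have hPn : ∀ l, P l → Adm n n l := fun l hl => adm_mono hsn hl.1
  obtain ⟨X, hX⟩ := exists_fine (p := p) (n := n) (N := 4 * q) (by omega) hζn hζp hδ
  have hX : IsSeq (mul n ζ) P (4 * q) 1 X := hX
  -- the sequence rotated by `I`
  have hcomm : ∀ c : Ch p (W n), push (mul n Complex.I) (push (mul n ζ) c)
      = push (mul n ζ) (push (mul n Complex.I) c) := by
    intro c
    rw [push_push, push_push]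
    have h : mul n Complex.I ∘ mul n ζ = mul n ζ ∘ mul n Complex.I := by
      funext w
      simp only [Function.comp, mul, smul_smul]
      rw [mul_comm]
    rw [h]
  have hrot : ∀ {m : ℕ} {b : ZMod p} {x : ℕ → Ch p (W n)}, IsSeq (mul n ζ) P m b x →
      IsSeq (mul n ζ) P m b (fun k => push (mul n Complex.I) (x k)) := by
    intro m b x hx
    refine hx.map hPg (push (mul n Complex.I)) (fun c _ => hcomm c)
      (fun c => (D_push _ c)) (fun a => by simp [push_single]) ?_
    intro k c hc
    refine push_mem _ ?_ hc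
    intro l hl
    exact ⟨by simpa using hl.1, hPI l hl.2⟩
  -- the value of `ea`
  have hatopP : ∀ (b : ZMod p) (y : ℕ → Ch p (W n)), IsSeq (mul n ζ) P q b y →
      ev ea (y q) = b * cc := fun b y hy => hatop b y (hy.mono le_rfl hPn)
  -- evaluation at the top of the product
  set eb : List (W n) → ZMod p := fun l => ea (l.map (mul n Complex.I)) with hebdef
  have heb_ev : ∀ c : Ch p (W n), ev eb c = ev ea (push (mul n Complex.I) c) := by
    intro c; rw [ev_push]
  have hebi : ∀ l, P l → eb (l.map (mul n ζ)) = eb l := by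
    intro l hl
    have h1 := hai (l.map (mul n Complex.I)) (hPn _ (hPI l hl))
    simp only [hebdef]
    rw [← h1, List.map_map, List.map_map]
    congr 2
    funext w
    simp only [Function.comp, mul, smul_smul]
    rw [mul_comm]
  have hbdpush : ∀ (φ : W n → W n) (l : List (W n)), push φ (bd p l) = bd p (l.map φ) := by
    intro φ l
    have h := D_push (p := p) φ (single l 1)
    rw [push_single, D_single, D_single, one_smul, one_smul] at h
    exact h.symm
  have hebD : ∀ l : List (W n), ev eb (bd p l) = 0 := by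
    intro l
    rw [heb_ev, hbdpush]
    exact haD _
  have hXq : IsSeq (mul n ζ) P (q + q) 1 X := hX.mono (by omega) (fun _ h => h)
  have hz1 : IsSeq (mul n ζ) P q (ev eb (X q)) (fun k => cap q eb (X (q + k))) :=
    hXq.capp hPsub hPg hqe hebi (fun l _ _ => hebD l)
  have hbeta1 : ev eb (X q) = cc := by
    rw [heb_ev]
    have := hatopP 1 _ (hrot (hX.mono (m' := q) (by omega) (fun _ h => h)))
    simpa using this
  have htot : ev ep (X (q + q)) + ev em (X (q + q)) = cc * cc := by
    rw [← ev_add]
    have h1 : ev ea (cap q eb (X (q + q))) = cc * cc := by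
      have := hatopP _ _ hz1
      rw [hbeta1] at this
      exact this
    rw [← h1, ev_cap q q eb ea (P := P) (by
      have := hX.1 (q + q) (by omega)
      exact this)]
    refine ev_congr (P := fun l => l.length = q + q + 1 ∧ P l) ?_ (hX.1 (q + q) (by omega))
    intro l hl
    exact hsum l (hPn l hl.2) hl.2.2 hl.1
  -- the general vanishing statement for the halves
  have key : ∀ u : List (W n) → ZMod p, (∀ l, Adm n n l → u (l.map (mul n ζ)) = u l) →
      (∀ l, Adm n n l → Close n δ l → ev u (bd p l) = 0) →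
      (∀ l, Adm n n l → Close n δ l → ∀ m,
        u ((l.drop m).map (mul n Complex.I)) * u (l.take (m + 1)) = 0) →
      ev u (X (q + q)) = 0 := by
    intro u hui huD huu
    have hvan : ∀ {y : ℕ → Ch p (W n)}, IsSeq (mul n ζ) P (q + q) 0 y → ev u (y (q + q)) = 0 := by
      intro y hy
      exact ev_zero_small (s := 4 * q + 1) (by omega) hζn hζp hδ hui huD hy
    set b : List (W n) → ZMod p := fun l => u (l.map (mul n Complex.I)) with hbdef
    have hb_ev : ∀ c : Ch p (W n), ev b c = ev u (push (mul n Complex.I) c) := by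
      intro c; rw [ev_push]
    have hbi : ∀ l, P l → b (l.map (mul n ζ)) = b l := by
      intro l hl
      have h1 := hui (l.map (mul n Complex.I)) (hPn _ (hPI l hl))
      simp only [hbdef]
      rw [← h1, List.map_map, List.map_map]
      congr 2
      funext w
      simp only [Function.comp, mul, smul_smul]
      rw [mul_comm]
    have hbD : ∀ l : List (W n), P l → l.length = (q + q) + 2 → ev b (bd p l) = 0 := by
      intro l hl _
      rw [hb_ev, hbdpush]
      exact huD _ (hPn _ (hPI l hl)) (hPI l hl).2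
    have hX2 : IsSeq (mul n ζ) P ((q + q) + (q + q)) 1 X := hX.mono (by omega) (fun _ h => h)
    have hXm : IsSeq (mul n ζ) P (q + q) 1 X := hXq
    have hz : IsSeq (mul n ζ) P (q + q) (ev b (X (q + q)))
        (fun k => cap (q + q) b (X ((q + q) + k))) :=
      hX2.capp hPsub hPg (hqe.add hqe) hbi hbD
    -- value of `b`
    have hbv : ev b (X (q + q)) = ev u (X (q + q)) := by
      have h1 : IsSeq (mul n ζ) P (q + q) (1 * 1 - 1 * 1)
          (fun k => (1 : ZMod p) • push (mul n Complex.I) (X k) - (1 : ZMod p) • X k) :=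
        (hrot hXm).comb hXm 1 1
      rw [sub_self] at h1
      have h2 := hvan h1
      simp only [one_smul, map_sub] at h2
      rw [hb_ev]
      exact sub_eq_zero.mp h2
    have h1 : IsSeq (mul n ζ) P (q + q) (1 * ev b (X (q + q)) - ev b (X (q + q)) * 1)
        (fun k => (1 : ZMod p) • cap (q + q) b (X ((q + q) + k)) - ev b (X (q + q)) • X k) :=
      hz.comb hXm 1 _
    have h0 : (1 * ev b (X (q + q)) - ev b (X (q + q)) * 1 : ZMod p) = 0 := by ring
    rw [h0] at h1
    have h2 := hvan h1
    simp only [one_smul, map_sub, map_smul, smul_eq_mul] at h2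
    have h3 : ev u (cap (q + q) b (X ((q + q) + (q + q)))) = 0 := by
      rw [ev_cap (q + q) (q + q) b u (P := P) (by
        have := hX.1 ((q + q) + (q + q)) (by omega)
        exact this)]
      refine ev_eq_zero (P := fun l => l.length = (q + q) + (q + q) + 1 ∧ P l) ?_
        (hX.1 ((q + q) + (q + q)) (by omega))
      intro l hl
      exact huu l (hPn l hl.2) hl.2.2 _
    rw [h3, hbv, zero_sub, neg_eq_zero] at h2
    exact mul_self_eq_zero.mp h2
  have hplus := key ep hpi hpD hpp
  have hminus := key em hmi hmD hmm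
  rw [hplus, hminus, add_zero] at htot
  exact hcc (mul_self_eq_zero.mp htot.symm)

end Pool.Agent.Lib.P23Z
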