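import Pool.Agent.Lib.P23Z.Subdiv

/-! Subdivision makes lists small.
PROOFS. Distance on `W n = Fin n → ℂ` is a norm distance. `her_close`: dist (bary l') x is at
most the mean of the distances. `close_nonneg_of_ne`: 0 ≤ dist x x ≤ δ.
`Sd_close`: claim by induction on k: for every list l of length k+1, every R with Close n R l,
all lists l' in Sd (single l 1) are Close (k/(k+1) * R) (and every point of l' is in the convex
hull of l: use a Her predicate such as: for every point x and r, if all points of l are within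
r of x then all points of l' are within r of x). k = 0: l = [v], Sd = [bary [v]], one point,
distance 0 ≤ 0. Step: l' = bary l :: l'' with l'' in Sd of a face: distances inside l'' are
≤ (k-1)/k * R ≤ k/(k+1) * R; dist (bary l) y for y in the hull of l is ≤ max over the points
v_i of l of dist (bary l) v_i, and bary l - v_i = (1/(k+1)) * sum_j (v_j - v_i) has k nonzero
terms, norm ≤ k/(k+1) * R. Monotone: (k-1)/k ≤ k/(k+1). R ≥ 0 by `close_nonneg_of_ne`.
`iter_close`: for k' ≤ k the ratio k'/(k'+1) ≤ r := k/(k+1) < 1; M' iterations give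
Close (r^M' * R) (use max R 0), which is ≤ δ for M' ≥ M since r^M' → 0 (k = 0: r = 0, M = 1).
P is kept by `Sd_mem` with Her.and. -/

namespace Pool.Agent.Lib.P23Z

open Finsupp

variable {p : ℕ}

/-! Auxiliary lemmas. -/

namespace MeshAux

theorem sum_sub_le {n : ℕ} {y : W n} {r : ℝ} : ∀ l : List (W n), (∀ x ∈ l, dist x y ≤ r) →
    ‖l.sum - (l.length : ℝ) • y‖ ≤ l.length * r := by
  intro l
  induction l with
  | nil => intro _; simp
  | cons v l ih =>
    intro h
    have h1 : (v :: l).sum - (((v :: l).length : ℕ) : ℝ) • y =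
        (v - y) + (l.sum - (l.length : ℝ) • y) := by
      rw [List.sum_cons, List.length_cons]
      push_cast
      rw [add_smul, one_smul]
      abel
    have h2 : ‖v - y‖ ≤ r := by
      rw [← dist_eq_norm]; exact h v (List.mem_cons_self ..)
    have h3 := ih (fun x hx => h x (List.mem_cons_of_mem _ hx))
    rw [h1, List.length_cons]
    push_cast
    calc ‖(v - y) + (l.sum - (l.length : ℝ) • y)‖ ≤ ‖v - y‖ + ‖l.sum - (l.length : ℝ) • y‖ :=
          norm_add_le _ _
      _ ≤ r + l.length * r := add_le_add h2 h3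
      _ = (l.length + 1) * r := by ring

theorem sum_sub_le' {n : ℕ} {y : W n} {r : ℝ} : ∀ l : List (W n), y ∈ l →
    (∀ x ∈ l, dist x y ≤ r) →
    ‖l.sum - (l.length : ℝ) • y‖ ≤ (l.length - 1) * r := by
  intro l
  induction l with
  | nil => intro hy; simp at hy
  | cons v l ih =>
    intro hy h
    have h1 : (v :: l).sum - (((v :: l).length : ℕ) : ℝ) • y =
        (v - y) + (l.sum - (l.length : ℝ) • y) := by
      rw [List.sum_cons, List.length_cons]
      push_cast
      rw [add_smul, one_smul]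
      abel
    have hl := fun x hx => h x (List.mem_cons_of_mem _ hx)
    rw [h1, List.length_cons]
    push_cast
    rcases List.mem_cons.1 hy with rfl | hy'
    · rw [sub_self, zero_add]
      have h3 := sum_sub_le l hl
      calc _ ≤ _ := h3
        _ = _ := by ring
    · have h2 : ‖v - y‖ ≤ r := by
        rw [← dist_eq_norm]; exact h v (List.mem_cons_self ..)
      have h3 := ih hy' hl
      calc ‖(v - y) + (l.sum - (l.length : ℝ) • y)‖ ≤ ‖v - y‖ + ‖l.sum - (l.length : ℝ) • y‖ :=
            norm_add_le _ _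
        _ ≤ r + (l.length - 1) * r := add_le_add h2 h3
        _ = (l.length + 1 - 1) * r := by ring

theorem bary_sub {n : ℕ} {l : List (W n)} (hl : l ≠ []) (y : W n) :
    bary l - y = ((l.length : ℝ)⁻¹) • (l.sum - (l.length : ℝ) • y) := by
  have h : (l.length : ℝ) ≠ 0 := by
    have := List.length_pos_iff.2 hl
    exact_mod_cast this.ne'
  rw [bary, smul_sub, smul_smul, inv_mul_cancel₀ h, one_smul]

theorem bary_dist {n : ℕ} {l : List (W n)} {y : W n} {r : ℝ} (hl : l ≠ [])
    (h : ∀ x ∈ l, dist x y ≤ r) : dist (bary l) y ≤ r := by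
  have h0 : (0 : ℝ) < l.length := by
    exact_mod_cast List.length_pos_iff.2 hl
  rw [dist_eq_norm, bary_sub hl, norm_smul, norm_inv, Real.norm_of_nonneg h0.le,
    inv_mul_le_iff₀ h0]
  exact sum_sub_le l h

theorem bary_dist' {n k : ℕ} {l : List (W n)} {y : W n} {r : ℝ} (hl : l.length = k + 1)
    (hy : y ∈ l) (h : ∀ x ∈ l, dist x y ≤ r) : dist (bary l) y ≤ (k : ℝ) / (k + 1) * r := by
  have hne : l ≠ [] := List.ne_nil_of_mem hy
  have hk : (0 : ℝ) < (k : ℝ) + 1 := by positivity
  have h1 := sum_sub_le' l hy h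
  rw [dist_eq_norm, bary_sub hne, norm_smul, norm_inv]
  rw [hl] at h1 ⊢
  push_cast at h1 ⊢
  rw [Real.norm_of_nonneg hk.le, inv_mul_le_iff₀ hk]
  calc _ ≤ _ := h1
    _ = _ := by field_simp; ring

theorem sup_and {V : Type*} {P Q : List V → Prop} {c : Ch p V} (h : c ∈ Sup p P)
    (h' : c ∈ Sup p Q) : c ∈ Sup p (fun l => P l ∧ Q l) := by
  unfold Sup at *
  rw [Finsupp.mem_supported] at *
  exact fun l hl => ⟨h hl, h' hl⟩

/-- Being within any ball which contains the points of `l`. -/
def Hull {n : ℕ} (l : List (W n)) (l' : List (W n)) : Prop :=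
  ∀ x ∈ l', ∀ (y : W n) (r : ℝ), (∀ v ∈ l, dist v y ≤ r) → dist x y ≤ r

theorem her_hull {n : ℕ} (l : List (W n)) : Her (Hull l) := by
  refine ⟨fun l₁ l₂ h hs x hx => h x (hs x hx), ?_⟩
  intro l₁ l₂ h hne hs x hx y r hv
  rcases List.mem_cons.1 hx with rfl | hx'
  · exact bary_dist hne (fun z hz => h z (hs z hz) y r hv)
  · exact h x hx' y r hv

theorem Hull.trans {n : ℕ} {l l' l'' : List (W n)} (h : Hull l l') (h' : Hull l' l'') :
    Hull l l'' :=
  fun x hx y r hv => h' x hx y r (fun v hv' => h v hv' y r hv)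

end MeshAux

theorem her_close (n : ℕ) (δ : ℝ) : Her (Close n δ) := by
  refine ⟨fun l l' h hs x hx y hy => h x (hs x hx) y (hs y hy), ?_⟩
  intro l l' h hne hs
  have h0 : 0 ≤ δ := by
    obtain ⟨v, hv⟩ := List.exists_mem_of_ne_nil l' hne
    have := h v (hs v hv) v (hs v hv)
    rwa [dist_self] at this
  have hb : ∀ y ∈ l, dist (bary l') y ≤ δ := fun y hy =>
    MeshAux.bary_dist hne (fun x hx => h x (hs x hx) y hy)
  intro x hx y hy
  rcases List.mem_cons.1 hx with rfl | hx'
  · rcases List.mem_cons.1 hy with rfl | hy'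
    · rw [dist_self]; exact h0
    · exact hb y hy'
  · rcases List.mem_cons.1 hy with rfl | hy'
    · rw [dist_comm]; exact hb x hx'
    · exact h x hx' y hy'

theorem close_nonneg_of_ne {n : ℕ} {δ : ℝ} {l : List (W n)} (h : Close n δ l) (hl : l ≠ []) :
    0 ≤ δ := by
  obtain ⟨v, hv⟩ := List.exists_mem_of_ne_nil l hl
  have := h v hv v hv
  rwa [dist_self] at this

namespace MeshAux

theorem close_single {n : ℕ} : ∀ (k : ℕ) (l : List (W n)), l.length = k + 1 → ∀ R : ℝ,
    Close n R l →
    (Sd (Finsupp.single l 1) : Ch p (W n)) ∈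
      Sup p (fun l' => Close n ((k : ℝ) / (k + 1) * R) l') := by
  intro k
  induction k with
  | zero =>
    intro l hl R hR
    have h1 : (Sd (Finsupp.single l 1) : Ch p (W n)) ∈
        Sup p (fun l => l.length = 1 ∧ Close n R l) :=
      Sd_mem (her_close n R) (single_mem ⟨by simpa using hl, hR⟩ 1)
    refine Sup_mono ?_ h1
    intro l' hl' x hx y hy
    obtain ⟨v, rfl⟩ := List.length_eq_one_iff.1 hl'.1
    rw [List.mem_singleton] at hx hy
    rw [hx, hy, dist_self]
    simp
  | succ k ih =>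
    intro l hl R hR
    have hne : l ≠ [] := by
      rintro rfl
      simp at hl
    have hR0 : 0 ≤ R := by
      obtain ⟨v, hv⟩ := List.exists_mem_of_ne_nil l hne
      have := hR v hv v hv
      rwa [dist_self] at this
    rw [Sd_single l hne]
    have hbd : bd p l ∈ Sup p (fun l' => l'.length = k + 1 ∧ Hull l l' ∧ Close n R l') := by
      refine Sup_mono ?_ (bd_mem (p := p) l)
      intro l' hl'
      have hs : ∀ x ∈ l', x ∈ l := fun x hx => hl'.2.subset hx
      refine ⟨by omega, fun x hx y r hv => hv x (hs x hx), fun x hx y hy =>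
        hR x (hs x hx) y (hs y hy)⟩
    have hA : Sd (bd p l) ∈ Sup p (fun l' => l'.length = k + 1 ∧ Hull l l') :=
      Sd_mem (her_hull l) (Sup_mono (fun l' h => ⟨h.1, h.2.1⟩) hbd)
    have hB : Sd (bd p l) ∈ Sup p (fun l' => Close n ((k : ℝ) / (k + 1) * R) l') :=
      lin_mem Sd _ _ (fun l' h => ih l' h.1 R h.2.2) hbd
    refine cone_mem (bary l) ?_ (sup_and hA hB)
    intro l' hl'
    have hc0 : (0 : ℝ) ≤ (((k + 1 : ℕ) : ℝ)) / (((k + 1 : ℕ) : ℝ) + 1) * R :=
      mul_nonneg (by positivity) hR0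
    have hb : ∀ x ∈ l', dist x (bary l) ≤ (((k + 1 : ℕ) : ℝ)) / (((k + 1 : ℕ) : ℝ) + 1) * R := by
      intro x hx
      refine hl'.1.2 x hx (bary l) _ (fun v hv => ?_)
      rw [dist_comm]
      exact bary_dist' hl hv (fun z hz => hR z hz v hv)
    intro x hx y hy
    rcases List.mem_cons.1 hx with rfl | hx'
    · rcases List.mem_cons.1 hy with rfl | hy'
      · rw [dist_self]; exact hc0
      · rw [dist_comm]; exact hb y hy'
    · rcases List.mem_cons.1 hy with rfl | hy'
      · exact hb x hx'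
      · refine (hl'.2 x hx' y hy').trans (mul_le_mul_of_nonneg_right ?_ hR0)
        have hk0 : (0 : ℝ) ≤ k := Nat.cast_nonneg k
        push_cast
        rw [div_le_div_iff₀ (by linarith) (by linarith)]
        nlinarith

end MeshAux

/-- One subdivision multiplies the diameter of lists of length `k + 1` by at most
`k / (k + 1)`. -/
theorem Sd_close {n k : ℕ} {δ : ℝ} {c : Ch p (W n)}
    (hc : c ∈ Sup p (fun l => l.length = k + 1 ∧ Close n δ l)) :
    Sd c ∈ Sup p (fun l => l.length = k + 1 ∧ Close n ((k : ℝ) / (k + 1) * δ) l) := by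
  have hlen : Sd c ∈ Sup p (fun l => l.length = k + 1 ∧ Close n δ l) :=
    Sd_mem (her_close n δ) hc
  have hcl : Sd c ∈ Sup p (fun l => Close n ((k : ℝ) / (k + 1) * δ) l) :=
    lin_mem Sd _ _ (fun l hl => MeshAux.close_single k l hl.1 δ hl.2) hc
  exact MeshAux.sup_and (Sup_mono (fun l h => h.1) hlen) hcl

/-- Iterated subdivision: every list condition `P` with `Her P` is kept and the diameters
become small. -/
theorem iter_close {n k : ℕ} {P : List (W n) → Prop} (hP : Her P) (R δ : ℝ) (hδ : 0 < δ) :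
    ∃ M : ℕ, ∀ M' ≥ M, ∀ k' ≤ k, ∀ c ∈ Sup p (fun l => l.length = k' + 1 ∧ P l ∧ Close n R l),
      (Sd^[M'] c : Ch p (W n)) ∈ Sup p (fun l => l.length = k' + 1 ∧ P l ∧ Close n δ l) := by
  have hk0 : (0 : ℝ) ≤ k := Nat.cast_nonneg k
  have hk1 : (0 : ℝ) < (k : ℝ) + 1 := by linarith
  have hr0 : (0 : ℝ) ≤ (k : ℝ) / (k + 1) := div_nonneg hk0 hk1.le
  have hr1 : (k : ℝ) / (k + 1) < 1 := by
    rw [div_lt_one hk1]; linarith
  set r : ℝ := (k : ℝ) / (k + 1) with hr
  have hR0 : 0 ≤ max R 0 := le_max_right _ _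
  have ht : Filter.Tendsto (fun M : ℕ => r ^ M * max R 0) Filter.atTop (nhds 0) := by
    have := (tendsto_pow_atTop_nhds_zero_of_lt_one hr0 hr1).mul_const (max R 0)
    rwa [zero_mul] at this
  have hev := ht.eventually (gt_mem_nhds hδ)
  obtain ⟨M, hM⟩ := Filter.eventually_atTop.1 hev
  refine ⟨M, fun M' hM' k' hk' c hc => ?_⟩
  have hkk : (k' : ℝ) / (k' + 1) ≤ r := by
    have h1 : (k' : ℝ) ≤ k := by exact_mod_cast hk'
    have h2 : (0 : ℝ) ≤ k' := Nat.cast_nonneg k'
    rw [hr, div_le_div_iff₀ (by linarith) hk1]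
    nlinarith
  have key : ∀ N : ℕ, (Sd^[N] c : Ch p (W n)) ∈
      Sup p (fun l => l.length = k' + 1 ∧ P l ∧ Close n (r ^ N * max R 0) l) := by
    intro N
    induction N with
    | zero =>
      refine Sup_mono (fun l h => ⟨h.1, h.2.1, ?_⟩) hc
      rw [pow_zero, one_mul]
      exact fun x hx y hy => (h.2.2 x hx y hy).trans (le_max_left _ _)
    | succ N ih =>
      rw [Function.iterate_succ_apply']
      have hA : Sd (Sd^[N] c : Ch p (W n)) ∈ Sup p (fun l => l.length = k' + 1 ∧ P l) :=
        Sd_mem hP (Sup_mono (fun l h => ⟨h.1, h.2.1⟩) ih)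
      have hB : Sd (Sd^[N] c : Ch p (W n)) ∈ Sup p (fun l => l.length = k' + 1 ∧
          Close n ((k' : ℝ) / (k' + 1) * (r ^ N * max R 0)) l) :=
        Sd_close (Sup_mono (fun l h => ⟨h.1, h.2.2⟩) ih)
      refine Sup_mono ?_ (MeshAux.sup_and hA hB)
      intro l h
      refine ⟨h.1.1, h.1.2, fun x hx y hy => (h.2.2 x hx y hy).trans ?_⟩
      calc (k' : ℝ) / (k' + 1) * (r ^ N * max R 0) ≤ r * (r ^ N * max R 0) :=
            mul_le_mul_of_nonneg_right hkk (mul_nonneg (pow_nonneg hr0 N) hR0)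
        _ = r ^ (N + 1) * max R 0 := by ring
  exact Sup_mono (fun l h => ⟨h.1, h.2.1, fun x hx y hy =>
    (h.2.2 x hx y hy).trans (hM M' hM').le⟩) (key M')

end Pool.Agent.Lib.P23Z
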