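import Pool.Agent.Lib.P23Z.Main

/-! Isometric copies of planar sets with few directions in normed spaces. -/

namespace Pool.Agent.Lib.P23Z

open Complex

/-- A `4p`-th root of unity is `± I^a ζ^j`. -/
theorem root_split {p : ℕ} (hp : p.Prime) (h2 : p ≠ 2) {ζ : ℂ} (hζ : IsPrimitiveRoot ζ p) {z : ℂ}
    (hz : z ^ (4 * p) = 1) : ∃ a : ℕ, a < 2 ∧ ∃ j : ℕ, j < p ∧
      (z = I ^ a * ζ ^ j ∨ z = -(I ^ a * ζ ^ j)) := by
  have hodd : Odd p := hp.odd_of_ne_two h2
  have hp0 : 0 < p := hp.pos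
  have : NeZero p := ⟨hp.ne_zero⟩
  -- `p * p = 1 + 4 k`
  obtain ⟨k, hk⟩ : ∃ k, p * p = 1 + 4 * k := by
    obtain ⟨r, hr⟩ := hodd
    exact ⟨r * r + r, by rw [hr]; ring⟩
  have hz0 : z ≠ 0 := by
    rintro rfl
    rw [zero_pow (by positivity)] at hz
    exact zero_ne_one hz
  -- the two parts
  have hv : (z ^ (4 * k)) ^ p = 1 := by
    rw [← pow_mul, show 4 * k * p = (4 * p) * k by ring, pow_mul, hz, one_pow]
  have hu : (z ^ (p * p)) ^ 4 = 1 := by
    rw [← pow_mul, show p * p * 4 = (4 * p) * p by ring, pow_mul, hz, one_pow]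
  obtain ⟨j, hj, hj'⟩ := hζ.eq_pow_of_pow_eq_one (ξ := (z ^ (4 * k)) ^ (p - 1)) (by
    rw [← pow_mul, mul_comm (p - 1) p, pow_mul, hv, one_pow])
  have hzz : z = z ^ (p * p) * ζ ^ j := by
    rw [hj', hk, pow_add, pow_one, mul_assoc, ← pow_succ', Nat.sub_add_cancel hp0, hv, mul_one]
  generalize z ^ (p * p) = u at hu hzz
  have hI : I ^ 2 = -1 := I_sq
  have hfac : (u - 1) * (u + 1) * ((u - I) * (u + I)) = 0 := by
    linear_combination hu - (u ^ 2 - 1) * hI
  rcases mul_eq_zero.mp hfac with h | h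
  · rcases mul_eq_zero.mp h with h | h
    · refine ⟨0, by norm_num, j, hj, Or.inl ?_⟩
      rw [hzz, sub_eq_zero.mp h, pow_zero]
    · refine ⟨0, by norm_num, j, hj, Or.inr ?_⟩
      rw [hzz, eq_neg_of_add_eq_zero_left h, pow_zero, neg_mul]
  · rcases mul_eq_zero.mp h with h | h
    · refine ⟨1, by norm_num, j, hj, Or.inl ?_⟩
      rw [hzz, sub_eq_zero.mp h, pow_one]
    · refine ⟨1, by norm_num, j, hj, Or.inr ?_⟩
      rw [hzz, eq_neg_of_add_eq_zero_left h, pow_one, neg_mul]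

/-- The difference of two `m`-th roots of unity is a real multiple of a `2m`-th root of unity. -/
theorem dir_roots {m : ℕ} (hm : Even m) (hm0 : m ≠ 0) {α β : ℂ} (hα : α ^ m = 1) (hβ : β ^ m = 1) :
    ∃ (t : ℝ) (z : ℂ), z ^ (2 * m) = 1 ∧ α - β = t * z := by
  have ha := Complex.norm_eq_one_of_pow_eq_one hα hm0
  have hb := Complex.norm_eq_one_of_pow_eq_one hβ hm0
  obtain ⟨z, hz⟩ : ∃ z : ℂ, z ^ 2 = -(α * β) := IsAlgClosed.exists_pow_nat_eq _ (by norm_num)
  have hz1 : z ^ (2 * m) = 1 := by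
    rw [pow_mul, hz, hm.neg_pow, mul_pow, hα, hβ, one_mul]
  have hz0 : z ≠ 0 := by
    rintro rfl
    rw [zero_pow (by omega)] at hz1
    exact zero_ne_one hz1
  have hac : α * (starRingEnd ℂ) α = 1 := by
    rw [Complex.mul_conj, Complex.normSq_eq_norm_sq, ha]; simp
  have hbc : β * (starRingEnd ℂ) β = 1 := by
    rw [Complex.mul_conj, Complex.normSq_eq_norm_sq, hb]; simp
  have hsq : (α - β) ^ 2 = ((2 - 2 * (α * (starRingEnd ℂ) β).re : ℝ) : ℂ) * z ^ 2 := by
    have h1 : ((2 * (α * (starRingEnd ℂ) β).re : ℝ) : ℂ)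
        = α * (starRingEnd ℂ) β + β * (starRingEnd ℂ) α := by
      have := Complex.add_conj (α * (starRingEnd ℂ) β)
      rw [map_mul, Complex.conj_conj] at this
      rw [← this]; ring
    rw [hz]
    push_cast at h1 ⊢
    rw [h1]
    linear_combination (-α ^ 2) * hbc - β ^ 2 * hac
  set s : ℝ := 2 - 2 * (α * (starRingEnd ℂ) β).re with hs
  have hs0 : 0 ≤ s := by
    have h1 : (α * (starRingEnd ℂ) β).re ≤ 1 := by
      refine (Complex.re_le_norm _).trans ?_
      rw [norm_mul, Complex.norm_conj, ha, hb, one_mul]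
    linarith
  have h2 : ((√s : ℝ) : ℂ) ^ 2 = (s : ℂ) := by
    rw [← Complex.ofReal_pow, Real.sq_sqrt hs0]
  have h3 : (α - β - (√s : ℝ) * z) * (α - β + (√s : ℝ) * z) = 0 := by
    linear_combination hsq - z ^ 2 * h2
  rcases mul_eq_zero.mp h3 with h | h
  · exact ⟨√s, z, hz1, sub_eq_zero.mp h⟩
  · refine ⟨-√s, z, hz1, ?_⟩
    push_cast
    linear_combination h

/-- The vertices and the centre of a regular `m`-gon, `m` even, have directions among the `2m`-th
roots of unity. -/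
theorem dir_poly {m : ℕ} (hm : Even m) (hm0 : m ≠ 0) (c r : ℂ) : ∃ u : ℂ, u ≠ 0 ∧
    ∀ a b : ℂ, (a = c ∨ (a - c) ^ m = r ^ m) → (b = c ∨ (b - c) ^ m = r ^ m) →
      ∃ (t : ℝ) (z : ℂ), z ^ (2 * m) = 1 ∧ a - b = t * z * u := by
  rcases eq_or_ne r 0 with rfl | hr
  · refine ⟨1, one_ne_zero, ?_⟩
    have key : ∀ a : ℂ, (a = c ∨ (a - c) ^ m = 0 ^ m) → a = c := by
      rintro a (h | h)
      · exact h
      · rw [zero_pow hm0] at h
        exact sub_eq_zero.mp (pow_eq_zero_iff hm0 |>.mp h)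
    intro a b ha hb
    refine ⟨0, 1, one_pow _, ?_⟩
    rw [key a ha, key b hb]; simp
  · refine ⟨r, hr, ?_⟩
    have key : ∀ a : ℂ, (a = c ∨ (a - c) ^ m = r ^ m) →
        ∃ α : ℂ, a - c = α * r ∧ (α = 0 ∨ α ^ m = 1) := by
      rintro a (h | h)
      · exact ⟨0, by rw [h]; simp, Or.inl rfl⟩
      · refine ⟨(a - c) / r, by field_simp, Or.inr ?_⟩
        rw [div_pow, h, div_self (pow_ne_zero _ hr)]
    intro a b ha hb
    obtain ⟨α, hα, hα'⟩ := key a ha
    obtain ⟨β, hβ, hβ'⟩ := key b hb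
    have hab : a - b = (α - β) * r := by linear_combination hα - hβ
    suffices h : ∃ (t : ℝ) (z : ℂ), z ^ (2 * m) = 1 ∧ α - β = t * z by
      obtain ⟨t, z, hz, h⟩ := h
      exact ⟨t, z, hz, by rw [hab, h]⟩
    rcases hα' with rfl | hα' <;> rcases hβ' with rfl | hβ'
    · exact ⟨0, 1, one_pow _, by simp⟩
    · refine ⟨-1, β, ?_, by simp⟩
      rw [mul_comm, pow_mul, hβ', one_pow]
    · refine ⟨1, α, ?_, by simp⟩
      rw [mul_comm, pow_mul, hα', one_pow]
    · exact dir_roots hm hm0 hα' hβ'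

section normed

variable {X : Type*} [NormedAddCommGroup X] [NormedSpace ℝ X] {n : ℕ}

/-- The real-linear map `u ↦ ∑ Re (u w_k) x_k`. -/
noncomputable def lin (x : Fin n → X) (w : W n) : ℂ →ₗ[ℝ] X where
  toFun u := ∑ k, (u * w k).re • x k
  map_add' u v := by
    rw [← Finset.sum_add_distrib]
    refine Finset.sum_congr rfl fun k _ => ?_
    rw [add_mul, add_re, add_smul]
  map_smul' r u := by
    rw [RingHom.id_apply, Finset.smul_sum]
    refine Finset.sum_congr rfl fun k _ => ?_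
    rw [smul_smul]
    congr 1
    rw [Complex.real_smul, mul_assoc, Complex.re_ofReal_mul]

theorem lin_apply (x : Fin n → X) (w : W n) (u : ℂ) :
    lin x w u = ∑ k, (u * w k).re • x k := rfl

theorem exists_lin {p : ℕ} (hp : p.Prime) (h2 : p ≠ 2) (hn : 6 * p - 4 ≤ n) {x : Fin n → X}
    (hx : LinearIndependent ℝ x) : ∃ T : ℂ →ₗ[ℝ] X, ∀ z : ℂ, z ^ (4 * p) = 1 → ‖T z‖ = 1 := by
  have : Fact p.Prime := ⟨hp⟩
  have hζ := Complex.isPrimitiveRoot_exp p hp.ne_zero
  set ζ := Complex.exp (2 * Real.pi * I / p) with hζdef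
  set f : W n → ℝ := fun w => ‖∑ k, (w k).re • x k‖ with hf
  have hfc : Continuous f := by
    refine (continuous_finsetSum _ fun k _ => ?_).norm
    exact (Complex.continuous_re.comp (continuous_apply k)).smul continuous_const
  have hev : ∀ w, f (-w) = f w := by
    intro w
    simp only [hf, Pi.neg_apply, Complex.neg_re, neg_smul, Finset.sum_neg_distrib, norm_neg]
  obtain ⟨w, hwK, hw⟩ := exists_const h2 hn hζ hfc hev
  -- the constant is positive
  have hzero : ∀ v : W n, f v = 0 → ∀ k, (v k).re = 0 := by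
    intro v hv k
    have h1 : ∑ k, (v k).re • x k = 0 := norm_eq_zero.mp hv
    exact Fintype.linearIndependent_iff.mp hx _ h1 k
  have hpos : 0 < f w := by
    rcases (norm_nonneg (∑ k, (w k).re • x k)).lt_or_eq with h | h
    · exact h
    exfalso
    have h0 : f w = 0 := h.symm
    have h1 : f (mul n (I ^ 1 * ζ ^ 0) w) = 0 := (hw 1 (by norm_num) 0 hp.pos).trans h0
    have hre := hzero w h0
    have him := hzero _ h1
    have hall : ∀ k, w k = 0 := by
      intro k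
      apply Complex.ext
      · exact hre k
      · have := him k
        simp only [mul, pow_one, pow_zero, mul_one, Pi.smul_apply, smul_eq_mul, Complex.mul_re,
          Complex.I_re, Complex.I_im, zero_mul, one_mul, zero_sub, neg_eq_zero] at this
        simpa using this
    have hs : ∑ i, ‖w i‖ = 1 := hwK
    simp [hall] at hs
  refine ⟨(f w)⁻¹ • lin x w, ?_⟩
  intro z hz
  rw [LinearMap.smul_apply, norm_smul, norm_inv, Real.norm_eq_abs, abs_of_pos hpos]
  have hkey : ‖lin x w z‖ = f w := by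
    obtain ⟨a, ha, j, hj, h⟩ := root_split hp h2 hζ hz
    have h1 : ‖lin x w (I ^ a * ζ ^ j)‖ = f w := by
      rw [← hw a ha j hj]
      rfl
    rcases h with h | h
    · rw [h, h1]
    · rw [h, map_neg, norm_neg, h1]
  rw [hkey]
  exact inv_mul_cancel₀ hpos.ne'

/-- Multiples of the roots of unity are mapped isometrically. -/
theorem norm_lin {p : ℕ} {T : ℂ →ₗ[ℝ] X} (hT : ∀ z : ℂ, z ^ (4 * p) = 1 → ‖T z‖ = 1) (t : ℝ) {z : ℂ}
    (hz : z ^ (4 * p) = 1) : ‖T (t * z)‖ = |t| := by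
  have : (t : ℂ) * z = t • z := by rw [Complex.real_smul]
  rw [this, map_smul, norm_smul, hT z hz, mul_one, Real.norm_eq_abs]

/-- A set whose differences have directions among the `4p`-th roots of unity (up to a rotation). -/
theorem exists_iso {p : ℕ} (hp : p.Prime) (h2 : p ≠ 2) (hn : 6 * p - 4 ≤ n) {x : Fin n → X}
    (hx : LinearIndependent ℝ x) {A : Type*} [MetricSpace A] {e : A → ℂ} (he : Isometry e) {u : ℂ}
    (hu : u ≠ 0)
    (h : ∀ a b, ∃ (t : ℝ) (z : ℂ), z ^ (4 * p) = 1 ∧ e a - e b = t * z * u) :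
    ∃ f : A → X, Isometry f := by
  obtain ⟨T, hT⟩ := exists_lin hp h2 hn hx
  refine ⟨fun a => T ((‖u‖ : ℂ) * u⁻¹ * e a), ?_⟩
  refine Isometry.of_dist_eq fun a b => ?_
  obtain ⟨t, z, hz, hab⟩ := h a b
  rw [← he.dist_eq a b, dist_eq_norm, dist_eq_norm, ← map_sub, ← mul_sub, hab]
  have hz1 : ‖z‖ = 1 := by
    refine Complex.norm_eq_one_of_pow_eq_one hz ?_
    have := hp.pos
    omega
  have h3 : (‖u‖ : ℂ) * u⁻¹ * (t * z * u) = ((‖u‖ * t : ℝ) : ℂ) * z := by
    push_cast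
    field_simp
  rw [h3, norm_lin hT _ hz, norm_mul, norm_mul, hz1, mul_one, abs_mul, abs_norm, mul_comm,
    Complex.norm_real, Real.norm_eq_abs]

/-- Subsets of the regular `2p`-gon with its centre. -/
theorem exists_iso_poly {p : ℕ} (hp : p.Prime) (h2 : p ≠ 2) (hn : 6 * p - 4 ≤ n) {x : Fin n → X}
    (hx : LinearIndependent ℝ x) {A : Type*} [MetricSpace A] {e : A → ℂ} (he : Isometry e) (c r : ℂ)
    (h : ∀ a, e a = c ∨ (e a - c) ^ (2 * p) = r ^ (2 * p)) : ∃ f : A → X, Isometry f := by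
  obtain ⟨u, hu, hd⟩ := dir_poly (m := 2 * p) (even_two_mul p) (by have := hp.pos; omega) c r
  refine exists_iso hp h2 hn hx he hu fun a b => ?_
  have := hd (e a) (e b) (h a) (h b)
  rwa [show 2 * (2 * p) = 4 * p by ring] at this

end normed

end Pool.Agent.Lib.P23Z
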