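import Pool.Agent.Lib.P23Z.Action

/-! The alternating top cochain on lists of labels in `ZMod p`.
PROOF. Λ = ExteriorAlgebra (ZMod p) (ZMod p → ZMod p), e j = ι (Pi.single j 1). For a list l of
labels let π l = (l.map e).prod. top : Λ → ZMod p linear: `ExteriorAlgebra.liftAlternating` of
the family which is the determinant (`Basis.det` of the standard basis reindexed by Fin p) in
degree p and 0 in the other degrees; `liftAlternating_apply_ιMulti`, and π l = ιMulti of the
get-function of l. rb l := top (π l).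
(1) rb l ≠ 0 ⇒ length p (other degrees 0) and labels pairwise distinct (alternating), hence all
labels occur (pigeonhole). (2) closed: with d = contraction `CliffordAlgebra.contractLeft` by
the functional ε = sum of coordinates (ε (e j) = 1): contractLeft_ι_mul gives, by induction on
l, π extended linearly to chains satisfies π (bd p l) = ε⌋(π l) (π [] = 1, ε⌋1 = 0). If
length l ≠ p+1, all lists in bd p l have length ≠ p (`bd_mem`) and rb vanishes on them. If
length l = p+1 some label is repeated, π l = 0, so top (π (bd p l)) = 0. (3) shift: S =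
`ExteriorAlgebra.map` of the linear map e j ↦ e (j-1); π (l.map (·-1)) = S (π l);
det of the shifted family = sign (cycle of odd length p) * det = det (for lists of length p;
if labels repeat both are 0): `Basis.det` composed with a permutation, sign of
j ↦ j - 1 on ZMod p is +1 (its p-th power is 1 and p is odd, so sign^p = 1 gives sign = 1).
(4) constant: s 0 = single [0] 1, s (k+1) = cone 0 (th (·-1) (k+1) (s k)) is an IsSeq with b = 1
(as in a cone construction: `D_cone`, `D_th`, `th_th`, `th_nil`). cc := ev rb (s (p-1)). For an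
arbitrary sequence y with augmentation b, y - b * s has augmentation 0 (`IsSeq.comb`), so
`IsSeq.ev_zero` (P = True, v = 0) gives ev rb (y (p-1)) = b * cc. cc ≠ 0: put E k = π (s k) in Λ,
G = S: E (k+1) = e 0 * (th E k). With ω = sum_j e j * e (j-1) (S-invariant, even element, hence
central): E 1 = e 0 * (e (-1) - e 0) = e 0 * e (-1), E (2i) = e 0 * ω^i, E (2i+1) =
e 0 * e (-1) * ω^i [E (2i+1) = e 0 * (S - 1)(e 0 ω^i) = e 0 * (e (-1) - e 0) * ω^i;
E (2i+2) = e 0 * sum_j S^j (e 0 e (-1) ω^i) = e 0 * ω^(i+1)]. So E (p-1) = e 0 * ω^((p-1)/2). Modulo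
e 0 (e 0 * e 0 = 0) ω can be replaced by the path form ω' = sum over j = 2..p-1 of e j * e (j-1)
on the labels 1..p-1 (the two terms with label 0 die in the product with e 0), and for the path
form on 2k labels ω'^k = k! * e 2 * e 1 * e 4 * e 3 * ... (+- k! e 1 ... e (2k)) by induction on
k: ω'_{2k} = ω'_{2k-2} + e_{2k-1} e_{2k-2} + e_{2k} e_{2k-1}; the forms commute, have square 0,
ω'_{2k-1}^k = 0 and ω'_{2k}^k = k * ω'_{2k-2}^(k-1) * e_{2k} e_{2k-1}. So cc = +- ((p-1)/2)! ≠ 0 in
ZMod p. Any other proof of cc ≠ 0 is welcome (for instance by descent: the degrees 1..p-1 of Λ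
are free over the group ring). -/

namespace Pool.Agent.Lib.P23Z

open Finsupp

namespace RainbowAux

/-- The exterior algebra. -/
abbrev A (p : ℕ) := ExteriorAlgebra (ZMod p) (ZMod p → ZMod p)

variable {p : ℕ}

/-- Generators. -/
noncomputable def e (j : ZMod p) : A p := ExteriorAlgebra.ι (ZMod p) (Pi.single j 1)

/-- Contraction with a coordinate. -/
noncomputable def ct (j : ZMod p) : A p →ₗ[ZMod p] A p :=
  CliffordAlgebra.contractLeft (LinearMap.proj j : (ZMod p → ZMod p) →ₗ[ZMod p] ZMod p)

/-- The shift. -/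
noncomputable def G : A p →ₐ[ZMod p] A p :=
  ExteriorAlgebra.map (LinearMap.funLeft (ZMod p) (ZMod p) (fun j => j + 1))

theorem e_sq (j : ZMod p) : e j * e j = 0 := ExteriorAlgebra.ι_sq_zero _

theorem e_swap (i j : ZMod p) : e i * e j = -(e j * e i) :=
  eq_neg_of_add_eq_zero_left (ExteriorAlgebra.ι_add_mul_swap _ _)

theorem ct_mul (i j : ZMod p) (x : A p) :
    ct i (e j * x) = (if i = j then x else 0) - e j * ct i x := by
  have h := CliffordAlgebra.contractLeft_ι_mul
    (LinearMap.proj i : (ZMod p → ZMod p) →ₗ[ZMod p] ZMod p) (Pi.single j (1 : ZMod p)) x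
  refine h.trans ?_
  rw [LinearMap.proj_apply]
  by_cases hij : i = j
  · subst hij
    rw [if_pos rfl, Pi.single_eq_same, one_smul]
    rfl
  · rw [if_neg hij, Pi.single_eq_of_ne hij, zero_smul]
    rfl

theorem ct_one (i : ZMod p) : ct i (1 : A p) = 0 := CliffordAlgebra.contractLeft_one _ _

theorem ct_self (i : ZMod p) (x : A p) : ct i (ct i x) = 0 :=
  CliffordAlgebra.contractLeft_contractLeft _ _

theorem ct_comm (i j : ZMod p) (x : A p) : ct i (ct j x) = -ct j (ct i x) :=
  CliffordAlgebra.contractLeft_comm _ _ _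

theorem G_e (j : ZMod p) : G (e j) = e (j - 1) := by
  rw [G, e, ExteriorAlgebra.map_apply_ι, e]
  congr 1
  funext i
  rw [LinearMap.funLeft_apply]
  by_cases h : i + 1 = j
  · have h' : i = j - 1 := by rw [← h]; ring
    rw [h, h', Pi.single_eq_same, Pi.single_eq_same]
  · have h' : i ≠ j - 1 := by
      intro h1
      apply h
      rw [h1]
      ring
    rw [Pi.single_eq_of_ne h, Pi.single_eq_of_ne h']

theorem ct_G (i : ZMod p) (x : A p) : ct i (G x) = G (ct (i + 1) x) := by
  induction x using CliffordAlgebra.left_induction with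
  | algebraMap r =>
    have h1 : G (algebraMap (ZMod p) (A p) r) = algebraMap (ZMod p) (A p) r := G.commutes r
    have h2 : ∀ k : ZMod p, ct k (algebraMap (ZMod p) (A p) r) = 0 := fun k =>
      CliffordAlgebra.contractLeft_algebraMap _ _ _
    show ct i (G (algebraMap (ZMod p) (A p) r)) = G (ct (i + 1) (algebraMap (ZMod p) (A p) r))
    rw [h1, h2, h2, map_zero]
  | add x y hx hy => rw [map_add, map_add, hx, hy, map_add, map_add]
  | ι_mul x m hx =>
    have h1 : G (ExteriorAlgebra.ι (ZMod p) m * x) =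
        ExteriorAlgebra.ι (ZMod p) (LinearMap.funLeft (ZMod p) (ZMod p) (fun j => j + 1) m) * G x := by
      rw [map_mul, G, ExteriorAlgebra.map_apply_ι]
    have h2 : ∀ (k : ZMod p) (m : ZMod p → ZMod p) (x : A p),
        ct k (ExteriorAlgebra.ι (ZMod p) m * x) = m k • x - ExteriorAlgebra.ι (ZMod p) m * ct k x :=
      fun k m x => CliffordAlgebra.contractLeft_ι_mul _ _ _
    have h3 : G (ct (i + 1) (ExteriorAlgebra.ι (ZMod p) m * x)) =
        m (i + 1) • G x - ExteriorAlgebra.ι (ZMod p)
          (LinearMap.funLeft (ZMod p) (ZMod p) (fun j => j + 1) m) * G (ct (i + 1) x) := by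
      rw [h2, map_sub, map_smul, map_mul, G, ExteriorAlgebra.map_apply_ι]
    show ct i (G (ExteriorAlgebra.ι (ZMod p) m * x)) =
      G (ct (i + 1) (ExteriorAlgebra.ι (ZMod p) m * x))
    rw [h1, h2, h3, hx]
    rfl

/-- The value of a list. -/
noncomputable def pr (l : List (ZMod p)) : A p := (l.map e).prod

theorem pr_nil : pr ([] : List (ZMod p)) = 1 := rfl

theorem pr_cons (j : ZMod p) (l : List (ZMod p)) : pr (j :: l) = e j * pr l := by
  rw [pr, List.map_cons, List.prod_cons, pr]

/-- The value of a chain. -/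
noncomputable def pl : Ch p (ZMod p) →ₗ[ZMod p] A p :=
  Finsupp.linearCombination (ZMod p) pr

theorem pl_single (l : List (ZMod p)) (a : ZMod p) : pl (single l a) = a • pr l := by
  rw [pl, Finsupp.linearCombination_single]

theorem pl_cone (v : ZMod p) (c : Ch p (ZMod p)) : pl (cone v c) = e v * pl c := by
  induction c using Finsupp.induction_linear with
  | zero => simp
  | add f g hf hg => rw [map_add, map_add, map_add, hf, hg, mul_add]
  | single l a => rw [cone_single, pl_single, pl_single, pr_cons, mul_smul_comm]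

theorem pr_map (l : List (ZMod p)) : pr (l.map (fun j => j - 1)) = G (pr l) := by
  induction l with
  | nil => rw [List.map_nil, pr_nil, map_one]
  | cons j l ih => rw [List.map_cons, pr_cons, pr_cons, map_mul, G_e, ih]

theorem pl_push (c : Ch p (ZMod p)) : pl (push (fun j => j - 1) c) = G (pl c) := by
  induction c using Finsupp.induction_linear with
  | zero => simp
  | add f g hf hg => rw [map_add, map_add, map_add, hf, hg, map_add]
  | single l a => rw [push_single, pl_single, pl_single, pr_map, map_smul]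

theorem pl_push_pow (k : ℕ) (c : Ch p (ZMod p)) :
    pl (((push (fun j : ZMod p => j - 1) : Ch p (ZMod p) →ₗ[ZMod p] Ch p (ZMod p)) ^ k) c) =
      (G : A p →ₐ[ZMod p] A p)^[k] (pl c) := by
  induction k with
  | zero => simp
  | succ k ih =>
    rw [pow_succ', Module.End.mul_apply, pl_push, ih, Function.iterate_succ_apply']

theorem pl_bd [Fact p.Prime] (l : List (ZMod p)) : pl (bd p l) = ∑ j : ZMod p, ct j (pr l) := by
  induction l with
  | nil =>
    rw [bd, map_zero]
    refine (Finset.sum_eq_zero fun j _ => ?_).symm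
    rw [pr_nil, ct_one]
  | cons v l ih =>
    rw [bd, map_sub, pl_single, one_smul, pl_cone, ih, Finset.mul_sum]
    have h1 : ∀ j : ZMod p, ct j (pr (v :: l)) = (if j = v then pr l else 0) - e v * ct j (pr l) :=
      fun j => by rw [pr_cons, ct_mul]
    rw [Finset.sum_congr rfl fun j _ => h1 j, Finset.sum_sub_distrib, Finset.sum_ite_eq' Finset.univ v,
      if_pos (Finset.mem_univ _)]

/-- Iterated contraction. -/
noncomputable def ctr : List (ZMod p) → A p →ₗ[ZMod p] A p
  | [] => LinearMap.id
  | (j :: L) => (ctr L).comp (ct j)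

theorem ctr_nil (x : A p) : ctr [] x = x := rfl

theorem ctr_cons (j : ZMod p) (L : List (ZMod p)) (x : A p) : ctr (j :: L) x = ctr L (ct j x) :=
  rfl

theorem ctr_append (L L' : List (ZMod p)) (x : A p) : ctr (L ++ L') x = ctr L' (ctr L x) := by
  induction L generalizing x with
  | nil => rfl
  | cons j L ih => rw [List.cons_append, ctr_cons, ctr_cons, ih]

theorem ctr_ct (L : List (ZMod p)) (j : ZMod p) (x : A p) :
    ctr L (ct j x) = ((-1 : ZMod p) ^ L.length) • ct j (ctr L x) := by
  induction L generalizing x with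
  | nil => rw [ctr_nil, ctr_nil, List.length_nil, pow_zero, one_smul]
  | cons i L ih =>
    rw [ctr_cons, ctr_cons, ct_comm i j, map_neg, ih, List.length_cons, pow_succ, mul_neg_one,
      neg_smul]

theorem ctr_kill {L : List (ZMod p)} {j : ZMod p} (hj : j ∈ L) {x : A p} (hx : ct j x = 0) :
    ctr L x = 0 := by
  induction L generalizing x with
  | nil => cases hj
  | cons i L ih =>
    rw [ctr_cons]
    rcases List.mem_cons.1 hj with h | h
    · rw [← h, hx, map_zero]
    · refine ih h ?_
      rw [ct_comm, hx, map_zero, neg_zero]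

theorem ct_pr {j : ZMod p} {l : List (ZMod p)} (h : j ∉ l) : ct j (pr l) = 0 := by
  induction l with
  | nil => rw [pr_nil, ct_one]
  | cons i l ih =>
    rw [List.mem_cons, not_or] at h
    rw [pr_cons, ct_mul, if_neg h.1, ih h.2, mul_zero, sub_zero]

theorem e_pr {j : ZMod p} {l : List (ZMod p)} (h : j ∈ l) : e j * pr l = 0 := by
  induction l with
  | nil => cases h
  | cons i l ih =>
    rw [pr_cons, ← mul_assoc]
    rcases List.mem_cons.1 h with h | h
    · rw [h, e_sq, zero_mul]
    · rw [e_swap, neg_mul, mul_assoc, ih h, mul_zero, neg_zero]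

theorem nodup_of_pr {l : List (ZMod p)} (h : pr l ≠ 0) : l.Nodup := by
  induction l with
  | nil => exact List.nodup_nil
  | cons i l ih =>
    rw [pr_cons] at h
    rw [List.nodup_cons]
    exact ⟨fun hi => h (e_pr hi), ih fun h0 => h (by rw [h0, mul_zero])⟩

theorem ctr_rot (j : ZMod p) (L : List (ZMod p)) (x : A p) :
    ctr (j :: L) x = ((-1 : ZMod p) ^ L.length) • ctr (L ++ [j]) x := by
  rw [ctr_cons, ctr_ct, ctr_append, ctr_cons, ctr_nil]

theorem ctr_G (L : List (ZMod p)) (x : A p) :
    ctr L (G x) = G (ctr (L.map (fun j => j + 1)) x) := by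
  induction L generalizing x with
  | nil => rfl
  | cons j L ih => rw [ctr_cons, ct_G, ih, List.map_cons, ctr_cons]

theorem ctr_pr {L : List (ZMod p)} (h : L.Nodup) : ctr L (pr L) = 1 := by
  induction L with
  | nil => rfl
  | cons j L ih =>
    rw [List.nodup_cons] at h
    rw [ctr_cons, pr_cons, ct_mul, if_pos rfl, ct_pr h.1, mul_zero, sub_zero, ih h.2]

/-- All labels in order. -/
def L0 (p : ℕ) : List (ZMod p) := (List.range p).map (fun i : ℕ => (i : ZMod p))

theorem mem_L0 [Fact p.Prime] (j : ZMod p) : j ∈ L0 p := by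
  rw [L0, List.mem_map]
  exact ⟨j.val, List.mem_range.2 (ZMod.val_lt j), ZMod.natCast_zmod_val j⟩

theorem nodup_L0 [Fact p.Prime] : (L0 p).Nodup := by
  rw [L0]
  refine List.Nodup.map_on ?_ List.nodup_range
  intro a ha b hb hab
  rw [List.mem_range] at ha hb
  have := congrArg ZMod.val hab
  rwa [ZMod.val_natCast_of_lt ha, ZMod.val_natCast_of_lt hb] at this

/-- The top coefficient. -/
noncomputable def top : A p →ₗ[ZMod p] ZMod p :=
  (ExteriorAlgebra.algebraMapInv : A p →ₐ[ZMod p] ZMod p).toLinearMap.comp (ctr (L0 p))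

theorem top_apply (x : A p) : top x = ExteriorAlgebra.algebraMapInv (ctr (L0 p) x) := rfl

theorem inv_G (x : A p) :
    (ExteriorAlgebra.algebraMapInv (G x) : ZMod p) = ExteriorAlgebra.algebraMapInv x := by
  have h : (ExteriorAlgebra.algebraMapInv : A p →ₐ[ZMod p] ZMod p).comp G =
      ExteriorAlgebra.algebraMapInv := by
    apply ExteriorAlgebra.hom_ext
    apply LinearMap.ext
    intro m
    simp [G, ExteriorAlgebra.algebraMapInv]
  exact DFunLike.congr_fun h x

theorem L0_eq [Fact p.Prime] :
    L0 p = (0 : ZMod p) :: (List.range (p - 1)).map (fun i : ℕ => ((i + 1 : ℕ) : ZMod p)) := by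
  have hp1 : 1 ≤ p := (Fact.out : p.Prime).one_lt.le
  have hr : List.range p = List.range ((p - 1) + 1) := by
    congr 1
    omega
  rw [L0, hr, List.range_succ_eq_map, List.map_cons, List.map_map, Nat.cast_zero]
  rfl

theorem L0_map [Fact p.Prime] : (L0 p).map (fun j => j + 1) =
    (List.range (p - 1)).map (fun i : ℕ => ((i + 1 : ℕ) : ZMod p)) ++ [0] := by
  have hp1 : 1 ≤ p := (Fact.out : p.Prime).one_lt.le
  have hr : List.range p = List.range ((p - 1) + 1) := by
    congr 1
    omega
  have h1 : ((p - 1 : ℕ) : ZMod p) + 1 = 0 := by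
    have : (((p - 1) + 1 : ℕ) : ZMod p) = 0 := by
      rw [Nat.sub_add_cancel hp1]
      exact ZMod.natCast_self p
    rwa [Nat.cast_add, Nat.cast_one] at this
  rw [L0, hr, List.map_map, List.range_succ, List.map_append, List.map_singleton]
  congr 1
  · refine List.map_congr_left fun i _ => ?_
    rw [Function.comp_apply, Nat.cast_add, Nat.cast_one]
  · rw [Function.comp_apply, h1]

theorem top_G [Fact p.Prime] (hp : p ≠ 2) (x : A p) : top (G x) = top x := by
  have hodd : Odd p := (Fact.out : p.Prime).odd_of_ne_two hp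
  have h3 : Even (p - 1) := by
    obtain ⟨m, hm⟩ := hodd
    exact ⟨m, by omega⟩
  rw [top_apply, top_apply, ctr_G, inv_G, L0_map]
  rw [L0_eq, ctr_rot, List.length_map, List.length_range, h3.neg_one_pow, one_smul]

theorem top_ct [Fact p.Prime] (j : ZMod p) (x : A p) : top (ct j x) = 0 := by
  rw [top_apply, ctr_kill (mem_L0 j) (ct_self j x), map_zero]

/-- The cochain. -/
noncomputable def rb (l : List (ZMod p)) : ZMod p := top (pr l)

theorem ev_rb (c : Ch p (ZMod p)) : ev rb c = top (pl c) := by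
  induction c using Finsupp.induction_linear with
  | zero => simp
  | add f g hf hg => rw [map_add, map_add, map_add, hf, hg]
  | single l a => rw [ev_single, pl_single, map_smul, rb, smul_eq_mul]

theorem rb_bd [Fact p.Prime] (l : List (ZMod p)) : ev rb (bd p l) = 0 := by
  rw [ev_rb, pl_bd, map_sum]
  exact Finset.sum_eq_zero fun j _ => top_ct j _

theorem rb_map [Fact p.Prime] (hp : p ≠ 2) (l : List (ZMod p)) :
    rb (l.map (fun j => j - 1)) = rb l := by
  rw [rb, pr_map, top_G hp, rb]

theorem rb_supp [Fact p.Prime] {l : List (ZMod p)} (h : rb l ≠ 0) :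
    l.length = p ∧ ∀ j, j ∈ l := by
  have h1 : pr l ≠ 0 := fun h0 => h (by rw [rb, h0, map_zero])
  have h2 : ∀ j, j ∈ l := by
    intro j
    by_contra hj
    exact h (by rw [rb, top_apply, ctr_kill (mem_L0 j) (ct_pr hj), map_zero])
  refine ⟨?_, h2⟩
  have h3 : l.toFinset = Finset.univ := by
    ext j
    simp [h2 j]
  rw [← List.toFinset_card_of_nodup (nodup_of_pr h1), h3, Finset.card_univ, ZMod.card]

/-- The standard sequence. -/
noncomputable def s (p : ℕ) : ℕ → Ch p (ZMod p)
  | 0 => single [0] 1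
  | (k + 1) => cone 0 (th (fun j => j - 1) (k + 1) (s p k))

theorem iter_id [Fact p.Prime] : (fun j : ZMod p => j - 1)^[p] = id := by
  funext x
  have h : ∀ k : ℕ, (fun j : ZMod p => j - 1)^[k] x = x - k := by
    intro k
    induction k with
    | zero => simp
    | succ k ih =>
      rw [Function.iterate_succ_apply', ih, Nat.cast_add, Nat.cast_one]
      ring
  rw [h, ZMod.natCast_self, sub_zero]
  rfl

theorem s_mem (k : ℕ) : s p k ∈ Sup p (fun l : List (ZMod p) => l.length = k + 1 ∧ True) := by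
  induction k with
  | zero => exact single_mem ⟨rfl, trivial⟩ 1
  | succ k ih =>
    rw [s]
    refine cone_mem 0 (fun l hl => ⟨?_, trivial⟩) (th_mem (P := fun _ => True)
      (fun l _ => trivial) (k + 1) (k + 1) ih)
    rw [List.length_cons, hl.1]

theorem D_s [Fact p.Prime] (k : ℕ) :
    D (s p (k + 1)) = th (fun j => j - 1) (k + 1) (s p k) := by
  induction k with
  | zero =>
    have h0 : D (s p 0) = single [] 1 := by
      rw [s, D_single, one_smul, bd, bd, map_zero, sub_zero]
    conv_lhs => rw [s]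
    rw [D_cone, D_th, h0, th_nil, map_zero, sub_zero]
  | succ k ih =>
    conv_lhs => rw [s]
    rw [D_cone, D_th, ih, th_th iter_id, map_zero, sub_zero]

theorem s_seq [Fact p.Prime] (m : ℕ) :
    IsSeq (fun j : ZMod p => j - 1) (fun _ => True) m 1 (s p) := by
  refine ⟨fun k _ => s_mem k, ?_, fun k _ => D_s k⟩
  rw [s, D_single, one_smul, bd, bd, map_zero, sub_zero]

/-- The cyclic form. -/
noncomputable def om (p : ℕ) [Fact p.Prime] : A p := ∑ x : ZMod p, e x * e (x - 1)

theorem comm_ee (i j k : ZMod p) : e i * (e j * e k) = (e j * e k) * e i := by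
  rw [← mul_assoc, e_swap i j, neg_mul, mul_assoc, e_swap i k, mul_neg, neg_neg, mul_assoc]

theorem comm_om [Fact p.Prime] (i : ZMod p) : e i * om p = om p * e i := by
  rw [om, Finset.mul_sum, Finset.sum_mul]
  exact Finset.sum_congr rfl fun x _ => comm_ee _ _ _

theorem G_om [Fact p.Prime] : G (om p) = om p := by
  rw [om, map_sum]
  have h1 : ∀ x : ZMod p, G (e x * e (x - 1)) = e (x - 1) * e (x - 1 - 1) := fun x => by
    rw [map_mul, G_e, G_e]
  rw [Finset.sum_congr rfl fun x _ => h1 x]
  exact Equiv.sum_comp (Equiv.subRight (1 : ZMod p)) (fun x => e x * e (x - 1))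

theorem sum_range_zmod [Fact p.Prime] {M : Type*} [AddCommMonoid M] (f : ZMod p → M) :
    ∑ j ∈ Finset.range p, f (j : ZMod p) = ∑ x : ZMod p, f x := by
  refine Finset.sum_bij (fun j _ => (j : ZMod p)) (fun j _ => Finset.mem_univ _) ?_ ?_
    (fun j _ => rfl)
  · intro a ha b hb hab
    rw [Finset.mem_range] at ha hb
    have := congrArg ZMod.val hab
    rwa [ZMod.val_natCast_of_lt ha, ZMod.val_natCast_of_lt hb] at this
  · intro b _
    exact ⟨b.val, Finset.mem_range.2 (ZMod.val_lt b), ZMod.natCast_zmod_val b⟩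

theorem G_iter [Fact p.Prime] (i j : ℕ) :
    (G : A p →ₐ[ZMod p] A p)^[j] (e 0 * e (-1) * om p ^ i) =
      e (-(j : ZMod p)) * e (-(j : ZMod p) - 1) * om p ^ i := by
  induction j with
  | zero => simp
  | succ j ih =>
    rw [Function.iterate_succ_apply', ih, map_mul, map_mul, map_pow, G_om, G_e, G_e, Nat.cast_add,
      Nat.cast_one, neg_add, ← sub_eq_add_neg]

theorem pl_s [Fact p.Prime] (i : ℕ) : pl (s p (2 * i)) = e 0 * om p ^ i ∧
    pl (s p (2 * i + 1)) = e 0 * e (-1) * om p ^ i := by
  have key : ∀ i, pl (s p (2 * i)) = e 0 * om p ^ i →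
      pl (s p (2 * i + 1)) = e 0 * e (-1) * om p ^ i := by
    intro i h
    have hodd : ¬ Even (2 * i + 1) := by
      rw [Nat.not_even_iff_odd]
      exact ⟨i, rfl⟩
    rw [s, pl_cone, th, if_neg hodd, LinearMap.sub_apply, LinearMap.id_apply, map_sub, pl_push, h,
      map_mul, G_e, map_pow, G_om, zero_sub, mul_sub, ← mul_assoc, ← mul_assoc, e_sq, zero_mul,
      sub_zero]
  induction i with
  | zero =>
    have h0 : pl (s p (2 * 0)) = e 0 * om p ^ 0 := by
      rw [mul_zero, s, pl_single, one_smul, pr_cons, pr_nil, pow_zero]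
    exact ⟨h0, key 0 h0⟩
  | succ i ih =>
    have h0 : pl (s p (2 * (i + 1))) = e 0 * om p ^ (i + 1) := by
      have heven : Even (2 * i + 1 + 1) := ⟨i + 1, by ring⟩
      rw [show 2 * (i + 1) = 2 * i + 1 + 1 by ring, s, pl_cone, th, if_pos heven, Nm,
        LinearMap.sum_apply, map_sum]
      have h1 : ∀ j ∈ Finset.range p, pl (((push (fun j : ZMod p => j - 1) :
          Ch p (ZMod p) →ₗ[ZMod p] Ch p (ZMod p)) ^ j) (s p (2 * i + 1))) =
          (e (-(j : ZMod p)) * e (-(j : ZMod p) - 1)) * om p ^ i := fun j _ => by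
        rw [pl_push_pow, ih.2, G_iter]
      have h2 : ∑ x : ZMod p, e (-x) * e (-x - 1) = om p :=
        Equiv.sum_comp (Equiv.neg (ZMod p)) (fun x : ZMod p => e x * e (x - 1))
      rw [Finset.sum_congr rfl h1, ← Finset.sum_mul,
        sum_range_zmod (fun x : ZMod p => e (-x) * e (-x - 1)), h2, pow_succ']
    exact ⟨h0, key (i + 1) h0⟩

/-- Products in order. -/
noncomputable def P (p n : ℕ) : A p := pr ((List.range n).map (fun i : ℕ => (i : ZMod p)))

theorem pr_append (l l' : List (ZMod p)) : pr (l ++ l') = pr l * pr l' := by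
  rw [pr, List.map_append, List.prod_append, pr, pr]

theorem P_succ (n : ℕ) : P p (n + 1) = P p n * e (n : ZMod p) := by
  rw [P, List.range_succ, List.map_append, pr_append, List.map_singleton, pr_cons, pr_nil, mul_one,
    P]

theorem P_mul {n j : ℕ} (h : j < n) : P p n * e (j : ZMod p) = 0 := by
  induction n with
  | zero => omega
  | succ n ih =>
    rw [P_succ, mul_assoc]
    rcases Nat.lt_succ_iff_lt_or_eq.1 h with h | h
    · rw [e_swap, mul_neg, ← mul_assoc, ih h, zero_mul, neg_zero]
    · rw [h, e_sq, mul_zero]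

/-- Edge forms. -/
noncomputable def Q (p i : ℕ) : A p := e ((i + 1 : ℕ) : ZMod p) * e (i : ZMod p)

/-- Path forms. -/
noncomputable def ps (p n : ℕ) : A p := ∑ j ∈ Finset.range n, Q p j

theorem ps_succ (n : ℕ) : ps p (n + 1) = ps p n + Q p n := by
  rw [ps, Finset.sum_range_succ, ps]

theorem comm_e_Q (j : ZMod p) (i : ℕ) : Commute (e j) (Q p i) := comm_ee _ _ _

theorem comm_QQ (i j : ℕ) : Commute (Q p i) (Q p j) :=
  Commute.mul_left (comm_e_Q _ _) (comm_e_Q _ _)

theorem comm_ps_Q (n i : ℕ) : Commute (ps p n) (Q p i) :=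
  Finset.sum_induction _ (fun x => Commute x (Q p i)) (fun _ _ => Commute.add_left)
    (Commute.zero_left _) (fun j _ => comm_QQ j i)

theorem comm_e_ps (j : ZMod p) (n : ℕ) : Commute (e j) (ps p n) :=
  Finset.sum_induction _ (fun x => Commute (e j) x) (fun _ _ => Commute.add_right)
    (Commute.zero_right _) (fun i _ => comm_e_Q j i)

theorem Q_sq (i : ℕ) : Q p i * Q p i = 0 := by
  have h := comm_e_Q ((i : ℕ) : ZMod p) i
  have h' : e ((i : ℕ) : ZMod p) * Q p i = 0 := by
    rw [h.eq, Q, mul_assoc, e_sq, mul_zero]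
  nth_rewrite 1 [Q]
  rw [mul_assoc, h', mul_zero]

theorem Q_succ_mul (i : ℕ) : Q p i * Q p (i + 1) = 0 := by
  have h := comm_e_Q ((i : ℕ) : ZMod p) (i + 1)
  have h' : e ((i + 1 : ℕ) : ZMod p) * Q p (i + 1) = 0 := by
    rw [(comm_e_Q ((i + 1 : ℕ) : ZMod p) (i + 1)).eq, Q, mul_assoc, e_sq, mul_zero]
  nth_rewrite 1 [Q]
  rw [mul_assoc, h.eq, ← mul_assoc, h', zero_mul]

theorem add_pow_sq {R : Type*} [Ring R] {a x : R} (h : Commute a x) (hx : x * x = 0) (n : ℕ) :
    (a + x) ^ (n + 1) = a ^ (n + 1) + (n + 1 : ℕ) • (a ^ n * x) := by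
  induction n with
  | zero => simp
  | succ n ih =>
    have h1 : a ^ n * x * a = a ^ (n + 1) * x := by
      rw [mul_assoc, ← h.eq, ← mul_assoc, ← pow_succ]
    have h2 : a ^ n * x * x = 0 := by rw [mul_assoc, hx, mul_zero]
    rw [pow_succ, ih, add_mul, mul_add, mul_add, ← pow_succ, smul_mul_assoc, smul_mul_assoc, h1, h2,
      smul_zero, add_zero, add_assoc]
    congr 1
    rw [add_comm, ← succ_nsmul]

theorem pow_mul_congr {R : Type*} [Ring R] {a b x : R} (h : a * x = b * x) (hx : Commute b x)
    (n : ℕ) : a ^ n * x = b ^ n * x := by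
  induction n with
  | zero => simp
  | succ n ih =>
    rw [pow_succ, mul_assoc, h, hx.eq, ← mul_assoc, ih, mul_assoc, ← hx.eq, ← mul_assoc, ← pow_succ]

theorem P_ps {n m : ℕ} (h : n < m) : P p m * ps p n = 0 := by
  rw [ps, Finset.mul_sum]
  refine Finset.sum_eq_zero fun j hj => ?_
  rw [Finset.mem_range] at hj
  rw [Q, ← mul_assoc, P_mul (by omega), zero_mul]

theorem path (k : ℕ) : e 0 * ps p (2 * k) ^ k =
    (((-1 : ZMod p) ^ k * (k.factorial : ZMod p))) • P p (2 * k + 1) := by
  induction k with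
  | zero =>
    rw [mul_zero, pow_zero, pow_zero, mul_one, Nat.factorial_zero, Nat.cast_one, mul_one, one_smul,
      zero_add, P_succ, P, List.range_zero, List.map_nil, pr_nil, one_mul, Nat.cast_zero]
  | succ k ih =>
    have hB : e 0 * ps p (2 * k + 1) ^ (k + 1) = 0 := by
      rw [ps_succ, add_pow_sq (comm_ps_Q _ _) (Q_sq _), mul_add, mul_smul_comm, pow_succ,
        ← mul_assoc, ← mul_assoc, ih, smul_mul_assoc, smul_mul_assoc, P_ps (by omega), smul_zero,
        zero_add, Q, e_swap, mul_neg, ← mul_assoc, P_mul (by omega), zero_mul, neg_zero, smul_zero,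
        smul_zero]
    have h1 : ps p (2 * k + 1) ^ k * Q p (2 * k + 1) = ps p (2 * k) ^ k * Q p (2 * k + 1) := by
      refine pow_mul_congr ?_ (comm_ps_Q _ _) k
      rw [ps_succ, add_mul, Q_succ_mul, add_zero]
    rw [show 2 * (k + 1) = 2 * k + 1 + 1 by ring, ps_succ,
      add_pow_sq (comm_ps_Q _ _) (Q_sq _), mul_add, hB, zero_add, mul_smul_comm, h1, ← mul_assoc,
      ih, smul_mul_assoc, Q, e_swap, mul_neg, ← mul_assoc, ← P_succ, ← P_succ, smul_neg,
      ← Nat.cast_smul_eq_nsmul (ZMod p), smul_neg, smul_smul, ← neg_smul]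
    congr 1
    rw [Nat.factorial_succ, pow_succ]
    push_cast
    ring

theorem e_om [Fact p.Prime] : e 0 * om p = e 0 * ps p (p - 1) := by
  have hp1 : 1 ≤ p := (Fact.out : p.Prime).one_lt.le
  have hr : Finset.range p = Finset.range ((p - 1) + 1) := by
    congr 1
    omega
  rw [om, ← sum_range_zmod, hr, Finset.sum_range_succ', mul_add, Nat.cast_zero, ← mul_assoc (e 0),
    e_sq, zero_mul, add_zero, ps]
  congr 1
  refine Finset.sum_congr rfl fun j _ => ?_
  rw [Q, Nat.cast_add, Nat.cast_one, add_sub_cancel_right]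

theorem e_om_pow [Fact p.Prime] (i : ℕ) : e 0 * om p ^ i = e 0 * ps p (p - 1) ^ i := by
  induction i with
  | zero => rw [pow_zero, pow_zero]
  | succ i ih =>
    have h1 : Commute (e 0) (ps p (p - 1) ^ i) := (comm_e_ps 0 (p - 1)).pow_right i
    rw [pow_succ, ← mul_assoc, ih, h1.eq, mul_assoc, e_om, ← mul_assoc, ← h1.eq, mul_assoc,
      ← pow_succ]

theorem top_P [Fact p.Prime] : top (P p p) = 1 := by
  have h : P p p = pr (L0 p) := rfl
  rw [h, top_apply, ctr_pr nodup_L0, map_one]

theorem cc_ne [Fact p.Prime] (hp : p ≠ 2) : ev rb (s p (p - 1)) ≠ 0 := by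
  obtain ⟨m, hm⟩ := (Fact.out : p.Prime).odd_of_ne_two hp
  have h1 : p - 1 = 2 * m := by omega
  rw [ev_rb, h1, (pl_s m).1, e_om_pow, h1, path, map_smul, ← hm, top_P, smul_eq_mul, mul_one]
  refine mul_ne_zero (pow_ne_zero _ (neg_ne_zero.2 one_ne_zero)) ?_
  rw [Ne, ZMod.natCast_eq_zero_iff, (Fact.out : p.Prime).dvd_factorial]
  omega

end RainbowAux

open RainbowAux

/-- There is a cochain `rb` on lists of labels, nonzero only on lists which contain every
label exactly once, closed, invariant under the shift, and its value at the top of every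
sequence in the space of labels is a nonzero constant times the augmentation. -/
theorem exists_rb (p : ℕ) [Fact p.Prime] (hp : p ≠ 2) :
    ∃ (rb : List (ZMod p) → ZMod p) (cc : ZMod p), cc ≠ 0 ∧
      (∀ l, rb l ≠ 0 → l.length = p ∧ ∀ j, j ∈ l) ∧
      (∀ l, ev rb (bd p l) = 0) ∧
      (∀ l, rb (l.map (fun j => j - 1)) = rb l) ∧
      ∀ (b : ZMod p) (y : ℕ → Ch p (ZMod p)),
        IsSeq (fun j : ZMod p => j - 1) (fun _ => True) (p - 1) b y →
        ev rb (y (p - 1)) = b * cc := by
  refine ⟨rb, ev rb (s p (p - 1)), cc_ne hp, fun l hl => rb_supp hl, rb_bd, rb_map hp, ?_⟩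
  intro b y hy
  have h1 := hy.comb (s_seq (p := p) (p - 1)) 1 b
  have h2 : (1 : ZMod p) * b - b * 1 = 0 := by ring
  rw [h2] at h1
  have h3 := IsSeq.ev_zero (iter_id (p := p)) (0 : ZMod p) (fun _ _ => trivial)
    (fun _ _ => trivial) (u := rb) (fun l _ => rb_map hp l) (fun l _ => rb_bd l) h1
  rw [map_sub, map_smul, map_smul, one_smul, smul_eq_mul, sub_eq_zero] at h3
  exact h3

end Pool.Agent.Lib.P23Z
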