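import Pool.Agent.Lib.P23Z.Rainbow
import Pool.Agent.Lib.P23Z.Label
import Pool.Agent.Lib.P23Z.Comp
import Pool.Agent.Lib.P23Z.AdmL
import Pool.Agent.Lib.P23Z.Cap

/-! The three cochains.
PROOF. rb, cc from `exists_rb`, α from `exists_label`. ea l = rb (l.map α). M w =
f (ζ^(α w) w) = max_j f(ζ^j w); h w = M w - M (I w). For w in K: M (ζ w) = M w, M (-w) = M w
(max over the same values), so h (ζ w) = h w and h (I w) = - h w (M (I (I w)) = M (-w) = M w).
η from `exists_gap`; δ from `exists_unif` with ε = η/16. Then for w, w' in K with dist ≤ δ: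
|M w - M w'| ≤ ε, |h w - h w'| ≤ 2ε. e l = ea ((l.drop (p-1)).map I) * ea (l.take p)
(p = p - 1 + 1). ep l = if 0 < h (head of l) then e l else 0, em l = if h (head) < 0 then e l
else 0 (head of [] arbitrary, e.g. 0; e [] = 0).
SUPPORT CLAIM: l admissible, Close δ, e l ≠ 0 (or only: ea (sublist of l) ≠ 0 and
ea (I sublist of l) ≠ 0) ⇒ η/2 ≤ |h w| for all w in l. Indeed all labels j occur as α (w_i),
so f(ζ^j w_i) = M w_i, hence M w - 2ε ≤ f(ζ^j w) ≤ M w for all j and w in l; in the same way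
M(Iw) - 2ε ≤ f(I ζ^j w) ≤ M(Iw). If |h w| < η/2 then all 2p values at w are within
η/2 + 2ε + 2ε < η, contradicting `exists_gap`. (values with I^a ζ^j, a < 2.)
closed ea: ev ea (bd l) = ev rb (bd (l.map α)) = 0 (`ev_push`, `D_push`). Invariance: labels
shift by -1 on nonzero points (`adm_K`, `K_ne_zero`), and I commutes with ζ. Sequences: push
by α and `IsSeq.map` (equivariance only on Sup (Adm n n): `lin_congr`). e is closed: for one
list l of length (2p-2)+2: e = ev ea of cap (p-1) eb with eb = ea ∘ I (see Cap.lean `ev_cap`,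
`D_cap`; or directly), for other lengths every face has e = 0 because rb ≠ 0 forces the lengths
p and p, total 2p-1 (take/drop lengths). closed ep on small lists: if every face has e = 0
clear; otherwise some face has e ≠ 0, so |h| ≥ η/2 at its points, and |h w - h w'| ≤ 2ε < η/2
shows that h has the same sign at all points of l (l itself is Close δ), so ep = e or ep = 0 on
all faces. ep + em = e: if e l ≠ 0 then h (head) ≠ 0. Disjointness: let ep (l.take (m+1)) ≠ 0
and ep ((l.drop m).map I) ≠ 0. The first gives h (head l) > 0, so ≥ η/2 (support claim); the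
second gives 0 < h (I w) = - h w for w = head of l.drop m, with |h w| ≥ η/2 (support claim for
the list (l.drop m).map I, admissible and close by `adm_mul`, `close_mul`); but
|h w - h (head l)| ≤ 2ε. Contradiction. em: same with the signs exchanged. You may import
Pool.Agent.Lib.P23Z.Cap. -/

namespace Pool.Agent.Lib.P23Z

open Finsupp

namespace SplitAux

variable {p : ℕ} {n : ℕ}

theorem adm_sub {s : ℕ} {l l' : List (W n)} (h : Adm n s l) (hs : ∀ x ∈ l', x ∈ l) :
    Adm n s l' := by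
  obtain ⟨c, hc, h⟩ := h
  exact ⟨c, hc, fun w hw => h w (hs w hw)⟩

theorem mul_mul (z z' : ℂ) (w : W n) : mul n z (mul n z' w) = mul n (z * z') w := by
  simp only [mul, smul_smul]

theorem mul_neg (z : ℂ) (w : W n) : mul n z (-w) = - mul n z w := by
  simp only [mul, smul_neg]

theorem mul_I_I (w : W n) : mul n Complex.I (mul n Complex.I w) = -w := by
  rw [mul_mul, Complex.I_mul_I]
  simp [mul]

theorem ev_map_zero {V V' : Type*} (φ : V → V') (u : List V' → ZMod p)
    (hu : ∀ l, ev u (bd p l) = 0) (l : List V) : ev (fun l => u (l.map φ)) (bd p l) = 0 := by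
  rw [← ev_push, ← ChainAux.bd_map]
  exact hu _

/-- The product cochain is closed. -/
theorem ev_e {V : Type*} (k : ℕ) (u v : List V → ZMod p)
    (hu : ∀ l, ev u (bd p l) = 0) (hv : ∀ l, ev v (bd p l) = 0)
    (hlen : ∀ l : List V, u (l.drop k) * v (l.take (k + 1)) ≠ 0 → l.length = k + k + 1)
    (l : List V) : ev (fun l => u (l.drop k) * v (l.take (k + 1))) (bd p l) = 0 := by
  by_cases hl : l.length = k + k + 2
  · have h1 : bd p l ∈ Sup p (fun l : List V => l.length = k + k + 1 ∧ True) :=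
      Sup_mono (fun l' h => ⟨by have := h.1; omega, trivial⟩) (bd_mem l)
    rw [← ev_cap k k u v h1]
    have h2 : (single l 1 : Ch p V) ∈ Sup p (fun l : List V => l.length = k + k + 2 ∧ True) :=
      single_mem ⟨hl, trivial⟩ 1
    have h3 := D_cap (P := fun _ => True) (fun _ _ _ _ => trivial) k k
      (u := u) (fun l _ _ => hu l) h2
    rw [D_single, one_smul] at h3
    rw [← h3]
    have h4 := lin_congr (F := (ev v).comp D) (F' := 0) (P := fun _ : List V => True)
      (c := cap k u (single l 1)) (fun l _ => by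
        rw [LinearMap.comp_apply, D_single, one_smul, hv l, LinearMap.zero_apply]) (mem_top _)
    exact h4
  · refine ev_eq_zero (P := fun l' => l'.length + 1 = l.length ∧ l'.Sublist l) ?_ (bd_mem l)
    intro l' hl'
    by_contra hne
    have := hlen l' hne
    have := hl'.1
    omega

/-- maximal value on the orbit -/
noncomputable def Mx (f : W n → ℝ) (ζ : ℂ) (α : W n → ZMod p) (w : W n) : ℝ :=
  f (mul n (ζ ^ (α w).val) w)

theorem ne_mul {z : ℂ} (hz : z ≠ 0) {w : W n} (hw : w ≠ 0) : mul n z w ≠ 0 := by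
  simp only [mul]
  exact smul_ne_zero hz hw

section analysis

variable {f : W n → ℝ} {ζ : ℂ} {α : W n → ZMod p}

theorem Mx_zeta [Fact p.Prime] (hζ : ζ ^ p = 1)
    (hM : ∀ w, w ≠ 0 → ∀ j : ℕ, f (mul n (ζ ^ j) w) ≤ Mx f ζ α w) (hz : ζ ≠ 0) {w : W n}
    (hw : w ≠ 0) : Mx f ζ α (mul n ζ w) = Mx f ζ α w := by
  apply le_antisymm
  · have h := hM w hw ((α (mul n ζ w)).val + 1)
    rw [pow_succ, ← mul_mul] at h
    exact h
  · have h := hM (mul n ζ w) (ne_mul hz hw) ((α w).val + (p - 1))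
    rw [mul_mul, ← pow_succ] at h
    have hp := (Fact.out : p.Prime).pos
    have h2 : (α w).val + (p - 1) + 1 = (α w).val + p := by omega
    rw [h2, pow_add, hζ, mul_one] at h
    exact h

theorem Mx_neg (hev : ∀ w, f (-w) = f w) (hα : ∀ w, w ≠ 0 → α (-w) = α w) {w : W n}
    (hw : w ≠ 0) : Mx f ζ α (-w) = Mx f ζ α w := by
  unfold Mx
  rw [hα w hw, mul_neg, hev]

/-- the difference of the two maxima -/
noncomputable def hh (f : W n → ℝ) (ζ : ℂ) (α : W n → ZMod p) (w : W n) : ℝ :=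
  Mx f ζ α w - Mx f ζ α (mul n Complex.I w)

theorem hh_zeta [Fact p.Prime] (hζ : ζ ^ p = 1)
    (hM : ∀ w, w ≠ 0 → ∀ j : ℕ, f (mul n (ζ ^ j) w) ≤ Mx f ζ α w) (hz : ζ ≠ 0) {w : W n}
    (hw : w ≠ 0) : hh f ζ α (mul n ζ w) = hh f ζ α w := by
  unfold hh
  rw [Mx_zeta hζ hM hz hw, mul_mul, mul_comm, ← mul_mul,
    Mx_zeta hζ hM hz (ne_mul Complex.I_ne_zero hw)]

theorem hh_I (hev : ∀ w, f (-w) = f w) (hα : ∀ w, w ≠ 0 → α (-w) = α w) {w : W n}
    (hw : w ≠ 0) : hh f ζ α (mul n Complex.I w) = - hh f ζ α w := by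
  unfold hh
  rw [mul_I_I, Mx_neg hev hα hw]
  ring

theorem Mx_le {δ ε : ℝ} (hζ1 : ‖ζ‖ = 1)
    (hM : ∀ w, w ≠ 0 → ∀ j : ℕ, f (mul n (ζ ^ j) w) ≤ Mx f ζ α w)
    (hδ : ∀ w ∈ K n, ∀ w' ∈ K n, dist w w' ≤ δ → ∀ z : ℂ, ‖z‖ = 1 →
      |f (mul n z w) - f (mul n z w')| ≤ ε) {w w' : W n} (hw : w ∈ K n) (hw' : w' ∈ K n)
    (hd : dist w w' ≤ δ) : Mx f ζ α w ≤ Mx f ζ α w' + ε := by
  have h1 := hM w' (K_ne_zero hw') (α w).val
  have h2 := hδ w hw w' hw' hd (ζ ^ (α w).val) (by rw [norm_pow, hζ1, one_pow])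
  have h3 := (abs_le.1 h2).2
  unfold Mx at h1 ⊢
  linarith

theorem dist_I {w w' : W n} : dist (mul n Complex.I w) (mul n Complex.I w') = dist w w' := by
  simp only [mul]
  rw [dist_smul₀, Complex.norm_I, one_mul]

theorem hh_close {δ ε : ℝ} (hζ1 : ‖ζ‖ = 1)
    (hM : ∀ w, w ≠ 0 → ∀ j : ℕ, f (mul n (ζ ^ j) w) ≤ Mx f ζ α w)
    (hδ : ∀ w ∈ K n, ∀ w' ∈ K n, dist w w' ≤ δ → ∀ z : ℂ, ‖z‖ = 1 →
      |f (mul n z w) - f (mul n z w')| ≤ ε) {w w' : W n} (hw : w ∈ K n) (hw' : w' ∈ K n)
    (hd : dist w w' ≤ δ) : hh f ζ α w ≤ hh f ζ α w' + 2 * ε := by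
  have h1 := Mx_le hζ1 hM hδ hw hw' hd
  have h2 := Mx_le hζ1 hM hδ (mul_mem_K Complex.norm_I hw') (mul_mem_K Complex.norm_I hw)
    (by rw [dist_I, dist_comm]; exact hd)
  unfold hh
  linarith

theorem supp {δ η : ℝ} [Fact p.Prime] (hζ1 : ‖ζ‖ = 1) (hη : 0 < η)
    (hM : ∀ w, w ≠ 0 → ∀ j : ℕ, f (mul n (ζ ^ j) w) ≤ Mx f ζ α w)
    (hδ : ∀ w ∈ K n, ∀ w' ∈ K n, dist w w' ≤ δ → ∀ z : ℂ, ‖z‖ = 1 →
      |f (mul n z w) - f (mul n z w')| ≤ η / 16)
    (hgap : ∀ w ∈ K n, ∃ a a' j j' : ℕ, a < 2 ∧ a' < 2 ∧ j < p ∧ j' < p ∧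
      η ≤ f (mul n (Complex.I ^ a * ζ ^ j) w) - f (mul n (Complex.I ^ a' * ζ ^ j') w))
    {l : List (W n)} (hA : Adm n n l) (hC : Close n δ l)
    (h1 : ∀ j : ZMod p, ∃ w ∈ l, α w = j)
    (h2 : ∀ j : ZMod p, ∃ w ∈ l, α (mul n Complex.I w) = j) :
    ∀ w ∈ l, η / 2 ≤ |hh f ζ α w| := by
  intro w hw
  have hwK := adm_K hA w hw
  have hw0 := K_ne_zero hwK
  have hIK := mul_mem_K (n := n) Complex.norm_I hwK
  have hup : ∀ a j : ℕ, a < 2 → f (mul n (Complex.I ^ a * ζ ^ j) w) ≤
      if a = 0 then Mx f ζ α w else Mx f ζ α (mul n Complex.I w) := by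
    intro a j ha
    have ha' : a = 0 ∨ a = 1 := by omega
    rcases ha' with rfl | rfl
    · rw [if_pos rfl, pow_zero, one_mul]
      exact hM w hw0 j
    · rw [if_neg one_ne_zero, pow_one, mul_comm, ← mul_mul]
      exact hM _ (K_ne_zero hIK) j
  have hlo : ∀ a j : ℕ, a < 2 → j < p → (if a = 0 then Mx f ζ α w else
      Mx f ζ α (mul n Complex.I w)) - 2 * (η / 16) ≤ f (mul n (Complex.I ^ a * ζ ^ j) w) := by
    intro a j ha hj
    have ha' : a = 0 ∨ a = 1 := by omega
    rcases ha' with rfl | rfl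
    · rw [if_pos rfl, pow_zero, one_mul]
      obtain ⟨v, hv, hvj⟩ := h1 (j : ZMod p)
      have hvK := adm_K hA v hv
      have e1 : (α v).val = j := by rw [hvj, ZMod.val_natCast_of_lt hj]
      have e2 : Mx f ζ α v = f (mul n (ζ ^ j) v) := by unfold Mx; rw [e1]
      have e3 := Mx_le hζ1 hM hδ hwK hvK (hC w hw v hv)
      have e4 := hδ v hvK w hwK (hC v hv w hw) (ζ ^ j) (by rw [norm_pow, hζ1, one_pow])
      have e5 := (abs_le.1 e4).2
      linarith
    · rw [if_neg one_ne_zero, pow_one, mul_comm Complex.I, ← mul_mul]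
      obtain ⟨v, hv, hvj⟩ := h2 (j : ZMod p)
      have hvK := mul_mem_K (n := n) Complex.norm_I (adm_K hA v hv)
      have e1 : (α (mul n Complex.I v)).val = j := by rw [hvj, ZMod.val_natCast_of_lt hj]
      have e2 : Mx f ζ α (mul n Complex.I v) = f (mul n (ζ ^ j) (mul n Complex.I v)) := by
        unfold Mx; rw [e1]
      have e3 := Mx_le hζ1 hM hδ hIK hvK (by rw [dist_I]; exact hC w hw v hv)
      have e4 := hδ _ hvK _ hIK (by rw [dist_I]; exact hC v hv w hw) (ζ ^ j)
        (by rw [norm_pow, hζ1, one_pow])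
      have e5 := (abs_le.1 e4).2
      linarith
  by_contra hlt
  rw [not_le] at hlt
  obtain ⟨a, a', j, j', ha, ha', hj, hj', hg⟩ := hgap w hwK
  have u1 := hup a j ha
  have u2 := hlo a' j' ha' hj'
  have u3 := abs_lt.1 hlt
  unfold hh at u3
  by_cases c1 : a = 0 <;> by_cases c2 : a' = 0 <;> simp only [c1, c2, if_true, if_false] at u1 u2
  all_goals first
    | (rw [c1] at hg; rw [c2] at hg; linarith [u3.1, u3.2])
    | (rw [c1] at hg; linarith [u3.1, u3.2])
    | (rw [c2] at hg; linarith [u3.1, u3.2])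
    | linarith [u3.1, u3.2]

end analysis

section halves

/-- The half of `e` on which `s * h` is positive at the first point. -/
noncomputable def es (h : W n → ℝ) (e : List (W n) → ZMod p) (s : ℝ) (l : List (W n)) :
    ZMod p := by
  classical exact if 0 < s * h (l.headD 0) then e l else 0

theorem es_ne {h : W n → ℝ} {e : List (W n) → ZMod p} {s : ℝ} {l : List (W n)}
    (hne : es h e s l ≠ 0) : 0 < s * h (l.headD 0) ∧ e l ≠ 0 := by
  classical
  unfold es at hne
  by_cases hc : 0 < s * h (l.headD 0)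
  · rw [if_pos hc] at hne
    exact ⟨hc, hne⟩
  · rw [if_neg hc] at hne
    exact absurd rfl hne

theorem es_pos {h : W n → ℝ} {e : List (W n) → ZMod p} {s : ℝ} {l : List (W n)}
    (hc : 0 < s * h (l.headD 0)) : es h e s l = e l := by
  classical
  unfold es
  rw [if_pos hc]

theorem es_neg {h : W n → ℝ} {e : List (W n) → ZMod p} {s : ℝ} {l : List (W n)}
    (hc : ¬ 0 < s * h (l.headD 0)) : es h e s l = 0 := by
  classical
  unfold es
  rw [if_neg hc]

theorem es_map {h : W n → ℝ} {e : List (W n) → ZMod p} {s : ℝ} {z : ℂ}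
    (hh : ∀ w ∈ K n, h (mul n z w) = h w) (he : ∀ l, Adm n n l → e (l.map (mul n z)) = e l)
    (l : List (W n)) (hl : Adm n n l) : es h e s (l.map (mul n z)) = es h e s l := by
  cases l with
  | nil => rfl
  | cons v l =>
    have h1 : h (((v :: l).map (mul n z)).headD 0) = h ((v :: l).headD 0) :=
      hh v (adm_K hl v (List.mem_cons_self ..))
    have h2 := he _ hl
    by_cases hc : 0 < s * h ((v :: l).headD 0)
    · rw [es_pos hc, es_pos (by rw [h1]; exact hc), h2]
    · rw [es_neg hc, es_neg (by rw [h1]; exact hc)]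

theorem headD_mem {l : List (W n)} (hl : l ≠ []) : l.headD 0 ∈ l := by
  cases l with
  | nil => exact absurd rfl hl
  | cons v l => exact List.mem_cons_self ..

/-- `SC`: whenever `e` does not vanish on some sublist, `|h|` is at least `η / 2` on the list. -/
theorem es_closed {h : W n → ℝ} {e : List (W n) → ZMod p} {s δ η : ℝ} (hη : 0 < η)
    (hs : s = 1 ∨ s = -1)
    (hnil : e [] = 0)
    (hclosed : ∀ l, ev e (bd p l) = 0)
    (hcl : ∀ w ∈ K n, ∀ w' ∈ K n, dist w w' ≤ δ → h w ≤ h w' + 2 * (η / 16))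
    (SC : ∀ l l', Adm n n l → Close n δ l → (∀ x ∈ l', x ∈ l) → e l' ≠ 0 →
      ∀ w ∈ l, η / 2 ≤ |h w|)
    (l : List (W n)) (hA : Adm n n l) (hC : Close n δ l) : ev (es h e s) (bd p l) = 0 := by
  by_cases hz : ∀ l', (l'.length + 1 = l.length ∧ l'.Sublist l) → e l' = 0
  · refine ev_eq_zero (P := fun l' => l'.length + 1 = l.length ∧ l'.Sublist l) ?_ (bd_mem l)
    intro l' hl'
    by_contra hne
    exact (es_ne hne).2 (hz l' hl')
  · push Not at hz
    obtain ⟨l0, hl0, hne0⟩ := hz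
    have habs := SC l l0 hA hC (fun x hx => hl0.2.subset hx) hne0
    have hsame : ∀ w ∈ l, ∀ w' ∈ l, 0 < s * h w → 0 < s * h w' := by
      intro w hw w' hw' hpos
      have a1 := habs w hw
      have a2 := habs w' hw'
      have b1 := hcl w (adm_K hA w hw) w' (adm_K hA w' hw') (hC w hw w' hw')
      have b2 := hcl w' (adm_K hA w' hw') w (adm_K hA w hw) (hC w' hw' w hw)
      rcases hs with rfl | rfl
      · rw [one_mul] at hpos ⊢
        rw [abs_of_pos hpos] at a1
        by_contra hc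
        rw [not_lt] at hc
        rw [abs_of_nonpos hc] at a2
        linarith
      · have hpos' : h w < 0 := by linarith
        rw [abs_of_neg hpos'] at a1
        by_contra hc
        have hc' : 0 ≤ h w' := by linarith
        rw [abs_of_nonneg hc'] at a2
        linarith
    by_cases hex : ∃ w ∈ l, 0 < s * h w
    · obtain ⟨w, hw, hpos⟩ := hex
      have h1 : ev (es h e s) (bd p l) = ev e (bd p l) := by
        refine ev_congr (P := fun l' => l'.length + 1 = l.length ∧ l'.Sublist l) ?_ (bd_mem l)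
        intro l' hl'
        by_cases hn : l' = []
        · rw [hn, hnil]
          by_contra hne
          exact (es_ne hne).2 hnil
        · exact es_pos (hsame w hw _ (hl'.2.subset (headD_mem hn)) hpos)
      rw [h1]
      exact hclosed l
    · push Not at hex
      refine ev_eq_zero (P := fun l' => l'.length + 1 = l.length ∧ l'.Sublist l) ?_ (bd_mem l)
      intro l' hl'
      by_cases hn : l' = []
      · by_contra hne
        rw [hn] at hne
        exact (es_ne hne).2 hnil
      · exact es_neg (not_lt.2 (hex _ (hl'.2.subset (headD_mem hn))))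

theorem es_disj {h : W n → ℝ} {e : List (W n) → ZMod p} {s δ η : ℝ} (hη : 0 < η)
    (hs : s = 1 ∨ s = -1)
    (hnil : e [] = 0)
    (hcl : ∀ w ∈ K n, ∀ w' ∈ K n, dist w w' ≤ δ → h w ≤ h w' + 2 * (η / 16))
    (hI : ∀ w ∈ K n, h (mul n Complex.I w) = - h w)
    (SC : ∀ l l', Adm n n l → Close n δ l → (∀ x ∈ l', x ∈ l) → e l' ≠ 0 →
      ∀ w ∈ l, η / 2 ≤ |h w|)
    (l : List (W n)) (hA : Adm n n l) (hC : Close n δ l) (m : ℕ) :
    es h e s ((l.drop m).map (mul n Complex.I)) * es h e s (l.take (m + 1)) = 0 := by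
  by_contra hne
  have h1 := es_ne (left_ne_zero_of_mul hne)
  have h2 := es_ne (right_ne_zero_of_mul hne)
  have hd : l.drop m ≠ [] := by
    intro hd
    rw [hd] at h1
    exact h1.2 hnil
  have ht : l.take (m + 1) ≠ [] := by
    intro ht
    rw [ht] at h2
    exact h2.2 hnil
  have habs := SC l _ hA hC (fun x hx => List.mem_of_mem_take hx) h2.2
  obtain ⟨v, l1, hv⟩ := List.exists_cons_of_ne_nil hd
  have hvl : v ∈ l := List.mem_of_mem_drop (i := m) (by rw [hv]; exact List.mem_cons_self ..)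
  have hwl : (l.take (m + 1)).headD 0 ∈ l := List.mem_of_mem_take (headD_mem ht)
  set w := (l.take (m + 1)).headD 0 with hw
  have e1 : 0 < s * h (mul n Complex.I v) := by
    have := h1.1
    rw [hv] at this
    exact this
  rw [hI v (adm_K hA v hvl)] at e1
  have e2 := h2.1
  have a1 := habs w hwl
  have a2 := habs v hvl
  have b1 := hcl w (adm_K hA w hwl) v (adm_K hA v hvl) (hC w hwl v hvl)
  have b2 := hcl v (adm_K hA v hvl) w (adm_K hA w hwl) (hC v hvl w hwl)
  rcases hs with rfl | rfl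
  · have c1 : 0 < h w := by linarith
    have c2 : h v < 0 := by linarith
    rw [abs_of_pos c1] at a1
    rw [abs_of_neg c2] at a2
    linarith
  · have c1 : h w < 0 := by linarith
    have c2 : 0 < h v := by linarith
    rw [abs_of_neg c1] at a1
    rw [abs_of_pos c2] at a2
    linarith

end halves

end SplitAux

open SplitAux

/-- If no point of `K` has a constant orbit under the 4p-th roots of unity, the label
cochain `ea` and the two halves `ep`, `em` of the product cochain exist. -/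
theorem exists_split {p : ℕ} [Fact p.Prime] (hp : p ≠ 2) {n : ℕ} {ζ : ℂ}
    (hζ : IsPrimitiveRoot ζ p) {f : W n → ℝ} (hf : Continuous f) (hev : ∀ w, f (-w) = f w)
    (hno : ∀ w ∈ K n, ∃ a : ℕ, a < 2 ∧ ∃ j : ℕ, j < p ∧
      f (mul n (Complex.I ^ a * ζ ^ j) w) ≠ f w) :
    ∃ (δ : ℝ) (cc : ZMod p) (ea ep em : List (W n) → ZMod p), 0 < δ ∧ cc ≠ 0 ∧
      (∀ l, ev ea (bd p l) = 0) ∧
      (∀ l, Adm n n l → ea (l.map (mul n ζ)) = ea l) ∧
      (∀ l, Adm n n l → ep (l.map (mul n ζ)) = ep l) ∧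
      (∀ l, Adm n n l → em (l.map (mul n ζ)) = em l) ∧
      (∀ (b : ZMod p) (y : ℕ → Ch p (W n)), IsSeq (mul n ζ) (Adm n n) (p - 1) b y →
        ev ea (y (p - 1)) = b * cc) ∧
      (∀ l, Adm n n l → Close n δ l → ev ep (bd p l) = 0) ∧
      (∀ l, Adm n n l → Close n δ l → ev em (bd p l) = 0) ∧
      (∀ l, Adm n n l → Close n δ l → l.length = (p - 1) + (p - 1) + 1 →
        ep l + em l = ea ((l.drop (p - 1)).map (mul n Complex.I)) * ea (l.take (p - 1 + 1))) ∧
      (∀ l, Adm n n l → Close n δ l → ∀ m,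
        ep ((l.drop m).map (mul n Complex.I)) * ep (l.take (m + 1)) = 0) ∧
      (∀ l, Adm n n l → Close n δ l → ∀ m,
        em ((l.drop m).map (mul n Complex.I)) * em (l.take (m + 1)) = 0) := by
  have hp0 : 0 < p := (Fact.out : p.Prime).pos
  have hζ1 : ‖ζ‖ = 1 := hζ.norm'_eq_one hp0.ne'
  have hz : ζ ≠ 0 := by
    intro h
    rw [h, norm_zero] at hζ1
    exact zero_ne_one hζ1
  have hζp : ζ ^ p = 1 := hζ.pow_eq_one
  obtain ⟨rb, cc, hcc, hrb1, hrb2, hrb3, hrb4⟩ := exists_rb p hp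
  obtain ⟨α, hα1, hα2, hα3⟩ := exists_label hp hζ f hev
  have hM : ∀ w, w ≠ 0 → ∀ j : ℕ, f (mul n (ζ ^ j) w) ≤ Mx f ζ α w := hα3
  obtain ⟨η, hη, hgap⟩ := exists_gap hp0 hζ1 hf hno
  obtain ⟨δ, hδ0, hδ⟩ := exists_unif (n := n) hf (ε := η / 16) (by positivity)
  -- the label cochain
  set ea : List (W n) → ZMod p := fun l => rb (l.map α) with hea
  have ea1 : ∀ l, ea l ≠ 0 → l.length = p ∧ ∀ j : ZMod p, ∃ w ∈ l, α w = j := by
    intro l hl
    obtain ⟨a1, a2⟩ := hrb1 _ hl
    refine ⟨by rw [List.length_map] at a1; exact a1, fun j => ?_⟩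
    exact List.mem_map.1 (a2 j)
  have ea2 : ∀ l, ev ea (bd p l) = 0 := fun l => ev_map_zero α rb hrb2 l
  have hmapα : ∀ l, Adm n n l → (l.map (mul n ζ)).map α = (l.map α).map (fun j => j - 1) := by
    intro l hl
    rw [List.map_map, List.map_map]
    refine List.map_congr_left fun w hw => ?_
    exact hα1 w (K_ne_zero (adm_K hl w hw))
  have ea3 : ∀ l, Adm n n l → ea (l.map (mul n ζ)) = ea l := by
    intro l hl
    show rb ((l.map (mul n ζ)).map α) = rb (l.map α)
    rw [hmapα l hl, hrb3]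
  -- the product cochain
  set u : List (W n) → ZMod p := fun l => ea (l.map (mul n Complex.I)) with hu
  have u2 : ∀ l, ev u (bd p l) = 0 := fun l => ev_map_zero (mul n Complex.I) ea ea2 l
  set e : List (W n) → ZMod p := fun l => u (l.drop (p - 1)) * ea (l.take (p - 1 + 1)) with he
  have e1 : ∀ l, e l ≠ 0 → l.length = p - 1 + (p - 1) + 1 := by
    intro l hl
    have a1 := (ea1 _ (left_ne_zero_of_mul hl)).1
    rw [List.length_map, List.length_drop] at a1
    omega
  have e2 : ∀ l, ev e (bd p l) = 0 := fun l => ev_e (p - 1) u ea u2 ea2 e1 l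
  have e3 : ∀ l, Adm n n l → e (l.map (mul n ζ)) = e l := by
    intro l hl
    show ea (((l.map (mul n ζ)).drop (p - 1)).map (mul n Complex.I)) *
      ea ((l.map (mul n ζ)).take (p - 1 + 1)) =
      ea ((l.drop (p - 1)).map (mul n Complex.I)) * ea (l.take (p - 1 + 1))
    rw [← List.map_drop, ← List.map_take,
      ea3 _ (adm_sub hl fun x hx => List.mem_of_mem_take hx)]
    congr 1
    have a1 : ((l.drop (p - 1)).map (mul n ζ)).map (mul n Complex.I) =
        ((l.drop (p - 1)).map (mul n Complex.I)).map (mul n ζ) := by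
      rw [List.map_map, List.map_map]
      refine List.map_congr_left fun w _ => ?_
      show mul n Complex.I (mul n ζ w) = mul n ζ (mul n Complex.I w)
      rw [mul_mul, mul_mul, mul_comm]
    rw [a1, ea3 _ (adm_mul Complex.norm_I (adm_sub hl fun x hx => List.mem_of_mem_drop hx))]
  have hnil : e [] = 0 := by
    by_contra hne
    have := e1 _ hne
    simp at this
  -- the function `h`
  set h : W n → ℝ := hh f ζ α with hh'
  have h1 : ∀ w ∈ K n, h (mul n ζ w) = h w := fun w hw => hh_zeta hζp hM hz (K_ne_zero hw)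
  have h2 : ∀ w ∈ K n, h (mul n Complex.I w) = - h w := fun w hw => hh_I hev hα2 (K_ne_zero hw)
  have hcl : ∀ w ∈ K n, ∀ w' ∈ K n, dist w w' ≤ δ → h w ≤ h w' + 2 * (η / 16) :=
    fun w hw w' hw' hd => hh_close hζ1 hM hδ hw hw' hd
  have SC : ∀ l l', Adm n n l → Close n δ l → (∀ x ∈ l', x ∈ l) → e l' ≠ 0 →
      ∀ w ∈ l, η / 2 ≤ |h w| := by
    intro l l' hA hC hs hne
    refine supp hζ1 hη hM hδ hgap hA hC ?_ ?_
    · intro j
      obtain ⟨w, hw, hj⟩ := (ea1 _ (right_ne_zero_of_mul hne)).2 j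
      exact ⟨w, hs w (List.mem_of_mem_take hw), hj⟩
    · intro j
      obtain ⟨w, hw, hj⟩ := (ea1 _ (left_ne_zero_of_mul hne)).2 j
      obtain ⟨v, hv, rfl⟩ := List.mem_map.1 hw
      exact ⟨v, hs v (List.mem_of_mem_drop hv), hj⟩
  refine ⟨δ, cc, ea, es h e 1, es h e (-1), hδ0, hcc, ea2, ea3, es_map h1 e3, es_map h1 e3, ?_,
    es_closed hη (Or.inl rfl) hnil e2 hcl SC, es_closed hη (Or.inr rfl) hnil e2 hcl SC, ?_,
    es_disj hη (Or.inl rfl) hnil hcl h2 SC, es_disj hη (Or.inr rfl) hnil hcl h2 SC⟩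
  · intro b y hy
    have hy' : IsSeq (fun j : ZMod p => j - 1) (fun _ => True) (p - 1) b
        (fun k => push α (y k)) := by
      refine hy.map (fun l hl => adm_mul hζ1 hl) (push α) ?_ (fun c => D_push α c) ?_ ?_
      · intro c hc
        refine lin_congr (F := (push α).comp (push (mul n ζ)))
          (F' := (push (fun j : ZMod p => j - 1)).comp (push α)) (P := Adm n n) ?_ hc
        intro l hl
        rw [LinearMap.comp_apply, LinearMap.comp_apply, push_single, push_single, push_single,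
          push_single, hmapα l hl]
      · intro a
        rw [push_single, List.map_nil]
      · intro k c hc
        exact push_mem α (fun l hl => ⟨by rw [List.length_map]; exact hl.1, trivial⟩) hc
    have h5 := hrb4 b _ hy'
    rw [ev_push] at h5
    exact h5
  · intro l hA hC hlen
    show es h e 1 l + es h e (-1) l = e l
    by_cases hne : e l = 0
    · have a1 : es h e 1 l = 0 := by
        by_contra hc
        exact (es_ne hc).2 hne
      have a2 : es h e (-1) l = 0 := by
        by_contra hc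
        exact (es_ne hc).2 hne
      rw [a1, a2, hne, add_zero]
    · have hl : l ≠ [] := by
        intro hl
        rw [hl] at hne
        exact hne hnil
      have a1 := SC l l hA hC (fun x hx => hx) hne _ (headD_mem hl)
      rcases lt_trichotomy (h (l.headD 0)) 0 with hlt | heq | hgt
      · rw [es_neg (s := 1) (by rw [one_mul]; exact not_lt.2 hlt.le),
          es_pos (s := -1) (by linarith), zero_add]
      · rw [heq, abs_zero] at a1
        linarith
      · rw [es_pos (s := 1) (by rw [one_mul]; exact hgt),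
          es_neg (s := -1) (by linarith), add_zero]

end Pool.Agent.Lib.P23Z
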