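import Pool.Agent.Lib.P23Z.Action

/-! Barycentric subdivision of lists in a real vector space.
PROOFS. Write Sd' l = Sd (single l 1) = sdl p l.length l. Lists in bd p l have length
l.length - 1 (`bd_mem`), so for l of length n+1: linearCombination (sdl p n) (bd p l) =
Sd (bd p l) (`lin_congr`), which gives `Sd_single`. `Sd_nil`: sdl p 0 [] = single [] 1.
`D_Sd` on single l 1, strong induction on the length: l = []: D [] = 0; otherwise
D (b * Sd (bd l)) = Sd (bd l) - b * D (Sd (bd l)) = Sd (bd l) - b * Sd (D (bd l)) = Sd (bd l).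
`Sd_push`: bary commutes with linear maps; induction on the length. In the same way
Th (single l 1) = b * (l - Sd l - Th (bd l)) for l nonempty, Th [] = 0, and
D (Th l) = (l - Sd l - Th (bd l)) - b * D(l - Sd l - Th (bd l)), the last D is
bd l - Sd (bd l) - D (Th (bd l)) = Th (D (bd l)) = 0 by induction applied to bd l (linear over
lists of smaller length). `Her.sub`, `Her.and`: clear. `Sd_mem`: claim by induction on n: for
all l of length n and all lists ctx with P (ctx ++ l), every list l' in sdl p n l has length n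
and satisfies P (ctx ++ l') [n+1: P (bary l :: (ctx ++ l)) by the second clause of Her, hence
P ((ctx ++ [bary l]) ++ l1) for l1 a face of l by the first clause, apply the induction
hypothesis with context ctx ++ [bary l]; then ctx ++ (bary l :: l') has the same points].
`Th_mem` in the same way (the three terms l, Sd l, Th (bd l)). `IsSeq.sd`: `IsSeq.map` with
F = Sd, `Sd_push` for g, `D_Sd`, `Sd_nil`, `Sd_mem`. -/

namespace Pool.Agent.Lib.P23Z

open Finsupp

variable {p : ℕ} {E : Type*} [AddCommGroup E] [Module ℝ E]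

namespace SubdivAux

theorem Sd_one (l : List E) : Sd (single l 1 : Ch p E) = sdl p l.length l := by
  simp [Sd]

theorem Th_one (l : List E) : Th (single l 1 : Ch p E) = tl p l.length l := by
  simp [Th]

/-- Linear maps which agree on single lists, by induction on the length. -/
theorem ext_len {M : Type*} [AddCommGroup M] [Module (ZMod p) M] {F F' : Ch p E →ₗ[ZMod p] M}
    (h0 : F (single [] 1) = F' (single [] 1))
    (h : ∀ l : List E, l ≠ [] → F (bd p l) = F' (bd p l) →
      F (single l 1) = F' (single l 1)) (c : Ch p E) : F c = F' c := by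
  have h1 : ∀ n : ℕ, ∀ l : List E, l.length = n → F (single l 1) = F' (single l 1) := by
    intro n
    induction n with
    | zero =>
      intro l hl
      rw [List.length_eq_zero_iff.1 hl]
      exact h0
    | succ n ih =>
      intro l hl
      refine h l (fun hn => by rw [hn] at hl; simp at hl) ?_
      refine lin_congr (P := fun l' => l'.length + 1 = l.length ∧ l'.Sublist l)
        (fun l' hl' => ih l' ?_) (bd_mem l)
      have := hl'.1
      omega
  exact lin_congr (P := fun _ => True) (fun l _ => h1 l.length l rfl) (mem_top c)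

theorem length_pos' {l : List E} (hl : l ≠ []) : ∃ n, l.length = n + 1 :=
  Nat.exists_eq_succ_of_ne_zero fun h => hl (List.length_eq_zero_iff.1 h)

theorem bary_map {E' : Type*} [AddCommGroup E'] [Module ℝ E'] (φ : E →ₗ[ℝ] E') (l : List E) :
    bary (l.map φ) = φ (bary l) := by
  unfold bary
  rw [List.length_map, map_smul, map_list_sum]

end SubdivAux

open SubdivAux

theorem Sd_nil (a : ZMod p) : Sd (single [] a : Ch p E) = single [] a := by
  simp [Sd, sdl]

theorem Sd_single (l : List E) (hl : l ≠ []) :
    Sd (single l 1 : Ch p E) = cone (bary l) (Sd (bd p l)) := by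
  obtain ⟨n, hn⟩ := length_pos' hl
  rw [Sd_one, hn, sdl]
  congr 1
  refine lin_congr (P := fun l' => l'.length + 1 = l.length ∧ l'.Sublist l)
    (fun l' hl' => ?_) (bd_mem l)
  have h1 : l'.length = n := by
    have := hl'.1
    omega
  rw [Sd_one, h1]
  simp

theorem SubdivAux.Th_nil (a : ZMod p) : Th (single [] a : Ch p E) = 0 := by
  simp [Th, tl]

theorem SubdivAux.Th_single (l : List E) (hl : l ≠ []) :
    Th (single l 1 : Ch p E) = cone (bary l) (single l 1 - Sd (single l 1) - Th (bd p l)) := by
  obtain ⟨n, hn⟩ := length_pos' hl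
  rw [Th_one, Sd_one, hn, tl]
  congr 2
  refine lin_congr (P := fun l' => l'.length + 1 = l.length ∧ l'.Sublist l)
    (fun l' hl' => ?_) (bd_mem l)
  have h1 : l'.length = n := by
    have := hl'.1
    omega
  rw [Th_one, h1]
  simp

theorem D_Sd (c : Ch p E) : D (Sd c) = Sd (D c) := by
  refine ext_len (F := D.comp Sd) (F' := Sd.comp D) ?_ (fun l hl ih => ?_) c
  · rw [LinearMap.comp_apply, LinearMap.comp_apply, Sd_nil, D_nil, map_zero]
  · rw [LinearMap.comp_apply, LinearMap.comp_apply, ChainAux.D_bd, map_zero] at ih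
    rw [LinearMap.comp_apply, LinearMap.comp_apply, Sd_single l hl, D_cone, ih, map_zero,
      sub_zero, D_single, one_smul]

theorem Sd_push {E' : Type*} [AddCommGroup E'] [Module ℝ E'] (φ : E →ₗ[ℝ] E') (c : Ch p E) :
    Sd (push φ c) = push φ (Sd c) := by
  refine ext_len (F := Sd.comp (push φ)) (F' := (push φ).comp Sd) ?_ (fun l hl ih => ?_) c
  · rw [LinearMap.comp_apply, LinearMap.comp_apply, Sd_nil, push_single, List.map_nil, Sd_nil]
  · rw [LinearMap.comp_apply, LinearMap.comp_apply] at ih
    rw [LinearMap.comp_apply, LinearMap.comp_apply, Sd_single l hl, push_single,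
      Sd_single _ (fun h => hl (List.map_eq_nil_iff.1 h)), push_cone, bary_map,
      ChainAux.bd_map, ih]

/-- The homotopy formula `D Th + Th D = id - Sd`. -/
theorem D_Th (c : Ch p E) : D (Th c) + Th (D c) = c - Sd c := by
  have h := ext_len (F := D.comp Th + Th.comp D) (F' := LinearMap.id - Sd) (p := p) (E := E)
    ?_ (fun l hl ih => ?_) c
  · exact h
  · rw [LinearMap.add_apply, LinearMap.comp_apply, LinearMap.comp_apply, LinearMap.sub_apply,
      LinearMap.id_apply, SubdivAux.Th_nil, D_nil, Sd_nil, map_zero, map_zero, add_zero, sub_self]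
  · rw [LinearMap.add_apply, LinearMap.comp_apply, LinearMap.comp_apply, LinearMap.sub_apply,
      LinearMap.id_apply, ChainAux.D_bd, map_zero, add_zero] at ih
    have hX : D (single l 1 - Sd (single l 1) - Th (bd p l) : Ch p E) = 0 := by
      rw [map_sub, map_sub, D_Sd, D_single, one_smul, ih, sub_self]
    rw [LinearMap.add_apply, LinearMap.comp_apply, LinearMap.comp_apply, LinearMap.sub_apply,
      LinearMap.id_apply, SubdivAux.Th_single l hl, D_cone, hX, map_zero, sub_zero, D_single,
      one_smul]
    abel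

theorem Th_push {E' : Type*} [AddCommGroup E'] [Module ℝ E'] (φ : E →ₗ[ℝ] E') (c : Ch p E) :
    Th (push φ c) = push φ (Th c) := by
  refine ext_len (F := Th.comp (push φ)) (F' := (push φ).comp Th) ?_ (fun l hl ih => ?_) c
  · rw [LinearMap.comp_apply, LinearMap.comp_apply, SubdivAux.Th_nil, push_single,
      List.map_nil, SubdivAux.Th_nil, map_zero]
  · rw [LinearMap.comp_apply, LinearMap.comp_apply] at ih
    have h1 : (single (l.map φ) 1 : Ch p E') = push φ (single l 1) := (push_single _ _ _).symm
    rw [LinearMap.comp_apply, LinearMap.comp_apply, SubdivAux.Th_single l hl, push_single,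
      SubdivAux.Th_single _ (fun h => hl (List.map_eq_nil_iff.1 h)), push_cone, bary_map,
      ChainAux.bd_map, h1, Sd_push, ih]
    simp only [map_sub]

/-- A condition on lists which is inherited by lists of points of the list and which allows
adding barycenters. -/
def Her (P : List E → Prop) : Prop :=
  (∀ l l' : List E, P l → (∀ x ∈ l', x ∈ l) → P l') ∧
  (∀ l l' : List E, P l → l' ≠ [] → (∀ x ∈ l', x ∈ l) → P (bary l' :: l))

theorem Her.sub {P : List E → Prop} (h : Her P) (l l' : List E) (hl : P l)
    (hs : l'.Sublist l) : P l' :=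
  h.1 l l' hl fun _ hx => hs.subset hx

theorem Her.and {P Q : List E → Prop} (h : Her P) (h' : Her Q) : Her (fun l => P l ∧ Q l) :=
  ⟨fun l l' hl hs => ⟨h.1 l l' hl.1 hs, h'.1 l l' hl.2 hs⟩,
    fun l l' hl hn hs => ⟨h.2 l l' hl.1 hn hs, h'.2 l l' hl.2 hn hs⟩⟩

theorem SubdivAux.ctx {P : List E → Prop} (h : Her P) {ctx l l' : List E} (hl : l ≠ [])
    (hP : P (ctx ++ l)) (hs : ∀ x ∈ l', x ∈ l) : P ((ctx ++ [bary l]) ++ l') := by
  have h1 := h.2 (ctx ++ l) l hP hl fun x hx => List.mem_append_right _ hx
  refine h.1 _ _ h1 fun x hx => ?_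
  rcases List.mem_append.1 hx with h2 | h2
  · rcases List.mem_append.1 h2 with h3 | h3
    · exact List.mem_cons_of_mem _ (List.mem_append_left _ h3)
    · rw [List.mem_singleton.1 h3]
      exact List.mem_cons_self
  · exact List.mem_cons_of_mem _ (List.mem_append_right _ (hs x h2))

theorem SubdivAux.sdl_mem {P : List E → Prop} (h : Her P) : ∀ (n : ℕ) (l ctx : List E),
    l.length = n → P (ctx ++ l) →
      sdl p n l ∈ Sup p (fun l' => l'.length = n ∧ P (ctx ++ l')) := by
  intro n
  induction n with
  | zero =>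
    intro l ctx hl hP
    rw [sdl]
    exact single_mem (P := fun l' => l'.length = 0 ∧ P (ctx ++ l')) ⟨hl, hP⟩ 1
  | succ n ih =>
    intro l ctx hl hP
    have hne : l ≠ [] := fun hn => by rw [hn] at hl; simp at hl
    rw [sdl]
    refine cone_mem (P := fun l' => l'.length = n ∧ P ((ctx ++ [bary l]) ++ l')) (bary l)
      (fun l' hl' => ?_) ?_
    · refine ⟨by rw [List.length_cons, hl'.1], ?_⟩
      have h2 := hl'.2
      rw [List.append_assoc] at h2
      exact h2
    · refine lin_mem _ _ (fun l' => l'.length + 1 = l.length ∧ l'.Sublist l) (fun l1 hl1 => ?_)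
        (bd_mem l)
      rw [Finsupp.linearCombination_single, one_smul]
      refine ih l1 _ ?_ (SubdivAux.ctx h hne hP fun x hx => hl1.2.subset hx)
      have := hl1.1
      omega

theorem SubdivAux.tl_mem {P : List E → Prop} (h : Her P) : ∀ (n : ℕ) (l ctx : List E),
    l.length = n → P (ctx ++ l) →
      tl p n l ∈ Sup p (fun l' => l'.length = n + 1 ∧ P (ctx ++ l')) := by
  intro n
  induction n with
  | zero =>
    intro l ctx _ _
    rw [tl]
    exact Submodule.zero_mem _
  | succ n ih =>
    intro l ctx hl hP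
    have hne : l ≠ [] := fun hn => by rw [hn] at hl; simp at hl
    have hPl : P ((ctx ++ [bary l]) ++ l) := SubdivAux.ctx h hne hP fun x hx => hx
    rw [tl]
    refine cone_mem (P := fun l' => l'.length = n + 1 ∧ P ((ctx ++ [bary l]) ++ l')) (bary l)
      (fun l' hl' => ?_) ?_
    · refine ⟨by rw [List.length_cons, hl'.1], ?_⟩
      have h2 := hl'.2
      rw [List.append_assoc] at h2
      exact h2
    · refine Submodule.sub_mem _ (Submodule.sub_mem _ ?_ ?_) ?_
      · exact single_mem (P := fun l' => l'.length = n + 1 ∧ P ((ctx ++ [bary l]) ++ l'))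
          ⟨hl, hPl⟩ 1
      · exact SubdivAux.sdl_mem h (n + 1) l _ hl hPl
      · refine lin_mem _ _ (fun l' => l'.length + 1 = l.length ∧ l'.Sublist l)
          (fun l1 hl1 => ?_) (bd_mem l)
        rw [Finsupp.linearCombination_single, one_smul]
        refine ih l1 _ ?_ (SubdivAux.ctx h hne hP fun x hx => hl1.2.subset hx)
        have := hl1.1
        omega

theorem Sd_mem {P : List E → Prop} (h : Her P) {k : ℕ} {c : Ch p E}
    (hc : c ∈ Sup p (fun l => l.length = k ∧ P l)) :
    Sd c ∈ Sup p (fun l => l.length = k ∧ P l) := by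
  refine lin_mem Sd _ _ (fun l hl => ?_) hc
  rw [Sd_one, hl.1]
  exact SubdivAux.sdl_mem h k l [] hl.1 hl.2

theorem Th_mem {P : List E → Prop} (h : Her P) {k : ℕ} {c : Ch p E}
    (hc : c ∈ Sup p (fun l => l.length = k ∧ P l)) :
    Th c ∈ Sup p (fun l => l.length = k + 1 ∧ P l) := by
  refine lin_mem Th _ _ (fun l hl => ?_) hc
  rw [Th_one, hl.1]
  exact SubdivAux.tl_mem h k l [] hl.1 hl.2

/-- Sequences are preserved by subdivision. -/
theorem IsSeq.sd {g : E →ₗ[ℝ] E} {P : List E → Prop} (hP : Her P)
    (hPg : ∀ l, P l → P (l.map g)) {m : ℕ}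
    {b : ZMod p} {x : ℕ → Ch p E} (h : IsSeq g P m b x) :
    IsSeq g P m b (fun k => Sd (x k)) :=
  IsSeq.map h hPg Sd (fun c _ => Sd_push g c) D_Sd Sd_nil (fun _ _ hc => Sd_mem hP hc)

end Pool.Agent.Lib.P23Z
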